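import Pool.Agent.H433.EW.Main2

/-!
The height of the Jacobian.
-/

set_option autoImplicit false
set_option linter.unusedSectionVars false
set_option linter.unusedVariables false

open NumberField IsDedekindDomain Finset Filter Topology Polynomial

namespace Pool.Agent.H433.EW

open Pool.Agent.H433.AC (prs)
open Pool.Agent.H433.HG (mem_prs ht rs)
open Pool.Agent.H433.EV (mn Dn Bd Coord)
open Poly (bc)

/-- the height of the vector of the fourth powers of the theta constants -/
theorem poly_up (g : ℕ) (K L : Type) [Field K] [NumberField K] [Field L]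
    [NumberField L] [Algebra K L] (f : (𝓞 K)[X]) (hn : f.natDegree = 2 * g + 1 + 1)
    (hD : f.discr ≠ 0) (r : Fin (2 * g + 1 + 1) → L)
    (hf : f.map (algebraMap (𝓞 K) L) =
      C (algebraMap (𝓞 K) L f.leadingCoeff) * ∏ i, (X - C (r i)))
    (m : Fin (2 * g + 1 + 1) → InfinitePlace L → ℝ) (hm0 : ∀ i w, 0 < m i w)
    (hm : ∀ w i j, w (r i - r j) ≤ m i w * m j w) :
    ht (fun S => (rs (bc r) S)⁻¹) ≤ g * ∑ k, Poly.hm r m k := by
  obtain ⟨α, β, hβ, hr'⟩ := exists_int r
  have h := dn_poly hn hD hf hβ hr'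
  have hβw (i : Fin (2 * g + 1 + 1)) (w : InfinitePlace L) : 0 < w (β i : L) :=
    InfinitePlace.pos_iff.2 (by exact_mod_cast hβ i)
  have hM : Bd α β (fun i w => m i w * w (β i : L)) :=
    bd_of (fun i w => mul_pos (hm0 i w) (hβw i w)) (fun w i j _ => bd_poly hβ hr' hm w i j)
  have h2 := hm_up h hM (coord_poly hn hD hf hβ hr')
  unfold th at h2
  simp only [hp_hm hm0 hβ hr'] at h2
  exact h2

end Pool.Agent.H433.EW
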