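import Mathlib.RingTheory.Polynomial.ContentIdeal
import Mathlib.RingTheory.DedekindDomain.Dvr
import Mathlib.RingTheory.LocalProperties.Submodule
import Mathlib.RingTheory.Localization.Submodule
import Mathlib.Tactic

/-!
The lemma of Gauss for the ideals generated by the coefficients of the polynomials over a Dedekind
domain.
-/

set_option autoImplicit false
set_option linter.unusedSectionVars false
set_option linter.unusedVariables false

open Polynomial Finset

namespace Pool.Agent.H433.EW

section pid

variable {R : Type*} [CommRing R] [IsDomain R] [IsPrincipalIdealRing R]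

theorem content_C_mul {R : Type*} [CommRing R] (a : R) (p : R[X]) :
    (C a * p).contentIdeal = Ideal.span {a} * p.contentIdeal := by
  refine le_antisymm ?_ ?_
  · refine (contentIdeal_mul_le_mul_contentIdeal _ _).trans ?_
    rw [contentIdeal_C]
  · rw [contentIdeal_def p, Ideal.span_mul_span', Ideal.span_le]
    rintro x ⟨y, hy, z, hz, rfl⟩
    rw [Set.mem_singleton_iff] at hy
    subst hy
    have hz' : z ∈ p.coeffs := hz
    rw [mem_coeffs_iff] at hz'
    obtain ⟨n, -, rfl⟩ := hz'
    have h1 := coeff_mem_contentIdeal (p := C y * p) n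
    rw [coeff_C_mul] at h1
    exact h1

theorem exists_prim (p : R[X]) (hp : p ≠ 0) : ∃ (a : R) (q : R[X]), a ≠ 0 ∧ p = C a * q ∧
    q.contentIdeal = ⊤ := by
  obtain ⟨a, ha⟩ := (IsPrincipalIdealRing.principal p.contentIdeal).principal
  have ha' : p.contentIdeal = Ideal.span {a} := ha
  have ha0 : a ≠ 0 := by
    rintro rfl
    apply hp
    rw [← contentIdeal_eq_bot_iff, ha']
    simp
  have h1 : C a ∣ p := by
    refine (C_dvd_iff_dvd_coeff a p).2 ?_
    intro n
    rw [← Ideal.mem_span_singleton, ← ha']
    exact coeff_mem_contentIdeal (p := p) n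
  obtain ⟨q, hq⟩ := h1
  refine ⟨a, q, ha0, hq, ?_⟩
  rw [hq, content_C_mul] at ha'
  have h2 : Ideal.span {a} * q.contentIdeal = Ideal.span {a} * ⊤ := by
    rw [ha', Ideal.mul_top]
  exact (Ideal.span_singleton_mul_right_inj ha0).1 h2

theorem content_mul_pid (p q : R[X]) :
    (p * q).contentIdeal = p.contentIdeal * q.contentIdeal := by
  rcases eq_or_ne p 0 with rfl | hp
  · simp
  rcases eq_or_ne q 0 with rfl | hq
  · simp
  obtain ⟨a, p', ha, rfl, hp'⟩ := exists_prim p hp
  obtain ⟨b, q', hb, rfl, hq'⟩ := exists_prim q hq
  have h1 : C a * p' * (C b * q') = C (a * b) * (p' * q') := by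
    rw [C_mul]
    ring
  rw [h1, content_C_mul, content_C_mul, content_C_mul,
    contentIdeal_mul_eq_top_of_contentIdeal_eq_top hp' hq', hp', hq', Ideal.mul_top, Ideal.mul_top,
    Ideal.mul_top, Ideal.span_singleton_mul_span_singleton]

end pid

theorem content_mul {R : Type*} [CommRing R] [IsDedekindDomain R]
    (hR : ¬ IsField R) (p q : R[X]) :
    (p * q).contentIdeal = p.contentIdeal * q.contentIdeal := by
  refine Ideal.eq_of_localization_maximal fun P hP => ?_
  have hP0 : P ≠ ⊥ := Ring.ne_bot_of_isMaximal_of_not_isField hP hR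
  have h1 : IsDiscreteValuationRing (Localization.AtPrime P) :=
    IsLocalization.AtPrime.isDiscreteValuationRing_of_dedekind_domain R hP0 _
  rw [Ideal.map_mul, ← contentIdeal_map_eq_map_contentIdeal, ← contentIdeal_map_eq_map_contentIdeal,
    ← contentIdeal_map_eq_map_contentIdeal, Polynomial.map_mul, content_mul_pid]

theorem content_prod {R : Type*} [CommRing R] [IsDedekindDomain R]
    (hR : ¬ IsField R) {ι : Type*} (s : Finset ι) (p : ι → R[X]) :
    (∏ i ∈ s, p i).contentIdeal = ∏ i ∈ s, (p i).contentIdeal := by
  classical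
  induction s using Finset.induction_on with
  | empty => simp
  | insert i s hi ih => rw [prod_insert hi, prod_insert hi, content_mul hR, ih]

theorem content_linear {R : Type*} [CommRing R] (a b : R) :
    (C b * X - C a).contentIdeal = Ideal.span {a, b} := by
  refine le_antisymm ?_ ?_
  · rw [contentIdeal_def, Ideal.span_le]
    intro x hx
    have hx' : x ∈ (C b * X - C a : R[X]).coeffs := hx
    rw [mem_coeffs_iff] at hx'
    obtain ⟨n, -, rfl⟩ := hx'
    rcases n with _ | _ | n
    · have : (C b * X - C a : R[X]).coeff 0 = -a := by simp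
      rw [this]
      exact neg_mem (Ideal.subset_span (by simp))
    · have : (C b * X - C a : R[X]).coeff (0 + 1) = b := by
        simp
      rw [this]
      exact Ideal.subset_span (by simp)
    · have : (C b * X - C a : R[X]).coeff (n + 1 + 1) = 0 := by
        simp [coeff_C]
      rw [this]
      exact Ideal.zero_mem _
  · rw [Ideal.span_le]
    rintro x hx
    rcases hx with rfl | hx
    · have h1 := coeff_mem_contentIdeal (p := (C b * X - C x : R[X])) 0
      have h2 : (C b * X - C x : R[X]).coeff 0 = -x := by simp
      rw [h2] at h1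
      have := neg_mem h1
      rwa [neg_neg] at this
    · rw [Set.mem_singleton_iff] at hx
      subst hx
      have h1 := coeff_mem_contentIdeal (p := (C x * X - C a : R[X])) 1
      have h2 : (C x * X - C a : R[X]).coeff 1 = x := by
        simp [coeff_C]
      rw [h2] at h1
      exact h1

end Pool.Agent.H433.EW
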