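import Pool.Agent.H433.EW.Main
import Pool.Agent.H433.EW.Gauss
import Mathlib.FieldTheory.Galois.Basic

/-!
The polynomials of degree `2 g + 2`.
-/

set_option autoImplicit false
set_option linter.unusedSectionVars false
set_option linter.unusedVariables false

open NumberField IsDedekindDomain Finset Filter Topology Polynomial

namespace Pool.Agent.H433.EW

open Pool.Agent.H433.AC (prs mp le_mp mem_iff_mp nv log_nv_pos finite_mem Nm)
open Pool.Agent.H433.HG (mem_prs Sp alg_inj alg_co)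
open Pool.Agent.H433.EV (mn mn_co Dn Pn Pn_ne Bd Coord)
open Pool.Agent.H433.GT (ht_int)
open Pool.Agent.H433.HD (sz prod_prs)

section disc

/-- the discriminant in terms of the roots -/
theorem discr_map {A L : Type} [CommRing A] [IsDomain A] [Field L] (φ : A →+* L)
    (hφ : Function.Injective φ) {f : A[X]} {n : ℕ} (hn : f.natDegree = n) (hn1 : 1 ≤ n)
    {r : Fin n → L} (hr : f.map φ = C (φ f.leadingCoeff) * ∏ i, (X - C (r i))) :
    ∃ k : ℕ, φ f.discr = (-1) ^ k * (φ f.leadingCoeff) ^ (2 * (n - 1)) *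
      (∏ q ∈ prs n, (r q.1 - r q.2)) ^ 2 := by
  have hf0 : f ≠ 0 := by
    rintro rfl
    simp at hn
    omega
  have hl : φ f.leadingCoeff ≠ 0 := by
    rw [Ne, map_eq_zero_iff φ hφ, leadingCoeff_eq_zero]
    exact hf0
  set ℓ := φ f.leadingCoeff with hℓ
  have hpos : 0 < f.degree := by
    rw [← natDegree_pos_iff_degree_pos, hn]
    omega
  have h1 := congrArg φ (resultant_deriv hpos)
  have e0 : φ ((-1) ^ (f.natDegree * (f.natDegree - 1) / 2) * f.leadingCoeff * f.discr) =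
      (-1) ^ (f.natDegree * (f.natDegree - 1) / 2) * ℓ * φ f.discr := by
    rw [map_mul, map_mul, map_pow, map_neg, map_one]
  have e0' (P : L[X]) : derivative (C ℓ * P) = C ℓ * derivative P := by
    rw [Polynomial.derivative_mul, derivative_C, zero_mul, zero_add]
  rw [e0, ← resultant_map_map, ← derivative_map, hr, e0', resultant_C_mul_left,
    resultant_C_mul_right] at h1
  set P : L[X] := ∏ i, (X - C (r i)) with hP
  have hlc : ∏ i, (X - C (r i)).leadingCoeff ≠ 0 := by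
    simp
  have hFd : P.natDegree = f.natDegree := by
    rw [hP, natDegree_prod_of_monic _ _ fun i _ => monic_X_sub_C _, hn]
    simp
  have hn' : (derivative P).natDegree ≤ f.natDegree - 1 := by
    rw [← hFd]
    exact natDegree_derivative_le _
  have h2 := resultant_prod_left univ (fun i => X - C (r i)) (derivative P)
    (f.natDegree - 1) hlc hn'
  rw [← hP, hFd] at h2
  rw [h2] at h1
  have h3 (i : Fin n) : (X - C (r i)).resultant (derivative P)
      (X - C (r i)).natDegree (f.natDegree - 1) = ∏ j ∈ univ.erase i, (r i - r j) := by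
    rw [natDegree_X_sub_C, resultant_X_sub_C_left _ _ _ hn']
    have h4 := Lagrange.eval_nodal_derivative_eval_node_eq (s := univ) (v := r) (mem_univ i)
    unfold Lagrange.nodal at h4
    rw [← hP] at h4
    rw [h4, eval_prod]
    refine prod_congr rfl fun j _ => ?_
    simp
  rw [prod_congr rfl fun i _ => h3 i, prod_prs fun i j => r i - r j] at h1
  set Q := ∏ q ∈ prs n, (r q.1 - r q.2) with hQ
  have h5 : ∏ q ∈ prs n, (r q.2 - r q.1) = (-1) ^ (prs n).card * Q := by
    rw [hQ, ← prod_const, ← prod_mul_distrib]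
    exact prod_congr rfl fun q _ => by ring
  rw [h5] at h1
  refine ⟨f.natDegree * (f.natDegree - 1) / 2 + (prs n).card, ?_⟩
  have h6 : ((-1 : L) ^ (f.natDegree * (f.natDegree - 1) / 2)) *
      (-1) ^ (f.natDegree * (f.natDegree - 1) / 2) = 1 := by
    rw [← mul_pow]
    simp
  have h7 : ℓ ^ (f.natDegree - 1) * ℓ ^ f.natDegree = ℓ * ℓ ^ (2 * (n - 1)) := by
    rw [hn, ← pow_add, ← pow_succ']
    congr 1
    omega
  have h8 : ℓ * φ f.discr = ℓ * ((-1) ^ (f.natDegree * (f.natDegree - 1) / 2 + (prs n).card) *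
      ℓ ^ (2 * (n - 1)) * Q ^ 2) := by
    calc ℓ * φ f.discr = ((-1 : L) ^ (f.natDegree * (f.natDegree - 1) / 2)) *
          ((-1) ^ (f.natDegree * (f.natDegree - 1) / 2) * ℓ * φ f.discr) := by
          rw [← mul_assoc, ← mul_assoc, h6, one_mul]
      _ = ((-1 : L) ^ (f.natDegree * (f.natDegree - 1) / 2)) *
          (ℓ ^ (f.natDegree - 1) * ℓ ^ f.natDegree * (Q * ((-1) ^ (prs n).card * Q))) := by
          rw [← h1]
          ring
      _ = _ := by
          rw [h7, pow_add]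
          ring
  exact mul_left_cancel₀ hl h8

end disc

variable {g : ℕ} {K L : Type} [Field K] [NumberField K] [Field L] [NumberField L] [Algebra K L]

/-- integral coordinates of the roots -/
theorem exists_int (r : Fin (2 * g + 1 + 1) → L) : ∃ α β : Fin (2 * g + 1 + 1) → 𝓞 L,
    (∀ i, β i ≠ 0) ∧ ∀ i, (α i : L) = r i * β i := by
  choose x y hy h using fun i => IsFractionRing.div_surjective (A := 𝓞 L) (r i)
  have hy0 (i : Fin (2 * g + 1 + 1)) : y i ≠ 0 := nonZeroDivisors.ne_zero (hy i)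
  refine ⟨x, y, hy0, fun i => ?_⟩
  rw [← h i]
  have h1 : ((y i : 𝓞 L) : L) ≠ 0 := by exact_mod_cast hy0 i
  show (x i : L) = (x i : L) / (y i : L) * (y i : L)
  field_simp

variable {α β : Fin (2 * g + 1 + 1) → 𝓞 L} {r : Fin (2 * g + 1 + 1) → L}

theorem mn_eq (hr : ∀ i, (α i : L) = r i * β i) (q : Fin (2 * g + 1 + 1) × Fin (2 * g + 1 + 1)) :
    ((mn α β q : 𝓞 L) : L) = (β q.1 : L) * β q.2 * (r q.1 - r q.2) := by
  rw [mn_co]
  unfold mn
  simp only [hr]
  ring

theorem Pn_eq (hr : ∀ i, (α i : L) = r i * β i) : ((Pn α β : 𝓞 L) : L) =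
    (∏ i, (β i : L)) ^ (2 * g + 1) * ∏ q ∈ prs (2 * g + 1 + 1), (r q.1 - r q.2) := by
  have h1 := prod_prs (R := L) (n := 2 * g + 1 + 1) fun i _ => (β i : L)
  have h2 : ∏ i : Fin (2 * g + 1 + 1), ∏ _j ∈ univ.erase i, (β i : L) =
      (∏ i, (β i : L)) ^ (2 * g + 1) := by
    rw [← prod_pow]
    refine prod_congr rfl fun i _ => ?_
    rw [prod_const, card_erase_of_mem (mem_univ _), card_univ, Fintype.card_fin,
      Nat.add_sub_cancel]
  rw [← h2, h1]
  unfold Pn
  push_cast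
  rw [← prod_mul_distrib, ← prod_mul_distrib]
  exact prod_congr rfl fun q _ => mn_eq hr q

/-- the discriminant and the content -/
theorem disc_poly {f : (𝓞 K)[X]} (hn : f.natDegree = 2 * g + 1 + 1)
    (hf : f.map (algebraMap (𝓞 K) L) =
      C (algebraMap (𝓞 K) L f.leadingCoeff) * ∏ i, (X - C (r i)))
    (hβ : ∀ i, β i ≠ 0) (hr : ∀ i, (α i : L) = r i * β i) :
    Disc f.discr f.contentIdeal α β := by
  set ℓ := algebraMap (𝓞 K) (𝓞 L) f.leadingCoeff with hℓ
  set B := ∏ i, β i with hB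
  have hf0 : f ≠ 0 := by
    rintro rfl
    simp at hn
  have hℓ0 : ℓ ≠ 0 := (map_ne_zero_iff _ alg_inj).2 (leadingCoeff_ne_zero.2 hf0)
  have hB0 : B ≠ 0 := prod_ne_zero_iff.2 fun i _ => hβ i
  have hφ (x : 𝓞 K) : ((algebraMap (𝓞 K) (𝓞 L) x : 𝓞 L) : L) = algebraMap (𝓞 K) L x := by
    rw [alg_co, IsScalarTower.algebraMap_apply (𝓞 K) K L]
  -- the lemma of Gauss
  have hF : C B * f.map (algebraMap (𝓞 K) (𝓞 L)) =
      C ℓ * ∏ i, (C (β i) * X - C (α i)) := by
    apply Polynomial.map_injective (algebraMap (𝓞 L) L) (RingOfIntegers.coe_injective)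
    rw [Polynomial.map_mul, Polynomial.map_mul, Polynomial.map_map,
      ← IsScalarTower.algebraMap_eq (𝓞 K) (𝓞 L) L, hf, Polynomial.map_prod, map_C, map_C]
    have e1 : ∏ i : Fin (2 * g + 1 + 1), Polynomial.map (algebraMap (𝓞 L) L)
        (C (β i) * X - C (α i)) = C (algebraMap (𝓞 L) L B) * ∏ i, (X - C (r i)) := by
      rw [hB, map_prod, map_prod, ← prod_mul_distrib]
      refine prod_congr rfl fun i _ => ?_
      rw [Polynomial.map_sub, Polynomial.map_mul, map_C, map_C, map_X]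
      have h1 : algebraMap (𝓞 L) L (α i) = r i * algebraMap (𝓞 L) L (β i) := hr i
      rw [h1, C_mul]
      ring
    rw [e1]
    have h2 : algebraMap (𝓞 L) L ℓ = algebraMap (𝓞 K) L f.leadingCoeff := hφ _
    rw [h2]
    ring
  have hG := congrArg contentIdeal hF
  rw [content_C_mul, content_C_mul, contentIdeal_map_eq_map_contentIdeal,
    content_prod (RingOfIntegers.not_isField L)] at hG
  have hai : ∏ i, (C (β i) * X - C (α i)).contentIdeal = ∏ i, ai α β i :=
    prod_congr rfl fun i _ => content_linear _ _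
  rw [hai] at hG
  -- the discriminant
  obtain ⟨k, hk⟩ := discr_map (algebraMap (𝓞 K) L) (FaithfulSMul.algebraMap_injective (𝓞 K) L)
    hn (by omega) hf
  rw [Nat.add_sub_cancel] at hk
  have hH : B ^ (2 * (2 * g + 1)) * algebraMap (𝓞 K) (𝓞 L) f.discr =
      (-1) ^ k * (ℓ ^ (2 * (2 * g + 1)) * Pn α β ^ 2) := by
    apply RingOfIntegers.coe_injective
    have e1 := Pn_eq hr
    have e2 : algebraMap (𝓞 L) L (Pn α β) = ((Pn α β : 𝓞 L) : L) := rfl
    have e3 : algebraMap (𝓞 L) L (algebraMap (𝓞 K) (𝓞 L) f.discr) =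
      algebraMap (𝓞 K) L f.discr := hφ _
    have e4 : algebraMap (𝓞 L) L ℓ = algebraMap (𝓞 K) L f.leadingCoeff := hφ _
    have e5 : algebraMap (𝓞 L) L B = ∏ i, (β i : L) := by
      rw [hB, map_prod]
    rw [map_mul, map_pow, map_mul, map_mul, map_pow, map_pow, map_pow, e2, e3, e4, e5, e1, hk,
      map_neg, map_one]
    ring
  have hH' : Ideal.span {B ^ (2 * (2 * g + 1)) * algebraMap (𝓞 K) (𝓞 L) f.discr} =
      Ideal.span {(-1) ^ k * (ℓ ^ (2 * (2 * g + 1)) * Pn α β ^ 2)} := by rw [hH]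
  have hu : Ideal.span {(-1 : 𝓞 L) ^ k * (ℓ ^ (2 * (2 * g + 1)) * Pn α β ^ 2)} =
      Ideal.span {ℓ ^ (2 * (2 * g + 1)) * Pn α β ^ 2} :=
    Ideal.span_singleton_mul_left_unit ((isUnit_one.neg).pow k) _
  rw [hu, ← Ideal.span_singleton_mul_span_singleton, ← Ideal.span_singleton_mul_span_singleton,
    ← Ideal.span_singleton_pow, ← Ideal.span_singleton_pow, ← Ideal.span_singleton_pow] at hH'
  unfold Disc
  have hPn : Ideal.span {∏ q ∈ prs (2 * g + 1 + 1), mn α β q} = Ideal.span {Pn α β} := rfl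
  rw [hPn]
  have hne : Ideal.span {B} ^ (2 * (2 * g + 1)) * Ideal.span {ℓ} ^ (2 * (2 * g + 1)) ≠ 0 :=
    mul_ne_zero (pow_ne_zero _ (span_ne' hB0)) (pow_ne_zero _ (span_ne' hℓ0))
  refine mul_left_cancel₀ hne ?_
  calc Ideal.span {B} ^ (2 * (2 * g + 1)) * Ideal.span {ℓ} ^ (2 * (2 * g + 1)) *
        (Ideal.span {algebraMap (𝓞 K) (𝓞 L) f.discr} * (∏ i, ai α β i) ^ (2 * (2 * g + 1)))
      = (Ideal.span {B} ^ (2 * (2 * g + 1)) * Ideal.span {algebraMap (𝓞 K) (𝓞 L) f.discr}) *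
        (Ideal.span {ℓ} * ∏ i, ai α β i) ^ (2 * (2 * g + 1)) := by
        rw [mul_pow]
        ring
    _ = (Ideal.span {ℓ} ^ (2 * (2 * g + 1)) * Ideal.span {Pn α β} ^ 2) *
        (Ideal.span {B} * f.contentIdeal.map (algebraMap (𝓞 K) (𝓞 L))) ^ (2 * (2 * g + 1)) := by
        rw [hH', hG]
    _ = _ := by
        rw [mul_pow]
        ring

end Pool.Agent.H433.EW
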