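import Pool.Agent.H433.EW.Mult

/-!
The lower bound, in terms of the heights of the points.
-/

set_option autoImplicit false
set_option linter.unusedSectionVars false
set_option linter.unusedVariables false

open NumberField IsDedekindDomain Finset

namespace Pool.Agent.H433.EW

open Pool.Agent.H433.AC (prs mp le_mp mem_iff_mp nv log_nv_pos finite_mem Nm)
open Pool.Agent.H433.HG (mem_prs Sp mem_Sp Linear Apart dl rs apart_sub dl_gen dl_le_mem Zero al ht
  ht_sign Sp_nonempty exists_int dl_int dl_smul dl_zero dl_abs)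
open Pool.Agent.H433.EV (mn mn_co mn_swap Dn Pn Pn_ne Coord Sep Unit1 Gp Np em Gp_sub weight_Np
  weight_all card_em card_emc prod_GN e2 e2_inj e2_mem Vf mem_Vf mem_Vf' W W_co Wne coord_inj
  loc_sep loc_dif W_rs pl pl_sub pl_ne mp_pl Bd tot tot_eq W_up W_low pm_pos szl norm_sub al_ht
  hm_eq)
open Pool.Agent.H433.GT (mi le_mi mp_mul mp_prod log_absNorm log_Nm lt_pow span_ne le_mi_span
  le_of_simple ht_int)
open Pool.Agent.H433.HD (sz w_pos log_Nm_inf)

variable {g : ℕ} {K : Type} [Field K] [NumberField K] {α β : Fin (2 * g + 1 + 1) → 𝓞 K}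
  {m : Fin (2 * g + 1 + 1) → InfinitePlace K → ℝ}

/-- the sum of the heights of the points -/
noncomputable def th (α β : Fin (2 * g + 1 + 1) → 𝓞 K)
    (m : Fin (2 * g + 1 + 1) → InfinitePlace K → ℝ) : ℝ := ∑ i, hp α β m i

theorem th_eq : th α β m = tot m - CA α β := by
  unfold th hp tot CA
  rw [sum_sub_distrib]

theorem hpl_eq (l : List (Fin (2 * g + 1) × Fin (2 * g + 1))) :
    hpl α β m l = szl m l - cl α β l := by
  unfold hpl szl cl hp
  rw [sum_map, ← sum_sub_distrib]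
  refine sum_congr rfl fun p _ => ?_
  show _ = _ - (Real.log (Ideal.absNorm (ai α β p.1.castSucc)) +
    Real.log (Ideal.absNorm (ai α β p.2.castSucc)))
  ring

/-- the norm of the product of the minors -/
noncomputable def LR (h : Dn α β) : ℝ := ∑ v ∈ Vf h, (ms α β v : ℝ) * Real.log (nv v)

theorem log_Pn (h : Dn α β) :
    Real.log (Nm (Pn α β)) = LR h + (2 * g + 1) * CA α β := by
  rw [log_Nm (Pn_ne h) (Vf h) fun v hv => (mem_Vf' h).2 hv, CA_eq h subset_rfl]
  unfold LR
  rw [mul_sum, ← sum_add_distrib]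
  refine sum_congr rfl fun v _ => ?_
  rw [mp_Pn h]
  push_cast
  ring

/-- the height of the point of the moduli space, upper bound -/
theorem hm_up (h : Dn α β) (hM : Bd α β m) {b : Fin (2 * g + 1) → K}
    (hb : Coord (fun i => (α i : K)) (fun i => (β i : K)) b) :
    ht (fun S => (rs b S)⁻¹) ≤ g * th α β m := by
  classical
  obtain ⟨S₀, hS₀⟩ := Sp_nonempty g
  obtain ⟨ww, hww⟩ : ∃ ww : Sp g → 𝓞 K, ww = fun S : Sp g => W α β S := ⟨_, rfl⟩
  have ew (S : Sp g) : ww S = W α β S := by rw [hww]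
  have hW0 : ww ⟨S₀, hS₀⟩ ≠ 0 := by
    rw [ew]
    exact Wne h _
  have e0 : (fun S : Sp g => ((W α β S : 𝓞 K) : K)) = fun S => ((ww S : 𝓞 K) : K) := by rw [hww]
  rw [hm_eq h hb, e0, ht_int hW0, th_eq]
  have hI := span_ne hW0
  have h1 : g * CA α β ≤ Real.log (Ideal.absNorm (Ideal.span (Set.range ww))) := by
    set V : Finset (HeightOneSpectrum (𝓞 K)) := (Ideal.finite_factors hI).toFinset ∪ Vf h with hV
    have hVf : Vf h ⊆ V := subset_union_right
    rw [log_absNorm hI V fun v hv => by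
      rw [hV, mem_union, Set.Finite.mem_toFinset]
      exact Or.inl hv, CA_eq h hVf, mul_sum]
    refine sum_le_sum fun v _ => ?_
    rw [← mul_assoc]
    refine mul_le_mul_of_nonneg_right ?_ (log_nv_pos v).le
    have h2 : g * As α β v ≤ mi v (Ideal.span (Set.range ww)) := by
      rw [le_mi_span hW0]
      intro S
      rw [ew, le_mp (Wne h _), mp_W h v S.2]
      omega
    exact_mod_cast h2
  have h3 (w : InfinitePlace K) : 0 < ⨆ i, w ((ww i : 𝓞 K) : K) :=
    lt_of_lt_of_le (w_pos hW0) (le_ciSup (f := fun i => w ((ww i : 𝓞 K) : K))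
      (Set.finite_range _).bddAbove ⟨S₀, hS₀⟩)
  have h4 : Real.log (∏ w : InfinitePlace K, (⨆ i, w ((ww i : 𝓞 K) : K)) ^ w.mult) ≤
      g * tot m := by
    rw [Real.log_prod fun w _ => pow_ne_zero _ (h3 w).ne', tot_eq hM, mul_sum]
    refine sum_le_sum fun w _ => ?_
    have : Nonempty (Sp g) := ⟨⟨S₀, hS₀⟩⟩
    have h5 : (⨆ i, w ((ww i : 𝓞 K) : K)) ≤ (∏ i, m i w) ^ g := by
      refine ciSup_le fun s => ?_
      rw [ew]
      exact W_up hM w s.2
    have h6 := Real.log_le_log (h3 w) h5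
    rw [Real.log_pow] at h6
    rw [Real.log_pow]
    have h7 : (0 : ℝ) ≤ w.mult := Nat.cast_nonneg _
    nlinarith [mul_le_mul_of_nonneg_left h6 h7]
  linarith

/-- the height of the vector of the fourth powers of the theta functions -/
theorem al_low (h : Dn α β) (hM : Bd α β m) {b : Fin (2 * g + 1) → K}
    (hb : Coord (fun i => (α i : K)) (fun i => (β i : K)) b)
    {y : Finset (Fin (2 * g + 1)) → K} (hL : Linear b y)
    {P : HeightOneSpectrum (𝓞 K) → Prop} (hI : ∀ v, P v → Good α β y v)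
    {l : List (Fin (2 * g + 1) × Fin (2 * g + 1))} {B : Finset (Fin (2 * g + 1))} (hl : l ≠ [])
    (hB : Apart l B) (hd : dl y l B ≠ 0)
    {S₁ : Finset (HeightOneSpectrum (𝓞 K))} (hS₁ : ∀ v ∈ S₁, Zero y v) :
    3 * LR h - exs h P - 2 * exs h (Sng α β) -
      ((g + 1) + 2 * (2 * g + 1)) * th α β m + 2 * hpl α β m l -
      l.length * (Module.finrank ℚ K * Real.log 4) + 2 * ∑ v ∈ S₁, Real.log (nv v) ≤
      ht (al b y) := by
  obtain ⟨γ, z, hγ, hz⟩ := exists_int y
  have hzf : (fun S => (z S : K)) = fun S => γ * y S := funext hz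
  obtain ⟨δ, hδ⟩ := dl_int z l B
  have hδ0 : δ ≠ 0 := by
    intro h0
    rw [h0, hzf, dl_smul] at hδ
    simp only [map_zero] at hδ
    exact mul_ne_zero hγ hd hδ.symm
  have hLz : Linear b fun S => (z S : K) := by
    intro U hU
    show (z U : K) = ∑ i ∈ U, _ * (z _ : K)
    rw [hz, hL U hU, mul_sum]
    refine sum_congr rfl fun i _ => ?_
    rw [hz]
    ring
  have hIz (v : HeightOneSpectrum (𝓞 K)) (hv : P v) : Good α β (fun S => (z S : K)) v := by
    rcases hI v hv with ⟨hs, t, ht⟩ | ⟨hs, hId⟩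
    · refine Or.inl ⟨hs, γ * t, fun S hS => ?_⟩
      obtain ⟨q, hq⟩ := ht S hS
      exact ⟨q, by
        show (z S : K) = _
        rw [hz, hq]
        ring⟩
    refine Or.inr ⟨hs, fun p hp hpv => ?_⟩
    obtain ⟨S, hS, hsep, hmax⟩ := hId p hp hpv
    refine ⟨S, hS, hsep, fun S' hS' => ?_⟩
    show v.valuation K (z S' : K) ≤ v.valuation K (z S : K)
    rw [hz, hz, map_mul, map_mul]
    exact mul_le_mul_right (hmax S' hS') _
  -- a coordinate which is not zero
  obtain ⟨S₀, hS₀⟩ : ∃ S₀ : Sp g, z S₀ ≠ 0 := by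
    by_contra hcon
    push Not at hcon
    apply hδ0
    have h1 := dl_zero (x := fun S => (z S : K)) (fun S hS => by
      have := hcon ⟨S, hS⟩
      simp only at this
      show (z S : K) = 0
      rw [this]
      simp) l B hB
    rw [← hδ] at h1
    exact_mod_cast h1
  obtain ⟨ww, hww⟩ : ∃ ww : Sp g → 𝓞 K, ww = fun S : Sp g => W α β S * z S ^ 2 := ⟨_, rfl⟩
  have ew (S : Sp g) : ww S = W α β S * z S ^ 2 := by rw [hww]
  have hw0 : ww S₀ ≠ 0 := by
    rw [ew]
    exact mul_ne_zero (Wne h _) (pow_ne_zero 2 hS₀)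
  have e0 : (fun S : Sp g => ((W α β S * z S ^ 2 : 𝓞 K) : K)) = fun S => ((ww S : 𝓞 K) : K) := by
    rw [hww]
  have h1 := norm_al h hb hS₀ hLz hIz
  rw [← hww] at h1
  have h2 := norm_dl h hb hγ hz hS₀ hLz hl hB hδ hδ0 hS₁
  have h3 := norm_sub h hM (pl_sub hB)
  have hszl : ∑ q ∈ l.toFinset.map ⟨e2, e2_inj⟩, (sz (m q.1) + sz (m q.2)) = szl m l := by
    rw [sum_map]
    rfl
  rw [hszl] at h3
  have hPd : Pn α β * δ ^ 2 ≠ 0 := mul_ne_zero (Pn_ne h) (pow_ne_zero 2 hδ0)
  have h4 := HD.arch_low (Z := ww) hPd (c := fun w => ((∏ i, m i w) ^ (g + 1) * 4 ^ l.length)⁻¹)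
    (fun w => by have := pm_pos hM w; positivity)
    fun w => by
      have : Nonempty (Sp g) := ⟨S₀⟩
      obtain ⟨S, -, hS⟩ := exists_max_image (univ : Finset (Sp g)) (fun S => w (z S : K))
        univ_nonempty
      refine ⟨S, ?_⟩
      have h5 : w (δ : K) ≤ 2 ^ l.length * w (z S : K) := by
        rw [hδ]
        refine dl_abs (w := w) (fun y z => ?_) (fun T hT => hS ⟨T, hT⟩ (mem_univ _)) l B hB
        rw [← InfinitePlace.norm_embedding_eq, ← InfinitePlace.norm_embedding_eq w y,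
          ← InfinitePlace.norm_embedding_eq w z, map_sub]
        exact norm_sub_le _ _
      have h6 : w (δ : K) ^ 2 ≤ (2 ^ l.length * w (z S : K)) ^ 2 :=
        pow_le_pow_left₀ (apply_nonneg _ _) h5 2
      have h7 := W_low hM w S.2
      rw [ew]
      push_cast
      rw [map_mul, map_mul, map_pow, map_pow]
      have h8 : (4 : ℝ) ^ l.length = (2 ^ l.length) ^ 2 := by
        rw [← pow_mul, Nat.mul_comm l.length 2, pow_mul]
        norm_num
      have hMw := pm_pos hM w
      rw [h8, inv_mul_le_iff₀ (by positivity)]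
      calc w (Pn α β : K) * w (δ : K) ^ 2
          ≤ ((∏ i, m i w) ^ (g + 1) * w ((W α β S : 𝓞 K) : K)) *
              (2 ^ l.length * w (z S : K)) ^ 2 := by
            gcongr
        _ = (∏ i, m i w) ^ (g + 1) * (2 ^ l.length) ^ 2 *
              (w ((W α β S : 𝓞 K) : K) * w (z S : K) ^ 2) := by
            ring
  have h9 : sz (fun w => ((∏ i, m i w) ^ (g + 1) * 4 ^ l.length)⁻¹) =
      -((g + 1) * tot m) - l.length * (Module.finrank ℚ K * Real.log 4) := by
    rw [← HD.sz_const, tot_eq hM]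
    unfold HD.sz
    rw [mul_sum, mul_sum, ← sum_neg_distrib, ← sum_sub_distrib]
    refine sum_congr rfl fun w _ => ?_
    rw [Real.log_inv, Real.log_mul (pow_ne_zero _ (pm_pos hM w).ne') (by positivity), Real.log_pow,
      Real.log_pow]
    push_cast
    ring
  have h10 : Real.log (Nm (Pn α β * δ ^ 2)) = Real.log (Nm (Pn α β)) + 2 * Real.log (Nm δ) := by
    rw [log_Nm_inf hPd, log_Nm_inf (Pn_ne h), log_Nm_inf hδ0, mul_sum, ← sum_add_distrib]
    refine sum_congr rfl fun w _ => ?_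
    push_cast
    rw [map_mul, map_pow, Real.log_mul (w_pos (Pn_ne h)).ne' (pow_ne_zero 2 (w_pos hδ0).ne'),
      Real.log_pow]
    push_cast
    ring
  rw [al_ht h hb hγ hz, e0, ht_int hw0]
  rw [h9, h10] at h4
  have h11 : pl α β l = ∏ q ∈ l.toFinset.map ⟨e2, e2_inj⟩, mn α β q := rfl
  rw [h11] at h2
  have h12 := log_Pn h
  rw [th_eq, hpl_eq]
  linarith

end Pool.Agent.H433.EW
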