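import Pool.Agent.H433.EV.Loc
import Pool.Agent.H433.HD.Def2

/-!
Definitions: the hyperelliptic curves of genus `g` with the branch points `P_i = (α_i : β_i)` on the
projective line, `i = 0, ..., 2 g + 1`. The numbers `α_i`, `β_i` are integers of a number field, and
they may have common divisors.
-/

set_option autoImplicit false

open NumberField IsDedekindDomain Finset

namespace Pool.Agent.H433.EW

open Pool.Agent.H433.AC Pool.Agent.H433.HG Pool.Agent.H433.EV

variable {g : ℕ}

section number

variable {K L : Type} [Field K] [NumberField K] [Field L] [NumberField L] [Algebra K L]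

/-- the ideal generated by the coordinates `α_i` and `β_i` of the point `P_i` -/
def ai (α β : Fin (2 * g + 1 + 1) → 𝓞 K) (i : Fin (2 * g + 1 + 1)) : Ideal (𝓞 K) :=
  Ideal.span {α i, β i}

/-- The points with the numbers `q.1` and `q.2` are congruent modulo the power `v ^ k`. -/
def Cong (α β : Fin (2 * g + 1 + 1) → 𝓞 K) (q : Fin (2 * g + 1 + 1) × Fin (2 * g + 1 + 1))
    (v : HeightOneSpectrum (𝓞 K)) (k : ℕ) : Prop :=
  mn α β q ∈ v.asIdeal ^ k * (ai α β q.1 * ai α β q.2)

/-- The reduction modulo `v` has one node: modulo every prime `u` of `L` over `v` exactly two of the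
points `P_i` are congruent. -/
def Node (α β : Fin (2 * g + 1 + 1) → 𝓞 L) (v : HeightOneSpectrum (𝓞 K)) : Prop :=
  ∀ u : HeightOneSpectrum (𝓞 L), HD.Over v u →
    ∃! q : Fin (2 * g + 1 + 1) × Fin (2 * g + 1 + 1), q.1 < q.2 ∧ Cong α β q u 1

/-- Two of the points are congruent modulo `v`, but not modulo `v ^ 2`. -/
def Thin (α β : Fin (2 * g + 1 + 1) → 𝓞 K) (v : HeightOneSpectrum (𝓞 K)) : Prop :=
  ∃ q : Fin (2 * g + 1 + 1) × Fin (2 * g + 1 + 1), q.1 < q.2 ∧ Cong α β q v 1 ∧
    ¬ Cong α β q v 2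

/-- The point with the coordinates `x` lies in the identity component at `v`: if two of the points
`P_i` coincide modulo `v`, then the largest of the values `|x S|_v` is taken for a set `S` which
separates them. -/
def Ident (α β : Fin (2 * g + 1 + 1) → 𝓞 K) (x : Finset (Fin (2 * g + 1)) → K)
    (v : HeightOneSpectrum (𝓞 K)) : Prop :=
  ∀ q : Fin (2 * g + 1 + 1) × Fin (2 * g + 1 + 1), q.1 < q.2 → Cong α β q v 1 →
    ∃ S ∈ Sp g, Sep S q ∧ ∀ S' ∈ Sp g, v.valuation K (x S') ≤ v.valuation K (x S)

/-- The height of the point `P_i`, relative to `K`, for the numbers `m i w` instead of the norms of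
the vectors `(α_i, β_i)` at the archimedean places `w`. -/
noncomputable def hp (α β : Fin (2 * g + 1 + 1) → 𝓞 K)
    (m : Fin (2 * g + 1 + 1) → InfinitePlace K → ℝ) (i : Fin (2 * g + 1 + 1)) : ℝ :=
  HD.sz (m i) - Real.log (Ideal.absNorm (ai α β i))

/-- the sum of the heights of the points in the pairs of the list -/
noncomputable def hpl (α β : Fin (2 * g + 1 + 1) → 𝓞 K)
    (m : Fin (2 * g + 1 + 1) → InfinitePlace K → ℝ)
    (l : List (Fin (2 * g + 1) × Fin (2 * g + 1))) : ℝ :=
  ∑ p ∈ l.toFinset, (hp α β m p.1.castSucc + hp α β m p.2.castSucc)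

/-- `D` and `c` are the discriminant and the content of a binary form of degree `2 g + 2` over the
integers of `K` with the zeros `P_i`. -/
def Disc (D : 𝓞 K) (c : Ideal (𝓞 K)) (α β : Fin (2 * g + 1 + 1) → 𝓞 L) : Prop :=
  Ideal.span {algebraMap (𝓞 K) (𝓞 L) D} * (∏ i, ai α β i) ^ (2 * (2 * g + 1)) =
    (c.map (algebraMap (𝓞 K) (𝓞 L))) ^ (2 * (2 * g + 1)) *
      Ideal.span {∏ q ∈ prs (2 * g + 1 + 1), mn α β q} ^ 2

/-- The Galois group of `L / K` permutes the points `P_i`, and only the identity fixes all these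
points: `L` is the field of definition of the points. -/
def Perm (K : Type) [Field K] {L : Type} [Field L] [NumberField L] [Algebra K L]
    (α β : Fin (2 * g + 1 + 1) → 𝓞 L) : Prop :=
  (∀ (σ : Gal(L/K)) (j : Fin (2 * g + 1 + 1)), ∃ i : Fin (2 * g + 1 + 1),
    (α i : L) * σ (β j) = β i * σ (α j)) ∧
  ∀ σ : Gal(L/K), (∀ j : Fin (2 * g + 1 + 1), (α j : L) * σ (β j) = β j * σ (α j)) → σ = 1

end number

end Pool.Agent.H433.EW
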