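import Pool.Agent.H433.EV.Def
import Mathlib.NumberTheory.Height.NumberField
import Mathlib.RingTheory.Polynomial.ContentIdeal

/-!
Definitions: the hyperelliptic curves `d y ^ 2 = f(x)`, `f` a polynomial of degree `2 g + 2` over the
ring of integers of a number field, with the zeros `r_0, ..., r_{2 g + 1}`.
-/

set_option autoImplicit false

open NumberField IsDedekindDomain Finset

namespace Pool.Agent.H433.EW.Poly

open Pool.Agent.H433.AC Pool.Agent.H433.HG Pool.Agent.H433.EV

variable {g : ℕ} {K L : Type} [Field K] [NumberField K] [Field L] [NumberField L] [Algebra K L]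

/-- the numbers `r_i` and `r_j`, `q = (i, j)`, coincide modulo `v` as points of the projective
line -/
def Near (r : Fin (2 * g + 1 + 1) → K) (q : Fin (2 * g + 1 + 1) × Fin (2 * g + 1 + 1))
    (v : HeightOneSpectrum (𝓞 K)) : Prop :=
  v.valuation K (r q.1 - r q.2) < max 1 (v.valuation K (r q.1)) * max 1 (v.valuation K (r q.2))

/-- The reduction modulo `v` of the curve `y ^ 2 = f(x)` has one node and no other singularity (for
`v` prime to `2` and to the content of `f`): modulo every prime `u` of `L` over `v` exactly two of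
the zeros `r_i` coincide. -/
def Node (r : Fin (2 * g + 1 + 1) → L) (v : HeightOneSpectrum (𝓞 K)) : Prop :=
  ∀ u : HeightOneSpectrum (𝓞 L), HD.Over v u →
    ∃! q : Fin (2 * g + 1 + 1) × Fin (2 * g + 1 + 1), q.1 < q.2 ∧ Near r q u

/-- The place is thin: two of the numbers `r_i` coincide modulo `v`, and their chordal distance is
the absolute value of a uniformiser. -/
def Thin (r : Fin (2 * g + 1 + 1) → K) (v : HeightOneSpectrum (𝓞 K)) : Prop :=
  ∃ q : Fin (2 * g + 1 + 1) × Fin (2 * g + 1 + 1), q.1 < q.2 ∧ Near r q v ∧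
    ∀ x : K, v.valuation K x < 1 → v.valuation K x * (max 1 (v.valuation K (r q.1)) *
      max 1 (v.valuation K (r q.2))) ≤ v.valuation K (r q.1 - r q.2)

/-- The point with the coordinates `x` lies in the identity component at `v`: if two of the numbers
`r_i` coincide modulo `v`, then the largest of the values `|x S|_v` is taken for a set `S` which
separates them. -/
def Ident (r : Fin (2 * g + 1 + 1) → K) (x : Finset (Fin (2 * g + 1)) → K)
    (v : HeightOneSpectrum (𝓞 K)) : Prop :=
  ∀ q : Fin (2 * g + 1 + 1) × Fin (2 * g + 1 + 1), q.1 < q.2 → Near r q v →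
    ∃ S ∈ Sp g, Sep S q ∧ ∀ S' ∈ Sp g, v.valuation K (x S') ≤ v.valuation K (x S)

/-- The height of the zero `r_i`, relative to `K`, with the numbers `m i w` instead of the local
factors `max 1 |r_i|_w` at the archimedean places `w` (`Height.logHeight₁` is `[K : ℚ]` times the
absolute logarithmic Weil height). -/
noncomputable def hm (r : Fin (2 * g + 1 + 1) → K)
    (m : Fin (2 * g + 1 + 1) → InfinitePlace K → ℝ) (i : Fin (2 * g + 1 + 1)) : ℝ :=
  Height.logHeight₁ (r i) +
    ∑ w : InfinitePlace K, w.mult * (Real.log (m i w) - Real.log (max 1 (w (r i))))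

/-- the sum of the heights of the zeros in the pairs of the list -/
noncomputable def hml (r : Fin (2 * g + 1 + 1) → K)
    (m : Fin (2 * g + 1 + 1) → InfinitePlace K → ℝ)
    (l : List (Fin (2 * g + 1) × Fin (2 * g + 1))) : ℝ :=
  ∑ p ∈ l.toFinset, (hm r m p.1.castSucc + hm r m p.2.castSucc)

/-- The branch points of the odd model: the zero `r_{2 g + 1}` is moved to infinity,
`b_i = 1 / (r_i - r_{2 g + 1})`. -/
def bc {K : Type} [Field K] (r : Fin (2 * g + 1 + 1) → K) (i : Fin (2 * g + 1)) : K :=
  (r i.castSucc - r (Fin.last _))⁻¹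

end Pool.Agent.H433.EW.Poly
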