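import Pool.Agent.H433.EW.Ext
import Pool.Agent.H433.HD.Split

/-!
The primes which divide the discriminant exactly once.
-/

set_option autoImplicit false
set_option linter.unusedSectionVars false
set_option linter.unusedVariables false

open NumberField IsDedekindDomain Finset

namespace Pool.Agent.H433.EW

open Pool.Agent.H433.AC (prs mp le_mp mem_iff_mp nv log_nv_pos finite_mem Nm)
open Pool.Agent.H433.HG (mem_prs Sp alg_inj alg_co J J_ne J_le comap_eq mi_different)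
open Pool.Agent.H433.EV (mn mn_co Dn Pn Pn_ne upn mn_up dn_up Pn_up Vf mem_Vf mem_Vf')
open Pool.Agent.H433.GT (mi le_mi mp_mul mp_prod log_absNorm log_Nm)
open Pool.Agent.H433.HD (sz Over part over_iff exists_between alg_alg mem_different perm_le Once
  once ldd)

variable {g : ℕ} {K L : Type} [Field K] [NumberField K] [Field L] [NumberField L] [Algebra K L]
  {α β : Fin (2 * g + 1 + 1) → 𝓞 L}

/-- The product of the minors lies in the different. -/
theorem Pn_mem_different [IsGalois K L]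
    (hp : ∀ σ : Gal(L/K), σ ≠ 1 → ∃ q ∈ prs (2 * g + 1 + 1),
      (α q.1 : L) * σ (β q.2 : L) = (β q.1 : L) * σ (α q.2 : L)) :
    Pn α β ∈ differentIdeal (𝓞 K) (𝓞 L) := by
  classical
  refine mem_different fun x hx => ?_
  set u : Finset (Fin (2 * g + 1 + 1) × Fin (2 * g + 1 + 1)) → 𝓞 L :=
    fun T => (∏ q ∈ T, α q.1) * ∏ q ∈ prs (2 * g + 1 + 1) \ T, β q.1 with hu
  set y : Finset (Fin (2 * g + 1 + 1) × Fin (2 * g + 1 + 1)) → 𝓞 L :=
    fun T => (∏ q ∈ T, β q.2) * ∏ q ∈ prs (2 * g + 1 + 1) \ T, (-α q.2) with hy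
  choose z hz using fun T => hx (y T)
  have h1 (σ : Gal(L/K)) : ∏ q ∈ prs (2 * g + 1 + 1),
      ((α q.1 : L) * σ (β q.2 : L) - (β q.1 : L) * σ (α q.2 : L)) =
      ∑ T ∈ (prs (2 * g + 1 + 1)).powerset, (u T : L) * σ (y T : L) := by
    have e1 : ∏ q ∈ prs (2 * g + 1 + 1),
        ((α q.1 : L) * σ (β q.2 : L) - (β q.1 : L) * σ (α q.2 : L)) =
        ∏ q ∈ prs (2 * g + 1 + 1),
        ((α q.1 : L) * σ (β q.2 : L) + (β q.1 : L) * σ ((-α q.2 : 𝓞 L) : L)) := by
      refine prod_congr rfl fun q _ => ?_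
      push_cast
      rw [map_neg]
      ring
    rw [e1, prod_add]
    refine sum_congr rfl fun T _ => ?_
    rw [hu, hy]
    push_cast
    rw [map_mul, map_prod, map_prod, prod_mul_distrib, prod_mul_distrib]
    ring
  have h2 (σ : Gal(L/K)) (hσ : σ ≠ 1) : ∏ q ∈ prs (2 * g + 1 + 1),
      ((α q.1 : L) * σ (β q.2 : L) - (β q.1 : L) * σ (α q.2 : L)) = 0 := by
    obtain ⟨q, hq, he⟩ := hp σ hσ
    exact prod_eq_zero hq (by rw [he, sub_self])
  have h3 : (Pn α β : L) = ∏ q ∈ prs (2 * g + 1 + 1), ((α q.1 : L) * (1 : Gal(L/K)) (β q.2 : L) -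
      (β q.1 : L) * (1 : Gal(L/K)) (α q.2 : L)) := by
    unfold Pn mn
    push_cast
    refine prod_congr rfl fun q _ => ?_
    show (α q.1 : L) * β q.2 - α q.2 * β q.1 = α q.1 * β q.2 - β q.1 * α q.2
    ring
  have h4 : (Pn α β : L) * x = ∑ σ : Gal(L/K),
      (∏ q ∈ prs (2 * g + 1 + 1),
        ((α q.1 : L) * σ (β q.2 : L) - (β q.1 : L) * σ (α q.2 : L))) * σ x := by
    rw [sum_eq_single_of_mem (1 : Gal(L/K)) (mem_univ _) fun σ _ hσ => by
      rw [h2 σ hσ, zero_mul], ← h3]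
    rfl
  refine ⟨∑ T ∈ (prs (2 * g + 1 + 1)).powerset, u T * algebraMap (𝓞 K) (𝓞 L) (z T), ?_⟩
  rw [h4]
  have h5 : ∑ σ : Gal(L/K), (∏ q ∈ prs (2 * g + 1 + 1),
        ((α q.1 : L) * σ (β q.2 : L) - (β q.1 : L) * σ (α q.2 : L))) * σ x =
      ∑ T ∈ (prs (2 * g + 1 + 1)).powerset, (u T : L) * ∑ σ : Gal(L/K), σ (x * (y T : L)) := by
    simp only [mul_sum]
    rw [sum_comm]
    refine sum_congr rfl fun σ _ => ?_
    rw [h1 σ, sum_mul]
    refine sum_congr rfl fun T _ => ?_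
    rw [map_mul]
    ring
  rw [h5]
  push_cast
  refine sum_congr rfl fun T _ => ?_
  rw [← trace_eq_sum_automorphisms, hz T, ← alg_co]

theorem cop (h : Dn α β) (i : Fin (2 * g + 1 + 1)) : (α i : L) ≠ 0 ∨ (β i : L) ≠ 0 := by
  by_contra hcon
  push Not at hcon
  have h1 : α i = 0 := by exact_mod_cast hcon.1
  have h2 : β i = 0 := by exact_mod_cast hcon.2
  obtain ⟨j, hj⟩ := exists_ne i
  apply mn_ne h hj
  unfold mn
  simp [h1, h2]

/-- the permutations of the points -/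
theorem perm_spec (h : Dn α β) (hP : Perm K α β) (σ : Gal(L/K)) (hσ : σ ≠ 1) :
    ∃ q ∈ prs (2 * g + 1 + 1), (α q.1 : L) * σ (β q.2 : L) = (β q.1 : L) * σ (α q.2 : L) := by
  obtain ⟨hP1, hP2⟩ := hP
  choose π hπ using hP1 σ
  have hπi : Function.Injective π := by
    intro i j hij
    by_contra hne
    have h1 := hπ i
    have h2 := hπ j
    rw [← hij] at h2
    have h3 : σ ((mn α β (i, j) : 𝓞 L) : L) ≠ 0 := by
      rw [Ne, map_eq_zero]
      have := mn_ne h hne
      exact_mod_cast this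
    have h4 : σ ((mn α β (i, j) : 𝓞 L) : L) =
        σ (α i : L) * σ (β j : L) - σ (α j : L) * σ (β i : L) := by
      unfold mn
      push_cast
      rw [map_sub, map_mul, map_mul]
    rcases cop h (π i) with h5 | h5
    · apply h3
      have h6 : (α (π i) : L) * σ ((mn α β (i, j) : 𝓞 L) : L) = 0 := by
        rw [h4]
        linear_combination (σ (α i : L)) * h2 - (σ (α j : L)) * h1
      exact (mul_eq_zero.1 h6).resolve_left h5
    · apply h3
      have h6 : (β (π i) : L) * σ ((mn α β (i, j) : 𝓞 L) : L) = 0 := by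
        rw [h4]
        linear_combination (σ (β i : L)) * h2 - (σ (β j : L)) * h1
      exact (mul_eq_zero.1 h6).resolve_left h5
  by_contra hcon
  push Not at hcon
  apply hσ
  have h2 (j : Fin (2 * g + 1 + 1)) : j ≤ π j := by
    by_contra hlt
    rw [not_le] at hlt
    exact hcon (π j, j) (mem_prs.2 hlt) (hπ j)
  refine hP2 σ fun j => ?_
  have h3 := hπ j
  rwa [perm_le hπi h2] at h3

/-- the multiplicity in the different -/
theorem different_le [IsGalois K L] (h : Dn α β) (hP : Perm K α β)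
    (u : HeightOneSpectrum (𝓞 L)) : mi u (differentIdeal (𝓞 K) (𝓞 L)) ≤ ms α β u := by
  obtain ⟨α', β', r, hr, h1, h2, hD, hmp⟩ := loc_rep h u
  have h3 : Pn α' β' ∈ differentIdeal (𝓞 K) (𝓞 L) := by
    refine Pn_mem_different fun σ hσ => ?_
    obtain ⟨q, hq, he⟩ := perm_spec h hP σ hσ
    refine ⟨q, hq, ?_⟩
    rw [h1, h2, h1, h2, map_mul, map_mul]
    linear_combination (r q.1 * σ (r q.2)) * he
  have h4 : mp u (Pn α' β') = ms α β u := by
    unfold Pn ms
    rw [mp_prod _ _ fun q hq => hD q hq]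
    exact sum_congr rfl hmp
  have h5 := (le_mi (v := u) (differentIdeal_ne_bot (A := 𝓞 K) (B := 𝓞 L)) _).2 le_rfl
  rw [← h4, ← le_mp (Pn_ne hD)]
  exact Ideal.dvd_iff_le.1 h5 h3

theorem mp_once {D : 𝓞 K} {v : HeightOneSpectrum (𝓞 K)} (hv : Once D v) : mp v D = 1 := by
  have hD : D ≠ 0 := by
    intro h0
    apply hv.2
    rw [h0]
    exact Ideal.zero_mem _
  have h1 := (mem_iff_mp hD).1 hv.1
  have h2 := (le_mp hD 2).not.1 hv.2
  omega

/-- At a place over a prime which divides the discriminant exactly once, two points collide. -/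
theorem once_spec [IsGalois K L] (h : Dn α β) (hP : Perm K α β) {D : 𝓞 K} {c : Ideal (𝓞 K)}
    (hc : c ≠ ⊥) (hD : Disc D c α β) {v : HeightOneSpectrum (𝓞 K)} (hv : Once D v)
    {u : HeightOneSpectrum (𝓞 L)} (hu : J L v ≤ u.asIdeal) :
    mi v c = 0 ∧ ms α β u = 1 ∧ Smp α β u := by
  have h1 := disc_mi h hc hD hu
  have he := mi_pos hu
  rw [mp_once hv, mul_one] at h1
  have h2 := mi_different (L := L) v u
  have h3 := different_le h hP u
  have h4 : mi v c = 0 := by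
    by_contra hne
    have h5 : mi u (J L v) ≤ mi u (J L v) * mi v c := Nat.le_mul_of_pos_right _ (by omega)
    have h6 : 2 * (mi u (J L v) * mi v c) ≤ 2 * (2 * g + 1) * (mi u (J L v) * mi v c) :=
      Nat.mul_le_mul_right _ (by omega)
    omega
  rw [h4, mul_zero, mul_zero, zero_add] at h1
  have h5 : ms α β u = 1 := by omega
  refine ⟨h4, h5, ?_⟩
  obtain ⟨F, hF⟩ : ∃ F : Fin (2 * g + 1 + 1) × Fin (2 * g + 1 + 1) → ℕ,
      ∀ q, F q = rr α β u q := ⟨_, fun _ => rfl⟩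
  have h4' : ∑ q ∈ prs (2 * g + 1 + 1), F q = 1 := by
    refine Eq.trans ?_ h5
    unfold ms
    exact sum_congr rfl fun q _ => hF q
  obtain ⟨q, hq, hq1⟩ : ∃ q ∈ prs (2 * g + 1 + 1), F q ≠ 0 := by
    by_contra hcon
    push Not at hcon
    rw [sum_eq_zero hcon] at h4'
    omega
  have h8 := add_sum_erase (prs (2 * g + 1 + 1)) F hq
  rw [h4'] at h8
  have h6 : rr α β u q = 1 := by
    rw [← hF]
    omega
  have h9 : ∑ x ∈ (prs (2 * g + 1 + 1)).erase q, F x = 0 := by omega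
  refine ⟨q, hq, ⟨by omega, fun q' hq' hm => ?_⟩, h6⟩
  by_contra hne
  have h7 := sum_eq_zero_iff.1 h9 q' (mem_erase.2 ⟨hne, hq'⟩)
  rw [hF] at h7
  omega

theorem node_of_smp (h : Dn α β) {v : HeightOneSpectrum (𝓞 K)}
    (hs : ∀ u : HeightOneSpectrum (𝓞 L), J L v ≤ u.asIdeal → Smp α β u) : Node α β v := by
  intro u hu
  obtain ⟨p, hp, hsp, -⟩ := hs u (over_iff.1 hu)
  refine ⟨p, ⟨mem_prs.1 hp, (cong_iff h hp 1).2 hsp.1⟩, fun q hq => ?_⟩
  exact hsp.2 q (mem_prs.2 hq.1) ((cong_iff h (mem_prs.2 hq.1) 1).1 hq.2)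

end Pool.Agent.H433.EW
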