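import Pool.Agent.H433.EW.Arch

/-!
Extension of the base field.
-/

set_option autoImplicit false
set_option linter.unusedSectionVars false
set_option linter.unusedVariables false

open NumberField IsDedekindDomain Finset

namespace Pool.Agent.H433.EW

open Pool.Agent.H433.AC (prs mp le_mp mem_iff_mp nv log_nv_pos finite_mem Nm)
open Pool.Agent.H433.HG (mem_prs Sp alg_inj alg_co J J_ne J_le comap_eq)
open Pool.Agent.H433.EV (mn Dn Pn Pn_ne upn mn_up dn_up Pn_up bd_up coord_up tot_up szl_up Vf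
  mem_Vf mem_Vf')
open Pool.Agent.H433.GT (mi le_mi mp_mul mp_prod log_absNorm log_Nm)
open Pool.Agent.H433.HD (sz Over part over_iff exists_between alg_alg)

section two

variable {g : ℕ} {K L : Type} [Field K] [NumberField K] [Field L] [NumberField L] [Algebra K L]

/-- the multiplicity in an extension -/
theorem mi_map {I : Ideal (𝓞 K)} (hI : I ≠ ⊥) {v : HeightOneSpectrum (𝓞 K)}
    {w : HeightOneSpectrum (𝓞 L)} (hw : J L v ≤ w.asIdeal) :
    mi w (I.map (algebraMap (𝓞 K) (𝓞 L))) = mi w (J L v) * mi v I := by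
  have h1 := (le_mi (v := v) hI _).2 le_rfl
  obtain ⟨I', hI'⟩ := h1
  have hI'0 : I' ≠ ⊥ := by
    rintro rfl
    rw [Ideal.mul_bot] at hI'
    exact hI hI'
  have hv0 : v.asIdeal ^ mi v I ≠ ⊥ := pow_ne_zero _ v.ne_bot
  have h2 : mi v I' = 0 := by
    have h3 : mi v I = mi v I + mi v I' := by
      conv_lhs => rw [hI', mi_mul hv0 hI'0, mi_pow v.ne_bot, mi_self, mul_one]
    omega
  have h3 : mi w (I'.map (algebraMap (𝓞 K) (𝓞 L))) = 0 := by
    by_contra hne
    have h4 : I'.map (algebraMap (𝓞 K) (𝓞 L)) ≠ ⊥ := by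
      rw [Ne, Ideal.map_eq_bot_iff_of_injective alg_inj]
      exact hI'0
    have h5 := (le_mi (v := w) h4 1).2 (by omega)
    rw [pow_one, Ideal.dvd_iff_le, Ideal.map_le_iff_le_comap, comap_eq hw] at h5
    have h6 := (le_mi (v := v) hI'0 1).1 (by
      rw [pow_one, Ideal.dvd_iff_le]
      exact h5)
    omega
  have h4 : I'.map (algebraMap (𝓞 K) (𝓞 L)) ≠ ⊥ := by
    rw [Ne, Ideal.map_eq_bot_iff_of_injective alg_inj]
    exact hI'0
  conv_lhs => rw [hI', Ideal.map_mul, Ideal.map_pow]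
  have h5 : (v.asIdeal.map (algebraMap (𝓞 K) (𝓞 L))) = J L v := rfl
  rw [h5, mi_mul (pow_ne_zero _ (J_ne v)) h4, mi_pow (J_ne v), h3]
  ring

theorem mp_map {x : 𝓞 K} (hx : x ≠ 0) {v : HeightOneSpectrum (𝓞 K)}
    {w : HeightOneSpectrum (𝓞 L)} (hw : J L v ≤ w.asIdeal) :
    mp w (algebraMap (𝓞 K) (𝓞 L) x) = mi w (J L v) * mp v x := by
  have h1 := mi_map (L := L) (span_ne' hx) hw
  rw [Ideal.map_span, Set.image_singleton] at h1
  exact h1

variable {α β : Fin (2 * g + 1 + 1) → 𝓞 K} {m : Fin (2 * g + 1 + 1) → InfinitePlace K → ℝ}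

theorem ai_up (i : Fin (2 * g + 1 + 1)) :
    ai (upn L α) (upn L β) i = (ai α β i).map (algebraMap (𝓞 K) (𝓞 L)) := by
  unfold ai upn
  rw [Ideal.map_span, Set.image_pair]

theorem ca_up (h : Dn α β) {v : HeightOneSpectrum (𝓞 K)}
    {w : HeightOneSpectrum (𝓞 L)} (hw : J L v ≤ w.asIdeal) (i : Fin (2 * g + 1 + 1)) :
    ca (upn L α) (upn L β) w i = mi w (J L v) * ca α β v i := by
  unfold ca
  rw [ai_up, mi_map (ai_ne h i) hw]

theorem rr_up (h : Dn α β) {v : HeightOneSpectrum (𝓞 K)}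
    {w : HeightOneSpectrum (𝓞 L)} (hw : J L v ≤ w.asIdeal)
    {q : Fin (2 * g + 1 + 1) × Fin (2 * g + 1 + 1)} (hq : q ∈ prs (2 * g + 1 + 1)) :
    rr (upn L α) (upn L β) w q = mi w (J L v) * rr α β v q := by
  have h1 := rr_add (dn_up (L := L) h) w hq
  rw [mn_up, mp_map (h q hq) hw, rr_add h v hq, ca_up h hw, ca_up h hw] at h1
  nlinarith

theorem ms_up (h : Dn α β) {v : HeightOneSpectrum (𝓞 K)}
    {w : HeightOneSpectrum (𝓞 L)} (hw : J L v ≤ w.asIdeal) :
    ms (upn L α) (upn L β) w = mi w (J L v) * ms α β v := by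
  unfold ms
  rw [mul_sum]
  exact sum_congr rfl fun q hq => rr_up h hw hq

theorem hp_up (i : Fin (2 * g + 1 + 1)) :
    hp (upn L α) (upn L β) (fun i (w : InfinitePlace L) => m i (w.comap (algebraMap K L))) i =
      Module.finrank K L * hp α β m i := by
  unfold hp
  rw [HD.sz_comap (m i), ai_up, Ideal.absNorm_algebraMap,
    ← IsFractionRing.finrank_eq (𝓞 K) K (𝓞 L) L]
  push_cast
  rw [Real.log_pow]
  ring

theorem th_up : th (upn L α) (upn L β)
    (fun i (w : InfinitePlace L) => m i (w.comap (algebraMap K L))) =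
    Module.finrank K L * th α β m := by
  unfold th
  rw [mul_sum]
  exact sum_congr rfl fun i _ => hp_up i

theorem hpl_up (l : List (Fin (2 * g + 1) × Fin (2 * g + 1))) :
    hpl (upn L α) (upn L β) (fun i (w : InfinitePlace L) => m i (w.comap (algebraMap K L))) l =
    Module.finrank K L * hpl α β m l := by
  unfold hpl
  rw [mul_sum]
  refine sum_congr rfl fun p _ => ?_
  rw [hp_up, hp_up]
  ring

theorem mi_pos {v : HeightOneSpectrum (𝓞 K)} {w : HeightOneSpectrum (𝓞 L)}
    (hw : J L v ≤ w.asIdeal) : 1 ≤ mi w (J L v) := by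
  rw [← le_mi (J_ne v), pow_one, Ideal.dvd_iff_le]
  exact hw

theorem single_up (h : Dn α β) {p : Fin (2 * g + 1 + 1) × Fin (2 * g + 1 + 1)}
    (hp : p ∈ prs (2 * g + 1 + 1)) {v : HeightOneSpectrum (𝓞 K)} (hs : Single α β p v)
    {w : HeightOneSpectrum (𝓞 L)} (hw : J L v ≤ w.asIdeal) :
    Single (upn L α) (upn L β) p w := by
  obtain ⟨s1, s3⟩ := hs
  have h1 := mi_pos hw
  refine ⟨?_, fun q hq hqw => s3 q hq ?_⟩
  · rw [rr_up h hw hp]
    exact Nat.mul_pos h1 s1
  · rw [rr_up h hw hq] at hqw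
    by_contra hne
    have h2 : rr α β v q = 0 := by omega
    rw [h2] at hqw
    omega

/-- a thin place over a node -/
theorem smp_of_thin (h : Dn α β) {w : HeightOneSpectrum (𝓞 K)} (hs : Sng α β w)
    (ht : Thin α β w) : Smp α β w := by
  obtain ⟨p, hp, hs1, hs2⟩ := hs
  obtain ⟨q, hq, hqw, hq2⟩ := ht
  have hq' := mem_prs.2 hq
  rw [cong_iff h hq'] at hqw hq2
  have h2 := hs2 q hq' hqw
  rw [h2] at hq2 hqw
  exact ⟨p, hp, ⟨hs1, hs2⟩, by omega⟩

end two

section tower

variable {g : ℕ} {K L E : Type} [Field K] [NumberField K] [Field L] [NumberField L]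
  [Field E] [NumberField E] [Algebra K L] [Algebra L E] [Algebra K E] [IsScalarTower K L E]

variable {α β : Fin (2 * g + 1 + 1) → 𝓞 L}

theorem sng_of_node (h : Dn α β) {v : HeightOneSpectrum (𝓞 K)} (hN : Node α β v)
    {u : HeightOneSpectrum (𝓞 L)} (hu : Over v u) : Sng α β u := by
  obtain ⟨p, ⟨hp, hpv⟩, huniq⟩ := hN u hu
  have hp' := mem_prs.2 hp
  rw [cong_iff h hp'] at hpv
  exact ⟨p, hp', hpv, fun q hq hqv => huniq q ⟨mem_prs.1 hq, (cong_iff h hq 1).2 hqv⟩⟩

theorem sng_of_over (h : Dn α β) {v : HeightOneSpectrum (𝓞 K)} (hN : Node α β v)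
    {w : HeightOneSpectrum (𝓞 E)} (hw : J E v ≤ w.asIdeal) : Sng (upn E α) (upn E β) w := by
  obtain ⟨u, hu, huw⟩ := exists_between L hw
  obtain ⟨p, hp, hs⟩ := sng_of_node h hN hu
  exact ⟨p, hp, single_up h hp hs (over_iff.1 huw)⟩

/-- the product of the ideals of the coordinates -/
theorem mi_ai (h : Dn α β) (u : HeightOneSpectrum (𝓞 L)) :
    mi u (∏ i, ai α β i) = As α β u := by
  unfold As ca
  exact mi_prod _ _ fun i _ => ai_ne h i

theorem disc_ne (h : Dn α β) {D : 𝓞 K} {c : Ideal (𝓞 K)} (hc : c ≠ ⊥) (hD : Disc D c α β) :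
    D ≠ 0 := by
  rintro rfl
  unfold Disc at hD
  rw [map_zero] at hD
  have h1 : Ideal.span {(0 : 𝓞 L)} = 0 := by simp
  rw [h1, zero_mul] at hD
  have h2 : c.map (algebraMap (𝓞 K) (𝓞 L)) ≠ ⊥ := by
    rw [Ne, Ideal.map_eq_bot_iff_of_injective alg_inj]
    exact hc
  exact mul_ne_zero (pow_ne_zero _ h2) (pow_ne_zero 2 (span_ne' (Pn_ne h))) hD.symm

/-- the multiplicities of a prime in the discriminant -/
theorem disc_mi (h : Dn α β) {D : 𝓞 K} {c : Ideal (𝓞 K)} (hc : c ≠ ⊥) (hD : Disc D c α β)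
    {v : HeightOneSpectrum (𝓞 K)} {u : HeightOneSpectrum (𝓞 L)} (hu : J L v ≤ u.asIdeal) :
    mi u (J L v) * mp v D = 2 * (2 * g + 1) * (mi u (J L v) * mi v c) + 2 * ms α β u := by
  have hD0 := disc_ne h hc hD
  have hD0' : algebraMap (𝓞 K) (𝓞 L) D ≠ 0 := (map_ne_zero_iff _ alg_inj).2 hD0
  have hA : ∏ i, ai α β i ≠ ⊥ := prod_ne_zero_iff.2 fun i _ => ai_ne h i
  have hcm : c.map (algebraMap (𝓞 K) (𝓞 L)) ≠ ⊥ := by
    rw [Ne, Ideal.map_eq_bot_iff_of_injective alg_inj]
    exact hc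
  have h1 := congrArg (mi u) hD
  have hP : Ideal.span {∏ q ∈ prs (2 * g + 1 + 1), mn α β q} ≠ ⊥ := span_ne' (Pn_ne h)
  rw [mi_mul (span_ne' hD0') (pow_ne_zero _ hA), mi_pow hA,
    mi_mul (pow_ne_zero _ hcm) (pow_ne_zero _ hP), mi_pow hcm,
    mi_pow hP, mi_map hc hu, mi_ai h] at h1
  have h2 : mi u (Ideal.span {algebraMap (𝓞 K) (𝓞 L) D}) = mi u (J L v) * mp v D :=
    mp_map hD0 hu
  have h3 : mi u (Ideal.span {∏ q ∈ prs (2 * g + 1 + 1), mn α β q}) =
      ms α β u + (2 * g + 1) * As α β u := mp_Pn h u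
  rw [h2, h3] at h1
  nlinarith

/-- the part of the discriminant which is composed of the primes in `T` -/
theorem part_le (h : Dn α β) {D : 𝓞 K} {c : Ideal (𝓞 K)} (hc : c ≠ ⊥) (hD : Disc D c α β)
    {T : Finset (HeightOneSpectrum (𝓞 K))} (hT : ∀ v ∈ T, Node α β v)
    (hcT : ∀ v ∈ T, ¬ c ≤ v.asIdeal) :
    Module.finrank K E * part T D ≤ 2 * (LR (dn_up (L := E) h) -
      exs (dn_up (L := E) h) fun w => ∃ v ∈ T, J E v ≤ w.asIdeal) := by
  classical
  set hE := dn_up (L := E) h with hhE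
  have hD0 := disc_ne h hc hD
  have e1 (v : HeightOneSpectrum (𝓞 K)) (hv : v ∈ T) :
      Module.finrank K E * ((mp v D : ℝ) * Real.log (nv v)) =
        ∑ w ∈ Vf hE, ((mp v D : ℝ) * mi w (J E v)) * Real.log (nv w) := by
    have h1 : Module.finrank K E * Real.log (nv v) =
        ∑ w ∈ Vf hE, (mi w (J E v) : ℝ) * Real.log (nv w) := by
      rw [← log_absNorm (J_ne v) (Vf hE) fun w hw => ?_]
      · unfold J
        rw [Ideal.absNorm_algebraMap, ← IsFractionRing.finrank_eq (𝓞 K) K (𝓞 E) E]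
        push_cast
        rw [Real.log_pow]
        rfl
      · obtain ⟨p, hp, hs⟩ := sng_of_over (E := E) h (hT v hv) (Ideal.dvd_iff_le.1 hw)
        refine mem_Vf hE hp ?_
        rw [mem_iff_mp (hE p hp), rr_add hE w hp]
        have := hs.1
        omega
    rw [mul_left_comm, h1, mul_sum]
    exact sum_congr rfl fun w _ => by ring
  have e2 : Module.finrank K E * part T D =
      ∑ w ∈ Vf hE, (∑ v ∈ T, (mp v D : ℝ) * mi w (J E v)) * Real.log (nv w) := by
    have : part T D = ∑ v ∈ T, (mp v D : ℝ) * Real.log (nv v) := rfl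
    rw [this, mul_sum, sum_congr rfl e1, sum_comm]
    exact sum_congr rfl fun w _ => by rw [sum_mul]
  unfold exs LR
  rw [e2, ← sum_sub_distrib, mul_sum]
  refine sum_le_sum fun w _ => ?_
  rw [← sub_mul, ← mul_assoc]
  refine mul_le_mul_of_nonneg_right ?_ (log_nv_pos w).le
  by_cases hex : ∃ v ∈ T, J E v ≤ w.asIdeal
  · rw [if_pos hex, sub_zero]
    obtain ⟨v, hv, hvw⟩ := hex
    rw [sum_eq_single_of_mem v hv fun v' hv' hne => ?_]
    · obtain ⟨u, hu, huw⟩ := exists_between L hvw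
      rw [over_iff] at hu huw
      have h1 := disc_mi h hc hD hu
      have h2 : mi v c = 0 := by
        by_contra hne
        apply hcT v hv
        have h3 := (le_mi (v := v) hc 1).2 (by omega)
        rwa [pow_one, Ideal.dvd_iff_le] at h3
      rw [h2, mul_zero, mul_zero, zero_add] at h1
      have h3 := ms_up h huw
      -- the ramification indices
      have h4 : mi w (J E v) = mi w (J E u) * mi u (J L v) := by
        have h5 := mi_map (L := E) (J_ne (L := L) v) huw
        rw [← h5]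
        congr 1
        unfold J
        rw [Ideal.map_map]
        congr 1
        ext x
        have h6 := alg_alg (K := K) (L := L) (E := E) x
        show _ = _
        rw [RingHom.comp_apply, h6]
      have h5 : mp v D * mi w (J E v) = 2 * ms (upn E α) (upn E β) w := by
        rw [h3, h4]
        calc mp v D * (mi w (J E u) * mi u (J L v)) =
            mi w (J E u) * (mi u (J L v) * mp v D) := by ring
          _ = _ := by rw [h1]; ring
      have h6 : ((mp v D * mi w (J E v) : ℕ) : ℝ) = ((2 * ms (upn E α) (upn E β) w : ℕ) : ℝ) := by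
        rw [h5]
      push_cast at h6
      linarith
    · have h2 : mi w (J E v') = 0 := by
        by_contra hne0
        have h2 : J E v' ≤ w.asIdeal := by
          have := J_le (v := v') (w := w) (t := 1) (by omega)
          rwa [pow_one] at this
        have h4 := comap_eq h2
        rw [comap_eq hvw] at h4
        exact hne (HeightOneSpectrum.ext h4.symm)
      rw [h2, Nat.cast_zero, mul_zero]
  · rw [if_neg hex, sub_self, mul_zero]
    refine (sum_eq_zero fun v hv => ?_).le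
    have h2 : mi w (J E v) = 0 := by
      by_contra hne0
      apply hex
      refine ⟨v, hv, ?_⟩
      have := J_le (v := v) (w := w) (t := 1) (by omega)
      rwa [pow_one] at this
    rw [h2, Nat.cast_zero, mul_zero]

end tower

section loss

variable {g : ℕ} {E : Type} [Field E] [NumberField E] {α β : Fin (2 * g + 1 + 1) → 𝓞 E}

/-- the loss at the places in `R` -/
theorem exs_R (h : Dn α β) {P Q : HeightOneSpectrum (𝓞 E) → Prop}
    (R : Finset (HeightOneSpectrum (𝓞 E))) (hPQ : ∀ w, Q w → w ∉ R → P w) :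
    exs h P ≤ exs h Q + ∑ w ∈ R, (ms α β w : ℝ) * Real.log (nv w) := by
  classical
  have e2 : ∑ w ∈ Vf h, (if w ∈ R then (ms α β w : ℝ) else 0) * Real.log (nv w) ≤
      ∑ w ∈ R, (ms α β w : ℝ) * Real.log (nv w) := by
    have e3 : ∀ w ∈ Vf h, (if w ∈ R then (ms α β w : ℝ) else 0) * Real.log (nv w) =
        if w ∈ R then (ms α β w : ℝ) * Real.log (nv w) else 0 := fun w _ => by
      split_ifs
      · rfl
      · rw [zero_mul]
    rw [sum_congr rfl e3, ← sum_filter, filter_mem_eq_inter]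
    refine sum_le_sum_of_subset_of_nonneg inter_subset_right fun w _ _ => ?_
    exact mul_nonneg (Nat.cast_nonneg _) (log_nv_pos w).le
  refine le_trans ?_ (add_le_add_right e2 _)
  unfold exs
  rw [← sum_add_distrib]
  refine sum_le_sum fun w _ => ?_
  rw [← add_mul]
  refine mul_le_mul_of_nonneg_right ?_ (log_nv_pos w).le
  have h0 : (0 : ℝ) ≤ ms α β w := Nat.cast_nonneg _
  by_cases hP : P w
  · rw [if_pos hP]
    split_ifs <;> linarith
  · rw [if_neg hP]
    by_cases hR : w ∈ R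
    · rw [if_pos hR]
      split_ifs <;> linarith
    · have hQ : ¬ Q w := fun hQ => hP (hPQ w hQ hR)
      rw [if_neg hQ, if_neg hR]
      linarith

end loss

end Pool.Agent.H433.EW
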