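import Pool.Agent.H433.EW.Def
import Pool.Agent.H433.EV.Ext

/-!
Multiplicities, and local coordinates without common divisors.
-/

set_option autoImplicit false
set_option linter.unusedSectionVars false
set_option linter.unusedVariables false

open NumberField IsDedekindDomain Finset

namespace Pool.Agent.H433.EW

open Pool.Agent.H433.AC (prs mp le_mp mem_iff_mp nv log_nv_pos finite_mem Nm)
open Pool.Agent.H433.HG (mem_prs Sp mem_Sp Linear Apart dl rs)
open Pool.Agent.H433.EV (mn mn_co mn_swap Dn Pn Pn_ne Coord Sep Unit1 Gp Np em Gp_sub weight_Np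
  weight_all card_em card_emc prod_GN)
open Pool.Agent.H433.GT (mi le_mi mp_mul mp_prod log_absNorm log_Nm lt_pow)

variable {g : ℕ} {K : Type} [Field K] [NumberField K]

section ideals

theorem mi_mul {v : HeightOneSpectrum (𝓞 K)} {I J : Ideal (𝓞 K)} (hI : I ≠ ⊥) (hJ : J ≠ ⊥) :
    mi v (I * J) = mi v I + mi v J := by
  have h2 : FiniteMultiplicity v.asIdeal (I * J) := by
    refine FiniteMultiplicity.of_not_isUnit ?_ (mul_ne_zero hI hJ)
    rw [Ideal.isUnit_iff]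
    exact v.isPrime.ne_top
  unfold mi
  exact multiplicity_mul v.prime h2

theorem mi_one (v : HeightOneSpectrum (𝓞 K)) : mi v (1 : Ideal (𝓞 K)) = 0 := by
  have h1 := le_mi (v := v) (I := 1) (by rw [Ideal.one_eq_top]; exact top_ne_bot) 1
  by_contra hne
  have h2 : v.asIdeal ^ 1 ∣ 1 := h1.2 (by omega)
  rw [pow_one, Ideal.dvd_iff_le, Ideal.one_eq_top, top_le_iff] at h2
  exact v.isPrime.ne_top h2

theorem mi_pow {v : HeightOneSpectrum (𝓞 K)} {I : Ideal (𝓞 K)} (hI : I ≠ ⊥) (k : ℕ) :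
    mi v (I ^ k) = k * mi v I := by
  induction k with
  | zero => rw [pow_zero, mi_one, zero_mul]
  | succ k ih => rw [pow_succ, mi_mul (pow_ne_zero k hI) hI, ih]; ring

theorem mi_self (v : HeightOneSpectrum (𝓞 K)) : mi v v.asIdeal = 1 := by
  have h1 := le_mi (v := v) v.ne_bot 1
  have h2 := le_mi (v := v) v.ne_bot 2
  rw [pow_one] at h1
  have h3 := h1.1 dvd_rfl
  by_contra hne
  have h4 := h2.2 (by omega)
  rw [Ideal.dvd_iff_le] at h4
  have h5 : v.asIdeal ^ 2 < v.asIdeal := Ideal.pow_lt_self v.asIdeal v.ne_bot v.isPrime.ne_top 2 le_rfl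
  exact absurd h4 (not_le_of_gt h5)

theorem mi_prod {v : HeightOneSpectrum (𝓞 K)} {ι : Type} (s : Finset ι) (f : ι → Ideal (𝓞 K))
    (hf : ∀ i ∈ s, f i ≠ ⊥) : mi v (∏ i ∈ s, f i) = ∑ i ∈ s, mi v (f i) := by
  classical
  induction s using Finset.induction_on with
  | empty => rw [prod_empty, sum_empty, mi_one]
  | insert i s hi ih =>
    have h1 : ∏ j ∈ s, f j ≠ ⊥ := prod_ne_zero_iff.2 fun j hj => hf j (mem_insert_of_mem hj)
    rw [prod_insert hi, sum_insert hi, mi_mul (hf i (mem_insert_self i s)) h1,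
      ih fun j hj => hf j (mem_insert_of_mem hj)]

theorem span_ne' {x : 𝓞 K} (hx : x ≠ 0) : Ideal.span {x} ≠ ⊥ := by
  rw [Ne, Ideal.span_singleton_eq_bot]
  exact hx

/-- the elements of the product of an ideal and a power of a prime ideal -/
theorem mem_pow_mul {v : HeightOneSpectrum (𝓞 K)} {I : Ideal (𝓞 K)} (hI : I ≠ ⊥) {x : 𝓞 K}
    (hx : x ≠ 0) (hxI : x ∈ I) (k : ℕ) : x ∈ v.asIdeal ^ k * I ↔ k + mi v I ≤ mp v x := by
  have hxs := span_ne' hx
  obtain ⟨J, hJ⟩ := Ideal.dvd_iff_le.2 ((Ideal.span_singleton_le_iff_mem I).2 hxI)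
  have hJ0 : J ≠ ⊥ := by
    rintro rfl
    rw [Ideal.mul_bot] at hJ
    exact hxs hJ
  have h1 : mp v x = mi v I + mi v J := by
    have : mp v x = mi v (Ideal.span {x}) := rfl
    rw [this, hJ, mi_mul hI hJ0]
  rw [h1, ← Ideal.span_singleton_le_iff_mem, ← Ideal.dvd_iff_le, hJ, mul_comm I J,
    mul_dvd_mul_iff_right hI, le_mi hJ0]
  omega

end ideals

variable {α β : Fin (2 * g + 1 + 1) → 𝓞 K}

theorem exists_ne (i : Fin (2 * g + 1 + 1)) : ∃ j, j ≠ i := by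
  by_cases h : i = 0
  · refine ⟨Fin.last _, ?_⟩
    rw [h]
    exact (Fin.last_pos' (n := 2 * g + 1)).ne'
  · exact ⟨0, fun h' => h h'.symm⟩

theorem mn_ne (h : Dn α β) {i j : Fin (2 * g + 1 + 1)} (hij : i ≠ j) : mn α β (i, j) ≠ 0 := by
  rcases lt_or_gt_of_ne hij with hlt | hlt
  · exact h _ (mem_prs.2 hlt)
  · have h1 := mn_swap α β (j, i)
    rw [Prod.swap_prod_mk] at h1
    rw [h1]
    exact neg_ne_zero.2 (h _ (mem_prs.2 hlt))

theorem ai_ne (h : Dn α β) (i : Fin (2 * g + 1 + 1)) : ai α β i ≠ ⊥ := by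
  intro h0
  obtain ⟨j, hj⟩ := exists_ne i
  apply mn_ne h hj
  have h1 : α i ∈ ai α β i := Ideal.subset_span (by simp)
  have h2 : β i ∈ ai α β i := Ideal.subset_span (by simp)
  rw [h0, Ideal.mem_bot] at h1 h2
  unfold mn
  simp [h1, h2]

theorem mn_mem (q : Fin (2 * g + 1 + 1) × Fin (2 * g + 1 + 1)) :
    mn α β q ∈ ai α β q.1 * ai α β q.2 := by
  unfold mn
  refine Ideal.sub_mem _ (Ideal.mul_mem_mul ?_ ?_) ?_
  · exact Ideal.subset_span (by simp)
  · exact Ideal.subset_span (by simp)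
  · rw [mul_comm]
    refine Ideal.mul_mem_mul ?_ ?_
    · exact Ideal.subset_span (by simp)
    · exact Ideal.subset_span (by simp)

/-- the multiplicity of a prime in the ideal of the coordinates of a point -/
noncomputable def ca (α β : Fin (2 * g + 1 + 1) → 𝓞 K) (v : HeightOneSpectrum (𝓞 K))
    (i : Fin (2 * g + 1 + 1)) : ℕ := mi v (ai α β i)

/-- the reduced multiplicity of a prime in a minor -/
noncomputable def rr (α β : Fin (2 * g + 1 + 1) → 𝓞 K) (v : HeightOneSpectrum (𝓞 K))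
    (q : Fin (2 * g + 1 + 1) × Fin (2 * g + 1 + 1)) : ℕ :=
  mp v (mn α β q) - (ca α β v q.1 + ca α β v q.2)

theorem rr_add (h : Dn α β) (v : HeightOneSpectrum (𝓞 K))
    {q : Fin (2 * g + 1 + 1) × Fin (2 * g + 1 + 1)} (hq : q ∈ prs (2 * g + 1 + 1)) :
    mp v (mn α β q) = rr α β v q + (ca α β v q.1 + ca α β v q.2) := by
  have h1 := (mem_pow_mul (v := v) (mul_ne_zero (ai_ne h q.1) (ai_ne h q.2)) (h q hq)
    (mn_mem q) 0).1 (by
      rw [pow_zero, one_mul]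
      exact mn_mem q)
  rw [mi_mul (ai_ne h _) (ai_ne h _)] at h1
  unfold rr ca
  omega

theorem cong_iff (h : Dn α β) {v : HeightOneSpectrum (𝓞 K)}
    {q : Fin (2 * g + 1 + 1) × Fin (2 * g + 1 + 1)} (hq : q ∈ prs (2 * g + 1 + 1)) (k : ℕ) :
    Cong α β q v k ↔ k ≤ rr α β v q := by
  have h1 := mem_pow_mul (v := v) (mul_ne_zero (ai_ne h q.1) (ai_ne h q.2)) (h q hq)
    (mn_mem q) k
  have h2 := rr_add h v hq
  rw [mi_mul (ai_ne h _) (ai_ne h _)] at h1
  unfold Cong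
  rw [h1, h2]
  unfold ca
  omega

/-- local division by the common divisor of the coordinates -/
theorem exists_div (v : HeightOneSpectrum (𝓞 K)) (k : ℕ) : ∃ ρ σ : 𝓞 K, ρ ≠ 0 ∧ mp v ρ = k ∧
    σ ∉ v.asIdeal ∧ ∀ x ∈ v.asIdeal ^ k, ρ ∣ σ * x := by
  have h1 : v.asIdeal ^ (k + 1) < v.asIdeal ^ k :=
    Ideal.pow_succ_lt_pow (P_prime := v.isPrime) v.ne_bot k
  obtain ⟨ρ, hρ, hρ'⟩ := SetLike.exists_of_lt h1
  have hρ0 : ρ ≠ 0 := by
    rintro rfl
    exact hρ' (Ideal.zero_mem _)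
  obtain ⟨J, hJ⟩ := Ideal.dvd_iff_le.2 ((Ideal.span_singleton_le_iff_mem _).2 hρ)
  have hJv : ¬ J ≤ v.asIdeal := by
    intro hle
    apply hρ'
    rw [← Ideal.span_singleton_le_iff_mem, hJ, pow_succ]
    exact Ideal.mul_mono_right hle
  obtain ⟨σ, hσ, hσv⟩ := SetLike.not_le_iff_exists.1 hJv
  refine ⟨ρ, σ, hρ0, ?_, hσv, fun x hx => ?_⟩
  · have h2 := (le_mp (v := v) hρ0 k).1 hρ
    have h3 := (le_mp (v := v) hρ0 (k + 1)).not.1 hρ'
    omega
  · rw [← Ideal.mem_span_singleton, hJ, mul_comm σ x]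
    exact Ideal.mul_mem_mul hx hσ

theorem mp_zero {v : HeightOneSpectrum (𝓞 K)} {x : 𝓞 K} (hx : x ∉ v.asIdeal) : mp v x = 0 := by
  have hx0 : x ≠ 0 := by
    rintro rfl
    exact hx (Ideal.zero_mem _)
  by_contra hne
  exact hx ((mem_iff_mp hx0).2 (by omega))

/-- coordinates of the points without a common divisor at `v` -/
theorem loc_rep (h : Dn α β) (v : HeightOneSpectrum (𝓞 K)) :
    ∃ (α' β' : Fin (2 * g + 1 + 1) → 𝓞 K) (r : Fin (2 * g + 1 + 1) → K), (∀ i, r i ≠ 0) ∧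
      (∀ i, (α' i : K) = r i * α i) ∧ (∀ i, (β' i : K) = r i * β i) ∧ Dn α' β' ∧
      ∀ q ∈ prs (2 * g + 1 + 1), mp v (mn α' β' q) = rr α β v q := by
  choose ρ σ hρ0 hρ hσ hdiv using fun i : Fin (2 * g + 1 + 1) => exists_div v (ca α β v i)
  have hmem (i : Fin (2 * g + 1 + 1)) : ai α β i ≤ v.asIdeal ^ ca α β v i :=
    Ideal.dvd_iff_le.1 ((le_mi (ai_ne h i) _).2 le_rfl)
  choose α' hα' using fun i => hdiv i (α i) (hmem i (Ideal.subset_span (by simp)))
  choose β' hβ' using fun i => hdiv i (β i) (hmem i (Ideal.subset_span (by simp)))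
  have hσ0 (i : Fin (2 * g + 1 + 1)) : σ i ≠ 0 := fun h0 => hσ i (by
    rw [h0]
    exact Ideal.zero_mem _)
  have hρK (i : Fin (2 * g + 1 + 1)) : (ρ i : K) ≠ 0 := by exact_mod_cast hρ0 i
  have hσK (i : Fin (2 * g + 1 + 1)) : (σ i : K) ≠ 0 := by exact_mod_cast hσ0 i
  have hmn (q : Fin (2 * g + 1 + 1) × Fin (2 * g + 1 + 1)) :
      (ρ q.1 * ρ q.2) * mn α' β' q = (σ q.1 * σ q.2) * mn α β q := by
    unfold mn
    linear_combination (-(σ q.2 * β q.2)) * hα' q.1 - (ρ q.1 * α' q.1) * hβ' q.2 +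
      (σ q.2 * α q.2) * hβ' q.1 + (ρ q.1 * β' q.1) * hα' q.2
  have hDn : Dn α' β' := fun q hq h0 => by
    have h1 := hmn q
    rw [h0, mul_zero] at h1
    exact mul_ne_zero (mul_ne_zero (hσ0 _) (hσ0 _)) (h q hq) h1.symm
  refine ⟨α', β', fun i => (σ i : K) / ρ i, fun i => div_ne_zero (hσK i) (hρK i), fun i => ?_,
    fun i => ?_, hDn, fun q hq => ?_⟩
  · have h1 : (σ i : K) * α i = ρ i * α' i := by exact_mod_cast hα' i
    have := hρK i
    field_simp
    linear_combination -h1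
  · have h1 : (σ i : K) * β i = ρ i * β' i := by exact_mod_cast hβ' i
    have := hρK i
    field_simp
    linear_combination -h1
  · have h1 := congrArg (mp v) (hmn q)
    rw [mp_mul (mul_ne_zero (hρ0 _) (hρ0 _)) (hDn q hq), mp_mul (hρ0 _) (hρ0 _),
      mp_mul (mul_ne_zero (hσ0 _) (hσ0 _)) (h q hq), mp_mul (hσ0 _) (hσ0 _), hρ, hρ,
      mp_zero (hσ _), mp_zero (hσ _), rr_add h v hq] at h1
    omega

/-- the coordinates `b` do not depend on the coordinates of the points -/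
theorem coord_scale {α β α' β' : Fin (2 * g + 1 + 1) → K} {r : Fin (2 * g + 1 + 1) → K}
    (hr : ∀ i, r i ≠ 0) (h1 : ∀ i, α' i = r i * α i) (h2 : ∀ i, β' i = r i * β i)
    {b : Fin (2 * g + 1) → K} (hb : Coord α β b) : Coord α' β' b := by
  obtain ⟨c, hc, h⟩ := hb
  refine ⟨c * r (Fin.last _) ^ 2, mul_ne_zero hc (pow_ne_zero 2 (hr _)), fun i j => ?_⟩
  have h3 (i j : Fin (2 * g + 1 + 1)) : mn α' β' (i, j) = r i * r j * mn α β (i, j) := by
    unfold mn
    simp only [h1, h2]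
    ring
  rw [h3, h3, h3]
  linear_combination (r i.castSucc * r j.castSucc * r (Fin.last _) ^ 2) * h i j

/-- the sum of the reduced multiplicities -/
noncomputable def ms (α β : Fin (2 * g + 1 + 1) → 𝓞 K) (v : HeightOneSpectrum (𝓞 K)) : ℕ :=
  ∑ q ∈ prs (2 * g + 1 + 1), rr α β v q

/-- the multiplicity of a prime in the coordinates -/
noncomputable def As (α β : Fin (2 * g + 1 + 1) → 𝓞 K) (v : HeightOneSpectrum (𝓞 K)) : ℕ :=
  ∑ i, ca α β v i

/-- the sum of the weights of the separated pairs -/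
theorem add_Np {n : ℕ} (S : Finset (Fin n)) {k : ℕ} (h1 : S.card = k) (h2 : Sᶜ.card = k)
    (c : Fin n → ℕ) : ∑ q ∈ Np S, (c q.1 + c q.2) = k * ∑ i, c i := by
  have h3 := weight_Np S h1 h2 fun i => (2 : ℝ) ^ c i
  simp only [← pow_add, prod_pow_eq_pow_sum] at h3
  rw [← pow_mul] at h3
  have h4 := pow_right_injective₀ (by norm_num : (0 : ℝ) < 2) (by norm_num) h3
  rw [h4, mul_comm]

theorem add_all {n : ℕ} (c : Fin n → ℕ) :
    ∑ q ∈ prs n, (c q.1 + c q.2) = (n - 1) * ∑ i, c i := by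
  have h3 := weight_all fun i : Fin n => (2 : ℝ) ^ c i
  simp only [← pow_add, prod_pow_eq_pow_sum] at h3
  rw [← pow_mul] at h3
  have h4 := pow_right_injective₀ (by norm_num : (0 : ℝ) < 2) (by norm_num) h3
  rw [h4, mul_comm]

theorem add_Gp {S : Finset (Fin (2 * g + 1))} (hS : S ∈ Sp g) (c : Fin (2 * g + 1 + 1) → ℕ) :
    ∑ q ∈ Gp (em S), (c q.1 + c q.2) = g * ∑ i, c i := by
  have h1 := add_Np (em S) (card_em hS) (card_emc hS) c
  have h2 := add_all c
  have h3 : ∑ q ∈ Gp (em S), (c q.1 + c q.2) + ∑ q ∈ Np (em S), (c q.1 + c q.2) =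
      ∑ q ∈ prs (2 * g + 1 + 1), (c q.1 + c q.2) := sum_filter_add_sum_filter_not _ _ _
  rw [h1, h2, Nat.add_sub_cancel] at h3
  nlinarith

theorem mp_Pn (h : Dn α β) (v : HeightOneSpectrum (𝓞 K)) :
    mp v (Pn α β) = ms α β v + (2 * g + 1) * As α β v := by
  have h1 := add_all (n := 2 * g + 1 + 1) (ca α β v)
  rw [Nat.add_sub_cancel] at h1
  unfold Pn ms As
  rw [mp_prod _ _ fun q hq => h q hq, ← h1, ← sum_add_distrib]
  exact sum_congr rfl fun q hq => rr_add h v hq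

theorem mp_W (h : Dn α β) (v : HeightOneSpectrum (𝓞 K)) {S : Finset (Fin (2 * g + 1))}
    (hS : S ∈ Sp g) : mp v (EV.W α β S) = ∑ q ∈ Gp (em S), rr α β v q + g * As α β v := by
  unfold EV.W As
  rw [mp_prod _ _ fun q hq => h q (Gp_sub _ hq), ← add_Gp hS, ← sum_add_distrib]
  exact sum_congr rfl fun q hq => rr_add h v (Gp_sub _ hq)

end Pool.Agent.H433.EW
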