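import Pool.Agent.H433.EW.Ext
import Pool.Agent.H433.HD.TorMain

/-!
The lower bound over a tower.
-/

set_option autoImplicit false
set_option linter.unusedSectionVars false
set_option linter.unusedVariables false

open NumberField IsDedekindDomain Finset Filter Topology

namespace Pool.Agent.H433.EW

open Pool.Agent.H433.AC (prs mp le_mp mem_iff_mp nv log_nv_pos finite_mem Nm)
open Pool.Agent.H433.HG (mem_prs Sp alg_inj alg_co J J_ne J_le comap_eq Orbit Apart dl Zero hhat cg)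
open Pool.Agent.H433.EV (mn Dn Pn Pn_ne upn mn_up dn_up Pn_up bd_up coord_up Vf
  mem_Vf mem_Vf' Bd Coord coord_inj)
open Pool.Agent.H433.GT (mi le_mi mp_mul mp_prod log_absNorm log_Nm)
open Pool.Agent.H433.HD (sz Over part over_iff exists_between alg_alg al_hhat Sqs cst_le)

theorem low {g : ℕ} (hg : 1 ≤ g) {K L E : Type} [Field K] [NumberField K] [Field L]
    [NumberField L] [Field E] [NumberField E] [Algebra K L] [Algebra L E] [Algebra K E]
    [IsScalarTower K L E] {α β : Fin (2 * g + 1 + 1) → 𝓞 L} (h : Dn α β) {D : 𝓞 K}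
    {c : Ideal (𝓞 K)} (hc : c ≠ ⊥) (hD : Disc D c α β)
    {m : Fin (2 * g + 1 + 1) → InfinitePlace L → ℝ} (hM : Bd α β m)
    {b : Fin (2 * g + 1) → L} (hb : Coord (fun i => (α i : L)) (fun i => (β i : L)) b)
    {T : Finset (HeightOneSpectrum (𝓞 K))} (hT : ∀ v ∈ T, Node α β v)
    (hcT : ∀ v ∈ T, ¬ c ≤ v.asIdeal)
    {X : ℕ → Finset (Fin (2 * g + 1)) → E} (hX : Orbit (fun i => algebraMap L E (b i)) X)
    {R : Finset (HeightOneSpectrum (𝓞 E))}
    (hI : ∀ v ∈ T, ∀ (u : HeightOneSpectrum (𝓞 L)) (w : HeightOneSpectrum (𝓞 E)), Over v u →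
      Over u w → w ∉ R → Sqs (X 0) ∧ Thin (upn E α) (upn E β) w ∨
        Ident (upn E α) (upn E β) (X 0) w)
    {l : List (Fin (2 * g + 1) × Fin (2 * g + 1))} {B : Finset (Fin (2 * g + 1))} (hl : l ≠ [])
    (hB : Apart l B) (hd : dl (X 0) l B ≠ 0)
    {S₁ : Finset (HeightOneSpectrum (𝓞 E))} (hS₁ : ∀ v ∈ S₁, Zero (X 0) v) :
    Module.finrank L E * (3 / 4 * (Module.finrank K L * part T D -
      2 * (2 * g + 1) * th α β m + 4 / 3 * hpl α β m l) - 4 * g * Module.finrank ℚ L) +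
      ∑ v ∈ S₁, Real.log (nv v) -
      1 / 2 * ∑ w ∈ R, (ms (upn E α) (upn E β) w : ℝ) * Real.log (nv w) ≤ hhat X := by
  have hE := dn_up (L := E) h
  have hME := bd_up (L := E) hM
  have hbE := coord_up (L := E) hb
  obtain ⟨Q, hQ⟩ : ∃ Q : HeightOneSpectrum (𝓞 E) → Prop, Q = fun w => ∃ v ∈ T, J E v ≤ w.asIdeal :=
    ⟨_, rfl⟩
  obtain ⟨P, hP⟩ : ∃ P : HeightOneSpectrum (𝓞 E) → Prop, P = fun w => Q w ∧ w ∉ R := ⟨_, rfl⟩
  have h1 := al_low hE hME hbE (P := P) (y := X 0) (hX 0).2.1 (fun w hw => by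
    rw [hP, hQ] at hw
    obtain ⟨⟨v, hv, hvw⟩, hwR⟩ := hw
    obtain ⟨u, hu, huw⟩ := exists_between L hvw
    have hs := sng_of_over h (hT v hv) hvw
    rcases hI v hv u w hu huw hwR with ⟨h1, h2⟩ | h1
    · exact Or.inl ⟨smp_of_thin hE hs h2, h1⟩
    · exact Or.inr ⟨hs, h1⟩) hl hB hd hS₁
  have h2 := al_hhat (coord_inj hE.co hbE) hX
  have h3 := hm_up hE hME hbE
  have h4 := part_le (E := E) h hc hD hT hcT
  rw [← hQ] at h4
  have h5 := exs_R hE (P := P) (Q := Q) R fun w h1 h2 => by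
    rw [hP]
    exact ⟨h1, h2⟩
  have h6 := exs_anti hE (P := Q) (Q := Sng (upn E α) (upn E β)) fun w hw => by
    rw [hQ] at hw
    obtain ⟨v, hv, hvw⟩ := hw
    exact sng_of_over h (hT v hv) hvw
  have e6 : (Module.finrank ℚ E : ℝ) = Module.finrank L E * Module.finrank ℚ L := by
    rw [mul_comm]
    exact_mod_cast (Module.finrank_mul_finrank ℚ L E).symm
  have eKE : (Module.finrank K E : ℝ) = Module.finrank L E * Module.finrank K L := by
    rw [mul_comm]
    exact_mod_cast (Module.finrank_mul_finrank K L E).symm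
  rw [th_up, hpl_up] at h1
  rw [th_up] at h3
  rw [e6] at h1 h2
  rw [eKE] at h4
  have hk1 : (l.length : ℝ) ≤ g + 1 := by
    have := hB.2.2
    have h2 : l.length ≤ g + 1 := by omega
    exact_mod_cast h2
  set n : ℝ := (Module.finrank L E : ℝ) with hn
  set d : ℝ := (Module.finrank ℚ L : ℝ) with hd
  set kk : ℝ := (l.length : ℝ) with hkk
  have hm0 : 0 ≤ n := Nat.cast_nonneg _
  have hd0 : 0 ≤ d := Nat.cast_nonneg _
  have hl4 : 0 ≤ Real.log 4 := Real.log_nonneg (by norm_num)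
  have e8 : kk * (n * d * Real.log 4) ≤ (g + 1) * (n * d * Real.log 4) :=
    mul_le_mul_of_nonneg_right hk1 (by positivity)
  have e8' : (n * d) * ((g + 1) * Real.log 4 + 2 * cg g) ≤ (n * d) * (8 * g) :=
    mul_le_mul_of_nonneg_left (cst_le hg) (by positivity)
  linarith

end Pool.Agent.H433.EW
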