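import Pool.Agent.H433.EW.Low
import Pool.Agent.H433.EW.Diff

/-!
The main theorems.
-/

set_option autoImplicit false
set_option linter.unusedSectionVars false
set_option linter.unusedVariables false

open NumberField IsDedekindDomain Finset Filter Topology

namespace Pool.Agent.H433.EW

open Pool.Agent.H433.AC (prs mp le_mp mem_iff_mp nv log_nv_pos finite_mem Nm)
open Pool.Agent.H433.HG (mem_prs Sp alg_inj alg_co J J_ne J_le comap_eq Orbit Apart dl Zero hhat cg
  Origin ht rs mi_different hhat_spec exists_dl apart_nodup)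
open Pool.Agent.H433.EV (mn mn_co mn_swap Dn Pn Pn_ne upn mn_up dn_up Pn_up bd_up coord_up Vf
  mem_Vf mem_Vf' Bd Coord coord_inj mn_self)
open Pool.Agent.H433.GT (mi le_mi mp_mul mp_prod log_absNorm log_Nm)
open Pool.Agent.H433.HD (sz Over part over_iff exists_between alg_alg al_hhat Sqs cst_le Once once
  ldd Torsion hhat_torsion hhat_shift orbit_shift sqs)

/-- the coordinates exist -/
theorem exists_coord {g : ℕ} {K : Type} [Field K] {α β : Fin (2 * g + 1 + 1) → K}
    (h : ∀ q ∈ prs (2 * g + 1 + 1), mn α β q ≠ 0) : ∃ b, Coord α β b := by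
  have h0 (i : Fin (2 * g + 1)) : mn α β (i.castSucc, Fin.last _) ≠ 0 :=
    h _ (mem_prs.2 (Fin.castSucc_lt_last i))
  by_cases ha : α (Fin.last _) = 0
  · have hb : β (Fin.last (2 * g + 1)) ≠ 0 := by
      intro hb
      apply h0 0
      unfold mn
      simp [ha, hb]
    refine ⟨fun i => β i.castSucc / mn α β (i.castSucc, Fin.last _), -β (Fin.last _),
      neg_ne_zero.2 hb, fun i j => ?_⟩
    have h1 := h0 i
    have h2 := h0 j
    rw [div_sub_div _ _ h1 h2, div_mul_cancel₀ _ (mul_ne_zero h1 h2)]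
    unfold mn
    ring
  · refine ⟨fun i => α i.castSucc / mn α β (i.castSucc, Fin.last _), -α (Fin.last _),
      neg_ne_zero.2 ha, fun i j => ?_⟩
    have h1 := h0 i
    have h2 := h0 j
    rw [div_sub_div _ _ h1 h2, div_mul_cancel₀ _ (mul_ne_zero h1 h2)]
    unfold mn
    ring

variable {g : ℕ}

theorem hpl_one {K : Type} [Field K] [NumberField K] {α β : Fin (2 * g + 1 + 1) → 𝓞 K}
    {m : Fin (2 * g + 1 + 1) → InfinitePlace K → ℝ} (p : Fin (2 * g + 1) × Fin (2 * g + 1)) :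
    hpl α β m [p] = hp α β m p.1.castSucc + hp α β m p.2.castSucc := by
  unfold hpl
  simp

/-- The lower bound for the points in the identity component, over a tower. -/
theorem low_id (hg : 1 ≤ g) {K L E : Type} [Field K] [NumberField K] [Field L]
    [NumberField L] [Field E] [NumberField E] [Algebra K L] [Algebra L E]
    {α β : Fin (2 * g + 1 + 1) → 𝓞 L} (h : Dn α β) {D : 𝓞 K}
    {c : Ideal (𝓞 K)} (hc : c ≠ ⊥) (hD : Disc D c α β)
    {m : Fin (2 * g + 1 + 1) → InfinitePlace L → ℝ} (hM : Bd α β m)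
    {b : Fin (2 * g + 1) → L} (hb : Coord (fun i => (α i : L)) (fun i => (β i : L)) b)
    {T : Finset (HeightOneSpectrum (𝓞 K))} (hT : ∀ v ∈ T, Node α β v)
    (hcT : ∀ v ∈ T, ¬ c ≤ v.asIdeal)
    {X : ℕ → Finset (Fin (2 * g + 1)) → E} (hX : Orbit (fun i => algebraMap L E (b i)) X)
    {n : ℕ} {R : Finset (HeightOneSpectrum (𝓞 E))}
    (hI : ∀ v ∈ T, ∀ (u : HeightOneSpectrum (𝓞 L)) (w : HeightOneSpectrum (𝓞 E)), Over v u →
      Over u w → w ∉ R → 1 ≤ n ∧ Thin (upn E α) (upn E β) w ∨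
        Ident (upn E α) (upn E β) (X n) w)
    {l : List (Fin (2 * g + 1) × Fin (2 * g + 1))} {B : Finset (Fin (2 * g + 1))} (hl : l ≠ [])
    (hB : Apart l B) (hd : dl (X n) l B ≠ 0)
    {S₁ : Finset (HeightOneSpectrum (𝓞 E))} (hS₁ : ∀ v ∈ S₁, Zero (X n) v) :
    Module.finrank L E * (3 / 4 * (Module.finrank K L * part T D -
      2 * (2 * g + 1) * th α β m + 4 / 3 * hpl α β m l) - 4 * g * Module.finrank ℚ L) +
      ∑ v ∈ S₁, Real.log (nv v) -
      1 / 2 * ∑ w ∈ R, (ms (upn E α) (upn E β) w : ℝ) * Real.log (nv w) ≤ 4 ^ n * hhat X := by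
  let _ : Algebra K E := ((algebraMap L E).comp (algebraMap K L)).toAlgebra
  have : IsScalarTower K L E := IsScalarTower.of_algebraMap_eq fun _ => rfl
  have hE := dn_up (L := E) h
  have hinj := coord_inj hE.co (coord_up (L := E) hb)
  rw [← hhat_shift hinj hX n]
  refine low hg h hc hD hM hb hT hcT (orbit_shift hX n) (fun v hv u w hu hw hwR => ?_) hl hB hd hS₁
  rcases hI v hv u w hu hw hwR with ⟨h1, h2⟩ | h1
  · exact Or.inl ⟨sqs hX h1, h2⟩
  · exact Or.inr h1

/-- the loss in terms of the discriminant -/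
theorem loss_le {K L E : Type} [Field K] [NumberField K] [Field L]
    [NumberField L] [Field E] [NumberField E] [Algebra K L] [Algebra L E]
    {α β : Fin (2 * g + 1 + 1) → 𝓞 L} (h : Dn α β) {D : 𝓞 K}
    {c : Ideal (𝓞 K)} (hc : c ≠ ⊥) (hD : Disc D c α β) (R : Finset (HeightOneSpectrum (𝓞 E))) :
    1 / 2 * ∑ w ∈ R, (ms (upn E α) (upn E β) w : ℝ) * Real.log (nv w) ≤
      1 / 4 * part R (algebraMap (𝓞 L) (𝓞 E) (algebraMap (𝓞 K) (𝓞 L) D)) := by
  classical
  let _ : Algebra K E := ((algebraMap L E).comp (algebraMap K L)).toAlgebra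
  have : IsScalarTower K L E := IsScalarTower.of_algebraMap_eq fun _ => rfl
  have hE := dn_up (L := E) h
  have hD0 := disc_ne h hc hD
  have hD1 : algebraMap (𝓞 K) (𝓞 L) D ≠ 0 := (map_ne_zero_iff _ alg_inj).2 hD0
  have e1 : part R (algebraMap (𝓞 L) (𝓞 E) (algebraMap (𝓞 K) (𝓞 L) D)) =
      ∑ w ∈ R, (mp w (algebraMap (𝓞 L) (𝓞 E) (algebraMap (𝓞 K) (𝓞 L) D)) : ℝ) *
        Real.log (nv w) := rfl
  rw [e1, mul_sum, mul_sum]
  refine sum_le_sum fun w _ => ?_
  have hlog := log_nv_pos w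
  -- the primes below
  have h1 : ∃ u : HeightOneSpectrum (𝓞 L), J E u ≤ w.asIdeal ∧
      (∃ v : HeightOneSpectrum (𝓞 K), J L v ≤ u.asIdeal) := by
    have hb (F G : Type) [Field F] [NumberField F] [Field G] [NumberField G] [Algebra F G]
        (w : HeightOneSpectrum (𝓞 G)) :
        ∃ u : HeightOneSpectrum (𝓞 F), J G u ≤ w.asIdeal := by
      refine ⟨⟨w.asIdeal.comap (algebraMap (𝓞 F) (𝓞 G)), Ideal.comap_isPrime _ _, fun h0 => ?_⟩,
        ?_⟩
      · have h1 := Ideal.comap_ne_bot_of_integral_mem (R := 𝓞 F) (S := 𝓞 G)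
          (I := w.asIdeal) (x := (Submodule.exists_mem_ne_zero_of_ne_bot w.ne_bot).choose)
          (Submodule.exists_mem_ne_zero_of_ne_bot w.ne_bot).choose_spec.2
          (Submodule.exists_mem_ne_zero_of_ne_bot w.ne_bot).choose_spec.1
          (Algebra.IsIntegral.isIntegral _)
        exact h1 h0
      · unfold J
        exact Ideal.map_comap_le
    obtain ⟨u, hu⟩ := hb L E w
    obtain ⟨v, hv⟩ := hb K L u
    exact ⟨u, hu, v, hv⟩
  obtain ⟨u, hu, v, hv⟩ := h1
  have h2 := disc_mi h hc hD hv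
  have h3 := mp_map (L := E) hD1 hu
  have h4 := mp_map (L := L) hD0 hv
  have h5 := ms_up h hu
  have h6 : 2 * ms (upn E α) (upn E β) w ≤
      mp w (algebraMap (𝓞 L) (𝓞 E) (algebraMap (𝓞 K) (𝓞 L) D)) := by
    rw [h3, h4, h5, h2]
    nlinarith [Nat.zero_le (mi w (J E u) * (2 * (2 * g + 1) * (mi u (J L v) * mi v c)))]
  have h7 : (2 * ms (upn E α) (upn E β) w : ℝ) ≤
      mp w (algebraMap (𝓞 L) (𝓞 E) (algebraMap (𝓞 K) (𝓞 L) D)) := by exact_mod_cast h6
  nlinarith [mul_le_mul_of_nonneg_right h7 hlog.le]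


theorem bd_of {K : Type} [Field K] [NumberField K] {α β : Fin (2 * g + 1 + 1) → 𝓞 K}
    {m : Fin (2 * g + 1 + 1) → InfinitePlace K → ℝ} (hm0 : ∀ i w, 0 < m i w)
    (hm : ∀ (w : InfinitePlace K) (i j : Fin (2 * g + 1 + 1)), i < j →
      w ((mn α β (i, j) : 𝓞 K) : K) ≤ m i w * m j w) : Bd α β m :=
  ⟨hm0, fun w q hq => hm w q.1 q.2 (mem_prs.1 hq)⟩

/-- The lower bound for the points in the identity component, and the points of finite order. -/
theorem main_a (g : ℕ) (hg : 1 ≤ g) (K L : Type) [Field K] [NumberField K] [Field L]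
    [NumberField L] [Algebra K L] (α β : Fin (2 * g + 1 + 1) → 𝓞 L)
    (h0 : ∀ i j : Fin (2 * g + 1 + 1), i < j → mn α β (i, j) ≠ 0) (D : 𝓞 K) (c : Ideal (𝓞 K))
    (hc : c ≠ ⊥) (hD : Disc D c α β) (m : Fin (2 * g + 1 + 1) → InfinitePlace L → ℝ)
    (hm0 : ∀ i w, 0 < m i w)
    (hm : ∀ (w : InfinitePlace L) (i j : Fin (2 * g + 1 + 1)), i < j →
      w ((mn α β (i, j) : 𝓞 L) : L) ≤ m i w * m j w)
    (T : Finset (HeightOneSpectrum (𝓞 K))) (hT : ∀ v ∈ T, Node α β v ∧ ¬ c ≤ v.asIdeal) :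
    (∃ b, Coord (fun i => (α i : L)) (fun i => (β i : L)) b) ∧
    ∀ b : Fin (2 * g + 1) → L, Coord (fun i => (α i : L)) (fun i => (β i : L)) b →
      Function.Injective b ∧
      ∀ (E : Type) [Field E] [NumberField E] [Algebra L E],
        ∀ X : ℕ → Finset (Fin (2 * g + 1)) → E, Orbit (fun i => algebraMap L E (b i)) X →
          Tendsto (fun n : ℕ => ht (X n) / 4 ^ n) atTop (𝓝 (hhat X)) ∧
          (Torsion X → hhat X = 0) ∧
          ∀ (n : ℕ) (R : Finset (HeightOneSpectrum (𝓞 E))),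
            (∀ v ∈ T, ∀ (u : HeightOneSpectrum (𝓞 L)) (w : HeightOneSpectrum (𝓞 E)), Over v u →
              Over u w → w ∉ R → (1 ≤ n ∧ Thin (upn E α) (upn E β) w) ∨
                Ident (upn E α) (upn E β) (X n) w) →
            (Torsion X → (∀ i j : Fin (2 * g + 1), i < j →
              1 / 4 * part R (algebraMap (𝓞 L) (𝓞 E) (algebraMap (𝓞 K) (𝓞 L) D)) <
              Module.finrank L E * (3 / 4 * (Module.finrank K L * part T D -
                2 * (2 * g + 1) * ∑ k, hp α β m k +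
                4 / 3 * (hp α β m i.castSucc + hp α β m j.castSucc)) -
                4 * g * Module.finrank ℚ L)) → Origin (X n)) ∧
            (Origin (X n) ∨ ∃ i j : Fin (2 * g + 1), i < j ∧
              ∀ S : Finset (HeightOneSpectrum (𝓞 E)), (∀ v ∈ S, Zero (X n) v) →
              Module.finrank L E * (3 / 4 * (Module.finrank K L * part T D -
                2 * (2 * g + 1) * ∑ k, hp α β m k +
                4 / 3 * (hp α β m i.castSucc + hp α β m j.castSucc)) -
                4 * g * Module.finrank ℚ L) + ∑ v ∈ S, Real.log (nv v) -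
                1 / 4 * part R (algebraMap (𝓞 L) (𝓞 E) (algebraMap (𝓞 K) (𝓞 L) D)) ≤
                4 ^ n * hhat X) ∧
            ∀ l B, l ≠ [] → Apart l B → dl (X n) l B ≠ 0 →
              ∀ S : Finset (HeightOneSpectrum (𝓞 E)), (∀ v ∈ S, Zero (X n) v) →
              Module.finrank L E * (3 / 4 * (Module.finrank K L * part T D -
                2 * (2 * g + 1) * ∑ k, hp α β m k + 4 / 3 * hpl α β m l) -
                4 * g * Module.finrank ℚ L) + ∑ v ∈ S, Real.log (nv v) -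
                1 / 4 * part R (algebraMap (𝓞 L) (𝓞 E) (algebraMap (𝓞 K) (𝓞 L) D)) ≤
                4 ^ n * hhat X := by
  have h : Dn α β := fun q hq => h0 q.1 q.2 (mem_prs.1 hq)
  have hM := bd_of hm0 hm
  refine ⟨exists_coord h.co, fun b hb => ?_⟩
  have hinj := coord_inj h.co hb
  refine ⟨hinj, fun E _ _ _ X hX => ?_⟩
  have hEinj : Function.Injective fun i => algebraMap L E (b i) :=
    (algebraMap L E).injective.comp hinj
  refine ⟨(hhat_spec hEinj hX).1, hhat_torsion hEinj hX, fun n R hI => ?_⟩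
  have key (l : List (Fin (2 * g + 1) × Fin (2 * g + 1))) (B : Finset (Fin (2 * g + 1)))
      (hl : l ≠ []) (hB : Apart l B) (hdl' : dl (X n) l B ≠ 0)
      (S : Finset (HeightOneSpectrum (𝓞 E))) (hS : ∀ v ∈ S, Zero (X n) v) :
      Module.finrank L E * (3 / 4 * (Module.finrank K L * part T D -
        2 * (2 * g + 1) * ∑ k, hp α β m k + 4 / 3 * hpl α β m l) -
        4 * g * Module.finrank ℚ L) + ∑ v ∈ S, Real.log (nv v) -
        1 / 4 * part R (algebraMap (𝓞 L) (𝓞 E) (algebraMap (𝓞 K) (𝓞 L) D)) ≤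
        4 ^ n * hhat X := by
    have h1 := low_id hg h hc hD hM hb (fun v hv => (hT v hv).1) (fun v hv => (hT v hv).2) hX hI
      hl hB hdl' hS
    have h2 := loss_le (E := E) h hc hD R
    have h3 : th α β m = ∑ k, hp α β m k := rfl
    rw [h3] at h1
    linarith
  have first : Origin (X n) ∨ ∃ i j : Fin (2 * g + 1), i < j ∧
      ∀ S : Finset (HeightOneSpectrum (𝓞 E)), (∀ v ∈ S, Zero (X n) v) →
      Module.finrank L E * (3 / 4 * (Module.finrank K L * part T D -
        2 * (2 * g + 1) * ∑ k, hp α β m k +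
        4 / 3 * (hp α β m i.castSucc + hp α β m j.castSucc)) -
        4 * g * Module.finrank ℚ L) + ∑ v ∈ S, Real.log (nv v) -
        1 / 4 * part R (algebraMap (𝓞 L) (𝓞 E) (algebraMap (𝓞 K) (𝓞 L) D)) ≤
        4 ^ n * hhat X := by
    by_cases hO : Origin (X n)
    · exact Or.inl hO
    obtain ⟨l, B, hB, hd, hl⟩ := exists_dl hO
    obtain ⟨p, rfl⟩ := List.length_eq_one_iff.1 hl
    refine Or.inr ⟨p.1, p.2, (hB.2.1 p (List.mem_singleton_self p)).1, fun S hS => ?_⟩
    have h1 := key [p] B (List.cons_ne_nil _ _) hB hd S hS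
    rwa [hpl_one] at h1
  refine ⟨fun hTor hlt => ?_, first, key⟩
  rcases first with hO | ⟨i, j, hij, h1⟩
  · exact hO
  · exfalso
    have h2 := h1 ∅ (by simp)
    have h3 := hlt i j hij
    rw [hhat_torsion hEinj hX hTor, sum_empty, mul_zero] at h2
    linarith

variable (L : Type) [Field L] [NumberField L] in
/-- a prime over a prime -/
theorem exists_over {K : Type} [Field K] [NumberField K] [Algebra K L]
    (v : HeightOneSpectrum (𝓞 K)) : ∃ u : HeightOneSpectrum (𝓞 L), J L v ≤ u.asIdeal := by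
  have := v.isMaximal
  obtain ⟨Q, hQ, hQv⟩ := Ideal.exists_maximal_ideal_liesOver_of_isIntegral (S := 𝓞 L) v.asIdeal
  have hle : J L v ≤ Q := by
    unfold J
    rw [Ideal.map_le_iff_le_comap]
    exact hQv.over.le
  refine ⟨⟨Q, hQ.isPrime, fun h0 => ?_⟩, hle⟩
  rw [h0, le_bot_iff] at hle
  exact J_ne v hle

/-- The lower bound for all the points, in terms of the primes which divide the discriminant exactly
once. -/
theorem main_b (g : ℕ) (hg : 1 ≤ g) (K L : Type) [Field K] [NumberField K] [Field L]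
    [NumberField L] [Algebra K L] [IsGalois K L] (α β : Fin (2 * g + 1 + 1) → 𝓞 L)
    (h0 : ∀ i j : Fin (2 * g + 1 + 1), i < j → mn α β (i, j) ≠ 0) (hP : Perm K α β) (D : 𝓞 K)
    (c : Ideal (𝓞 K)) (hc : c ≠ ⊥) (hD : Disc D c α β)
    (m : Fin (2 * g + 1 + 1) → InfinitePlace L → ℝ) (hm0 : ∀ i w, 0 < m i w)
    (hm : ∀ (w : InfinitePlace L) (i j : Fin (2 * g + 1 + 1)), i < j →
      w ((mn α β (i, j) : 𝓞 L) : L) ≤ m i w * m j w) :
    (∃ b, Coord (fun i => (α i : L)) (fun i => (β i : L)) b) ∧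
    ∀ b : Fin (2 * g + 1) → L, Coord (fun i => (α i : L)) (fun i => (β i : L)) b →
      Function.Injective b ∧
      ht (fun S => (rs b S)⁻¹) ≤ g * ∑ k, hp α β m k ∧
      ∀ (E : Type) [Field E] [NumberField E] [Algebra L E],
        ∀ X : ℕ → Finset (Fin (2 * g + 1)) → E, Orbit (fun i => algebraMap L E (b i)) X →
          Tendsto (fun n : ℕ => ht (X n) / 4 ^ n) atTop (𝓝 (hhat X)) ∧
          (Origin (X 1) ∨ ∃ i j : Fin (2 * g + 1), i < j ∧
            ∀ S : Finset (HeightOneSpectrum (𝓞 E)), (∀ v ∈ S, Zero (X 1) v) →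
            Module.finrank L E * (3 / 4 * (Module.finrank K L * once D -
              2 * (2 * g + 1) * ∑ k, hp α β m k +
              4 / 3 * (hp α β m i.castSucc + hp α β m j.castSucc)) -
              4 * g * Module.finrank ℚ L) + ∑ v ∈ S, Real.log (nv v) -
              ldd L E (algebraMap (𝓞 L) (𝓞 E) (algebraMap (𝓞 K) (𝓞 L) D)) ≤
              4 * hhat X) ∧
          ∀ l B, l ≠ [] → Apart l B → dl (X 1) l B ≠ 0 →
            ∀ S : Finset (HeightOneSpectrum (𝓞 E)), (∀ v ∈ S, Zero (X 1) v) →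
            Module.finrank L E * (3 / 4 * (Module.finrank K L * once D -
              2 * (2 * g + 1) * ∑ k, hp α β m k + 4 / 3 * hpl α β m l) -
              4 * g * Module.finrank ℚ L) + ∑ v ∈ S, Real.log (nv v) -
              ldd L E (algebraMap (𝓞 L) (𝓞 E) (algebraMap (𝓞 K) (𝓞 L) D)) ≤
              4 * hhat X := by
  classical
  have h : Dn α β := fun q hq => h0 q.1 q.2 (mem_prs.1 hq)
  have hM := bd_of hm0 hm
  refine ⟨exists_coord h.co, fun b hb => ?_⟩
  have hinj := coord_inj h.co hb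
  refine ⟨hinj, hm_up h hM hb, fun E _ _ _ X hX => ?_⟩
  have hEinj : Function.Injective fun i => algebraMap L E (b i) :=
    (algebraMap L E).injective.comp hinj
  refine ⟨(hhat_spec hEinj hX).1, ?_⟩
  let _ : Algebra K E := ((algebraMap L E).comp (algebraMap K L)).toAlgebra
  have : IsScalarTower K L E := IsScalarTower.of_algebraMap_eq fun _ => rfl
  have hE := dn_up (L := E) h
  have hD0 := disc_ne h hc hD
  have hDE0 : algebraMap (𝓞 L) (𝓞 E) (algebraMap (𝓞 K) (𝓞 L) D) ≠ 0 :=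
    (map_ne_zero_iff _ alg_inj).2 ((map_ne_zero_iff _ alg_inj).2 hD0)
  -- the primes which divide the discriminant exactly once
  set T : Finset (HeightOneSpectrum (𝓞 K)) := (finite_mem hD0).toFinset.filter (Once D) with hT
  have hmT (v : HeightOneSpectrum (𝓞 K)) : v ∈ T ↔ Once D v := by
    rw [hT, mem_filter, Set.Finite.mem_toFinset]
    exact ⟨fun h => h.2, fun h => ⟨h.1, h⟩⟩
  have eT : once D = part T D := by
    have e1 : part T D = ∑ v ∈ T, (mp v D : ℝ) * Real.log (nv v) := rfl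
    rw [e1]
    unfold HD.once
    rw [finsum_eq_sum_of_support_subset (s := T) _ fun v hv => ?_]
    · refine sum_congr rfl fun v hv => ?_
      rw [if_pos ((hmT v).1 hv), mp_once ((hmT v).1 hv)]
      simp
    · rw [Function.mem_support] at hv
      rw [mem_coe, hmT]
      by_contra hcon
      rw [if_neg hcon] at hv
      exact hv rfl
  have hspec (v : HeightOneSpectrum (𝓞 K)) (hv : v ∈ T) (u : HeightOneSpectrum (𝓞 L))
      (hu : J L v ≤ u.asIdeal) := once_spec h hP hc hD ((hmT v).1 hv) hu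
  have hTN : ∀ v ∈ T, Node α β v := fun v hv => node_of_smp h fun u hu => (hspec v hv u hu).2.2
  have hTc : ∀ v ∈ T, ¬ c ≤ v.asIdeal := fun v hv hle => by
    obtain ⟨w, hw⟩ := exists_over L v
    have h1 := (hspec v hv w hw).1
    have h2 := (le_mi (v := v) hc 1).1 (by
      rw [pow_one, Ideal.dvd_iff_le]
      exact hle)
    omega
  -- the places where `E / L` is ramified
  set R : Finset (HeightOneSpectrum (𝓞 E)) := (Vf hE).filter fun w =>
    ∃ v ∈ T, ∃ u : HeightOneSpectrum (𝓞 L), J L v ≤ u.asIdeal ∧ J E u ≤ w.asIdeal ∧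
      2 ≤ mi w (J E u) with hR
  have hI : ∀ v ∈ T, ∀ (u : HeightOneSpectrum (𝓞 L)) (w : HeightOneSpectrum (𝓞 E)), Over v u →
      Over u w → w ∉ R → 1 ≤ 1 ∧ Thin (upn E α) (upn E β) w ∨
        Ident (upn E α) (upn E β) (X 1) w := by
    intro v hv u w hu hw hwR
    rw [over_iff] at hu hw
    obtain ⟨p, hp, hs, hr⟩ := (hspec v hv u hu).2.2
    have hsE := single_up h hp hs hw
    have h1 : rr (upn E α) (upn E β) w p = mi w (J E u) := by
      rw [rr_up h hw hp, hr, mul_one]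
    have h2 : w ∈ Vf hE := by
      refine mem_Vf hE hp ?_
      rw [mem_iff_mp (hE p hp), rr_add hE w hp]
      have := hsE.1
      omega
    have h3 : ¬ 2 ≤ mi w (J E u) := fun h3 => hwR (by
      rw [hR, mem_filter]
      exact ⟨h2, v, hv, u, hu, hw, h3⟩)
    have h4 := hsE.1
    refine Or.inl ⟨le_rfl, p, mem_prs.1 hp, (cong_iff hE hp 1).2 h4, ?_⟩
    rw [cong_iff hE hp 2, h1]
    exact h3
  have hloss : 1 / 2 * ∑ w ∈ R, (ms (upn E α) (upn E β) w : ℝ) * Real.log (nv w) ≤
      ldd L E (algebraMap (𝓞 L) (𝓞 E) (algebraMap (𝓞 K) (𝓞 L) D)) := by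
    have hmemD {w : HeightOneSpectrum (𝓞 E)} (hw : w ∈ R) :
        algebraMap (𝓞 L) (𝓞 E) (algebraMap (𝓞 K) (𝓞 L) D) ∈ w.asIdeal := by
      rw [hR, mem_filter] at hw
      obtain ⟨-, v, hv, u, hu, huw, -⟩ := hw
      exact huw (Ideal.mem_map_of_mem _ (hu (Ideal.mem_map_of_mem _ ((hmT v).1 hv).1)))
    set V := (finite_mem hDE0).toFinset with hV
    have hmV (w : HeightOneSpectrum (𝓞 E)) :
        w ∈ V ↔ algebraMap (𝓞 L) (𝓞 E) (algebraMap (𝓞 K) (𝓞 L) D) ∈ w.asIdeal := by
      rw [hV, Set.Finite.mem_toFinset]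
      rfl
    have e1 : ldd L E (algebraMap (𝓞 L) (𝓞 E) (algebraMap (𝓞 K) (𝓞 L) D)) =
        ∑ w ∈ V, (mi w (differentIdeal (𝓞 L) (𝓞 E)) : ℝ) * Real.log (nv w) := by
      unfold HD.ldd
      rw [finsum_eq_sum_of_support_subset (s := V) _ fun w hw => ?_]
      · exact sum_congr rfl fun w hw => if_pos ((hmV w).1 hw)
      · rw [Function.mem_support] at hw
        rw [mem_coe, hmV]
        by_contra hcon
        rw [if_neg hcon] at hw
        exact hw rfl
    rw [e1, mul_sum]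
    refine le_trans ?_ (sum_le_sum_of_subset_of_nonneg (s := R) (fun w hw => (hmV w).2 (hmemD hw))
      fun w _ _ => mul_nonneg (Nat.cast_nonneg _) (log_nv_pos w).le)
    refine sum_le_sum fun w hw => ?_
    rw [← mul_assoc]
    refine mul_le_mul_of_nonneg_right ?_ (log_nv_pos w).le
    rw [hR, mem_filter] at hw
    obtain ⟨-, v, hv, u, hu, huw, he⟩ := hw
    have h1 := ms_up h huw
    rw [(hspec v hv u hu).2.1, mul_one] at h1
    have h2 := mi_different (L := E) u w
    have h3 : ms (upn E α) (upn E β) w ≤ 2 * mi w (differentIdeal (𝓞 L) (𝓞 E)) := by omega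
    have h4 : (ms (upn E α) (upn E β) w : ℝ) ≤ 2 * mi w (differentIdeal (𝓞 L) (𝓞 E)) := by
      exact_mod_cast h3
    linarith
  have key (l : List (Fin (2 * g + 1) × Fin (2 * g + 1))) (B : Finset (Fin (2 * g + 1)))
      (hl : l ≠ []) (hB : Apart l B) (hdl' : dl (X 1) l B ≠ 0)
      (S : Finset (HeightOneSpectrum (𝓞 E))) (hS : ∀ v ∈ S, Zero (X 1) v) :
      Module.finrank L E * (3 / 4 * (Module.finrank K L * once D -
        2 * (2 * g + 1) * ∑ k, hp α β m k + 4 / 3 * hpl α β m l) -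
        4 * g * Module.finrank ℚ L) + ∑ v ∈ S, Real.log (nv v) -
        ldd L E (algebraMap (𝓞 L) (𝓞 E) (algebraMap (𝓞 K) (𝓞 L) D)) ≤
        4 * hhat X := by
    have h1 := low_id hg h hc hD hM hb hTN hTc hX hI hl hB hdl' hS
    have h3 : th α β m = ∑ k, hp α β m k := rfl
    rw [h3, ← eT, pow_one] at h1
    linarith
  refine ⟨?_, key⟩
  by_cases hO : Origin (X 1)
  · exact Or.inl hO
  obtain ⟨l, B, hB, hd, hl⟩ := exists_dl hO
  obtain ⟨p, rfl⟩ := List.length_eq_one_iff.1 hl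
  refine Or.inr ⟨p.1, p.2, (hB.2.1 p (List.mem_singleton_self p)).1, fun S hS => ?_⟩
  have h1 := key [p] B (List.cons_ne_nil _ _) hB hd S hS
  rwa [hpl_one] at h1

end Pool.Agent.H433.EW
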