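import Pool.Agent.H433.EW.Poly2

/-!
The main theorems for the polynomials of degree `2 g + 2`.
-/

set_option autoImplicit false
set_option linter.unusedSectionVars false
set_option linter.unusedVariables false

open NumberField IsDedekindDomain Finset Filter Topology Polynomial

namespace Pool.Agent.H433.EW

open Pool.Agent.H433.AC (prs mp le_mp mem_iff_mp nv log_nv_pos finite_mem Nm)
open Pool.Agent.H433.HG (mem_prs Sp alg_inj alg_co Orbit Apart dl Zero hhat Origin ht rs)
open Pool.Agent.H433.EV (mn mn_co Dn Pn Pn_ne Bd Coord upn dn_up)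
open Pool.Agent.H433.GT (ht_int mi le_mi lt_pow)
open Pool.Agent.H433.HD (sz prod_prs sz_const part once ldd Torsion Over)
open Poly (bc)

variable {g : ℕ} {K L : Type} [Field K] [NumberField K] [Field L] [NumberField L] [Algebra K L]
  {α β : Fin (2 * g + 1 + 1) → 𝓞 L} {r : Fin (2 * g + 1 + 1) → L}

/-- the zeros are different -/
theorem roots_ne {f : (𝓞 K)[X]} (hn : f.natDegree = 2 * g + 1 + 1) (hD : f.discr ≠ 0)
    (hf : f.map (algebraMap (𝓞 K) L) =
      C (algebraMap (𝓞 K) L f.leadingCoeff) * ∏ i, (X - C (r i)))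
    (q : Fin (2 * g + 1 + 1) × Fin (2 * g + 1 + 1)) (hq : q ∈ prs (2 * g + 1 + 1)) :
    r q.1 - r q.2 ≠ 0 := by
  obtain ⟨k, hk⟩ := discr_map (algebraMap (𝓞 K) L) (FaithfulSMul.algebraMap_injective (𝓞 K) L)
    hn (by omega) hf
  have h1 : algebraMap (𝓞 K) L f.discr ≠ 0 :=
    (map_ne_zero_iff _ (FaithfulSMul.algebraMap_injective (𝓞 K) L)).2 hD
  rw [hk] at h1
  have h2 : ∏ q ∈ prs (2 * g + 1 + 1), (r q.1 - r q.2) ≠ 0 := fun h => by
    apply h1
    rw [h]
    ring
  exact prod_ne_zero_iff.1 h2 q hq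

theorem roots_inj {f : (𝓞 K)[X]} (hn : f.natDegree = 2 * g + 1 + 1) (hD : f.discr ≠ 0)
    (hf : f.map (algebraMap (𝓞 K) L) =
      C (algebraMap (𝓞 K) L f.leadingCoeff) * ∏ i, (X - C (r i))) : Function.Injective r := by
  intro i j hij
  by_contra hne
  rcases lt_or_gt_of_ne hne with h | h
  · exact roots_ne hn hD hf (i, j) (mem_prs.2 h) (by simp [hij])
  · exact roots_ne hn hD hf (j, i) (mem_prs.2 h) (by simp [hij])

theorem dn_poly {f : (𝓞 K)[X]} (hn : f.natDegree = 2 * g + 1 + 1) (hD : f.discr ≠ 0)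
    (hf : f.map (algebraMap (𝓞 K) L) =
      C (algebraMap (𝓞 K) L f.leadingCoeff) * ∏ i, (X - C (r i)))
    (hβ : ∀ i, β i ≠ 0) (hr : ∀ i, (α i : L) = r i * β i) : Dn α β := by
  intro q hq h0
  have h1 := mn_eq hr q
  rw [h0] at h1
  have h2 (i : Fin (2 * g + 1 + 1)) : (β i : L) ≠ 0 := by exact_mod_cast hβ i
  have h3 : (β q.1 : L) * β q.2 * (r q.1 - r q.2) ≠ 0 :=
    mul_ne_zero (mul_ne_zero (h2 _) (h2 _)) (roots_ne hn hD hf q hq)
  apply h3
  rw [← h1]
  simp

theorem coord_poly {f : (𝓞 K)[X]} (hn : f.natDegree = 2 * g + 1 + 1) (hD : f.discr ≠ 0)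
    (hf : f.map (algebraMap (𝓞 K) L) =
      C (algebraMap (𝓞 K) L f.leadingCoeff) * ∏ i, (X - C (r i)))
    (hβ : ∀ i, β i ≠ 0) (hr : ∀ i, (α i : L) = r i * β i) :
    Coord (fun i => (α i : L)) (fun i => (β i : L)) (bc r) := by
  have h2 (i : Fin (2 * g + 1 + 1)) : (β i : L) ≠ 0 := by exact_mod_cast hβ i
  refine coord_scale (α := r) (β := fun _ => 1) h2 (fun i => by rw [hr, mul_comm])
    (fun i => by rw [mul_one]) ⟨-1, by simp, fun i j => ?_⟩
  have h3 (i : Fin (2 * g + 1)) : r i.castSucc - r (Fin.last _) ≠ 0 :=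
    roots_ne hn hD hf (i.castSucc, Fin.last _) (mem_prs.2 (Fin.castSucc_lt_last i))
  have h4 := h3 i
  have h5 := h3 j
  unfold mn bc
  simp only [mul_one]
  field_simp
  ring

theorem content_ne {f : (𝓞 K)[X]} (hn : f.natDegree = 2 * g + 1 + 1) : f.contentIdeal ≠ ⊥ := by
  rw [Ne, contentIdeal_eq_bot_iff]
  rintro rfl
  simp at hn

/-- the archimedean norms of the coordinates -/
theorem bd_poly {m : Fin (2 * g + 1 + 1) → InfinitePlace L → ℝ} (hβ : ∀ i, β i ≠ 0)
    (hr : ∀ i, (α i : L) = r i * β i) (hm : ∀ w i j, w (r i - r j) ≤ m i w * m j w)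
    (w : InfinitePlace L) (i j : Fin (2 * g + 1 + 1)) :
    w ((mn α β (i, j) : 𝓞 L) : L) ≤ m i w * w (β i : L) * (m j w * w (β j : L)) := by
  rw [mn_eq hr, map_mul, map_mul]
  have h1 : 0 ≤ w (β i : L) * w (β j : L) := mul_nonneg (apply_nonneg _ _) (apply_nonneg _ _)
  have h2 := mul_le_mul_of_nonneg_left (hm w i j) h1
  calc w (β i : L) * w (β j : L) * w (r i - r j)
      ≤ w (β i : L) * w (β j : L) * (m i w * m j w) := h2
    _ = _ := by ring

/-- the heights -/
theorem hp_hm {m : Fin (2 * g + 1 + 1) → InfinitePlace L → ℝ} (hm0 : ∀ i w, 0 < m i w)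
    (hβ : ∀ i, β i ≠ 0) (hr : ∀ i, (α i : L) = r i * β i) (i : Fin (2 * g + 1 + 1)) :
    hp α β (fun i w => m i w * w (β i : L)) i = Poly.hm r m i := by
  have h1 := hp_mx hβ hr i
  unfold hp at h1 ⊢
  unfold Poly.hm
  have h3 : Real.log 2 / 2 = Real.log (Real.sqrt 2) := by
    rw [Real.log_sqrt (by norm_num)]
  rw [h3, ← sz_const] at h1
  unfold HD.sz at h1 ⊢
  have hβw (w : InfinitePlace L) : 0 < w (β i : L) :=
    InfinitePlace.pos_iff.2 (by exact_mod_cast hβ i)
  have h2 (w : InfinitePlace L) : Real.log (mx α β i w) =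
      Real.log (Real.sqrt 2) + (Real.log (max 1 (w (r i))) + Real.log (w (β i : L))) := by
    unfold mx
    have h4 : max (w (α i : L)) (w (β i : L)) = max 1 (w (r i)) * w (β i : L) := by
      rw [hr, map_mul, max_mul_of_nonneg _ _ (hβw w).le, one_mul, max_comm]
    have h5 : 0 < max 1 (w (r i)) := lt_of_lt_of_le one_pos (le_max_left _ _)
    rw [h4, Real.log_mul (by positivity) (mul_pos h5 (hβw w)).ne',
      Real.log_mul h5.ne' (hβw w).ne']
  simp only [h2] at h1
  have h6 (w : InfinitePlace L) : Real.log (m i w * w (β i : L)) =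
      Real.log (m i w) + Real.log (w (β i : L)) := Real.log_mul (hm0 i w).ne' (hβw w).ne'
  simp only [h6]
  have h7 : ∑ w : InfinitePlace L, (w.mult : ℝ) * (Real.log (m i w) + Real.log (w (β i : L))) -
      ∑ w : InfinitePlace L, (w.mult : ℝ) * (Real.log (Real.sqrt 2) +
        (Real.log (max 1 (w (r i))) + Real.log (w (β i : L)))) =
      ∑ w : InfinitePlace L, (w.mult : ℝ) * (Real.log (m i w) - Real.log (max 1 (w (r i)))) -
      ∑ w : InfinitePlace L, (w.mult : ℝ) * Real.log (Real.sqrt 2) := by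
    rw [← sum_sub_distrib, ← sum_sub_distrib]
    exact sum_congr rfl fun w _ => by ring
  linarith

theorem up_hr {E : Type} [Field E] [NumberField E] [Algebra L E] (hr : ∀ i, (α i : L) = r i * β i)
    (i : Fin (2 * g + 1 + 1)) :
    ((upn E α i : 𝓞 E) : E) = algebraMap L E (r i) * (upn E β i : 𝓞 E) := by
  unfold upn
  rw [alg_co, alg_co, hr, map_mul]

theorem up_ne {E : Type} [Field E] [NumberField E] [Algebra L E] (hβ : ∀ i, β i ≠ 0)
    (i : Fin (2 * g + 1 + 1)) : upn E β i ≠ 0 :=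
  (map_ne_zero_iff _ alg_inj).2 (hβ i)

/-- The lower bound for the points in the identity component, and the points of finite order. -/
theorem poly_a (g : ℕ) (hg : 1 ≤ g) (K L : Type) [Field K] [NumberField K] [Field L]
    [NumberField L] [Algebra K L] (f : (𝓞 K)[X]) (hn : f.natDegree = 2 * g + 1 + 1)
    (hD : f.discr ≠ 0) (r : Fin (2 * g + 1 + 1) → L)
    (hf : f.map (algebraMap (𝓞 K) L) =
      C (algebraMap (𝓞 K) L f.leadingCoeff) * ∏ i, (X - C (r i)))
    (m : Fin (2 * g + 1 + 1) → InfinitePlace L → ℝ) (hm0 : ∀ i w, 0 < m i w)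
    (hm : ∀ w i j, w (r i - r j) ≤ m i w * m j w)
    (T : Finset (HeightOneSpectrum (𝓞 K)))
    (hT : ∀ v ∈ T, Poly.Node r v ∧ ¬ f.contentIdeal ≤ v.asIdeal) :
    Function.Injective r ∧ Function.Injective (bc r) ∧
      ∀ (E : Type) [Field E] [NumberField E] [Algebra L E],
        ∀ X : ℕ → Finset (Fin (2 * g + 1)) → E, Orbit (fun i => algebraMap L E (bc r i)) X →
          Tendsto (fun n : ℕ => ht (X n) / 4 ^ n) atTop (𝓝 (hhat X)) ∧
          (Torsion X → hhat X = 0) ∧
          ∀ (n : ℕ) (R : Finset (HeightOneSpectrum (𝓞 E))),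
            (∀ v ∈ T, ∀ (u : HeightOneSpectrum (𝓞 L)) (w : HeightOneSpectrum (𝓞 E)), Over v u →
              Over u w → w ∉ R → (1 ≤ n ∧ Poly.Thin (fun i => algebraMap L E (r i)) w) ∨
                Poly.Ident (fun i => algebraMap L E (r i)) (X n) w) →
            (Torsion X → (∀ i j : Fin (2 * g + 1), i < j →
              1 / 4 * part R (algebraMap (𝓞 L) (𝓞 E) (algebraMap (𝓞 K) (𝓞 L) f.discr)) <
              Module.finrank L E * (3 / 4 * (Module.finrank K L * part T f.discr -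
                2 * (2 * g + 1) * ∑ k, Poly.hm r m k +
                4 / 3 * (Poly.hm r m i.castSucc + Poly.hm r m j.castSucc)) -
                4 * g * Module.finrank ℚ L)) → Origin (X n)) ∧
            (Origin (X n) ∨ ∃ i j : Fin (2 * g + 1), i < j ∧
              ∀ S : Finset (HeightOneSpectrum (𝓞 E)), (∀ v ∈ S, Zero (X n) v) →
              Module.finrank L E * (3 / 4 * (Module.finrank K L * part T f.discr -
                2 * (2 * g + 1) * ∑ k, Poly.hm r m k +
                4 / 3 * (Poly.hm r m i.castSucc + Poly.hm r m j.castSucc)) -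
                4 * g * Module.finrank ℚ L) + ∑ v ∈ S, Real.log (nv v) -
                1 / 4 * part R (algebraMap (𝓞 L) (𝓞 E) (algebraMap (𝓞 K) (𝓞 L) f.discr)) ≤
                4 ^ n * hhat X) ∧
            ∀ l B, l ≠ [] → Apart l B → dl (X n) l B ≠ 0 →
              ∀ S : Finset (HeightOneSpectrum (𝓞 E)), (∀ v ∈ S, Zero (X n) v) →
              Module.finrank L E * (3 / 4 * (Module.finrank K L * part T f.discr -
                2 * (2 * g + 1) * ∑ k, Poly.hm r m k + 4 / 3 * Poly.hml r m l) -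
                4 * g * Module.finrank ℚ L) + ∑ v ∈ S, Real.log (nv v) -
                1 / 4 * part R (algebraMap (𝓞 L) (𝓞 E) (algebraMap (𝓞 K) (𝓞 L) f.discr)) ≤
                4 ^ n * hhat X := by
  obtain ⟨α, β, hβ, hr'⟩ := exists_int r
  have h := dn_poly hn hD hf hβ hr'
  have hc := content_ne hn
  have hβw (i : Fin (2 * g + 1 + 1)) (w : InfinitePlace L) : 0 < w (β i : L) :=
    InfinitePlace.pos_iff.2 (by exact_mod_cast hβ i)
  obtain ⟨-, h1⟩ := main_a g hg K L α β (fun i j hij => h (i, j) (mem_prs.2 hij)) f.discr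
    f.contentIdeal hc (disc_poly hn hf hβ hr') (fun i w => m i w * w (β i : L))
    (fun i w => mul_pos (hm0 i w) (hβw i w)) (fun w i j _ => bd_poly hβ hr' hm w i j) T
    fun v hv => ⟨(node_iff h hβ hr' v).1 (hT v hv).1, (hT v hv).2⟩
  obtain ⟨hinj, h2⟩ := h1 (bc r) (coord_poly hn hD hf hβ hr')
  refine ⟨roots_inj hn hD hf, hinj, fun E _ _ _ X hX => ?_⟩
  obtain ⟨h3, h4, h5⟩ := h2 E X hX
  refine ⟨h3, h4, fun n R hI => ?_⟩
  have hE := dn_up (L := E) h
  have hIE : ∀ v ∈ T, ∀ (u : HeightOneSpectrum (𝓞 L)) (w : HeightOneSpectrum (𝓞 E)), Over v u →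
      Over u w → w ∉ R → (1 ≤ n ∧ Thin (upn E α) (upn E β) w) ∨
        Ident (upn E α) (upn E β) (X n) w := by
    intro v hv u w hu hw hwR
    rcases hI v hv u w hu hw hwR with ⟨h6, h7⟩ | h6
    · exact Or.inl ⟨h6, thin_of hE (up_ne hβ) (up_hr hr') h7⟩
    · exact Or.inr (ident_of hE (up_ne hβ) (up_hr hr') h6)
  have h6 := h5 n R hIE
  simp only [hpl, hp_hm hm0 hβ hr'] at h6
  exact h6

/-- The lower bound for all the points, in terms of the primes which divide the discriminant exactly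
once. -/
theorem poly_b (g : ℕ) (hg : 1 ≤ g) (K L : Type) [Field K] [NumberField K] [Field L]
    [NumberField L] [Algebra K L] (f : (𝓞 K)[X]) (hn : f.natDegree = 2 * g + 1 + 1)
    [IsSplittingField K L (f.map (algebraMap (𝓞 K) K))]
    (hD : f.discr ≠ 0) (r : Fin (2 * g + 1 + 1) → L)
    (hf : f.map (algebraMap (𝓞 K) L) =
      C (algebraMap (𝓞 K) L f.leadingCoeff) * ∏ i, (X - C (r i)))
    (m : Fin (2 * g + 1 + 1) → InfinitePlace L → ℝ) (hm0 : ∀ i w, 0 < m i w)
    (hm : ∀ w i j, w (r i - r j) ≤ m i w * m j w) :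
    Function.Injective r ∧ Function.Injective (bc r) ∧
      ht (fun S => (rs (bc r) S)⁻¹) ≤ g * ∑ k, Poly.hm r m k ∧
      ∀ (E : Type) [Field E] [NumberField E] [Algebra L E],
        ∀ X : ℕ → Finset (Fin (2 * g + 1)) → E, Orbit (fun i => algebraMap L E (bc r i)) X →
          Tendsto (fun n : ℕ => ht (X n) / 4 ^ n) atTop (𝓝 (hhat X)) ∧
          (Origin (X 1) ∨ ∃ i j : Fin (2 * g + 1), i < j ∧
            ∀ S : Finset (HeightOneSpectrum (𝓞 E)), (∀ v ∈ S, Zero (X 1) v) →
            Module.finrank L E * (3 / 4 * (Module.finrank K L * once f.discr -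
              2 * (2 * g + 1) * ∑ k, Poly.hm r m k +
              4 / 3 * (Poly.hm r m i.castSucc + Poly.hm r m j.castSucc)) -
              4 * g * Module.finrank ℚ L) + ∑ v ∈ S, Real.log (nv v) -
              ldd L E (algebraMap (𝓞 L) (𝓞 E) (algebraMap (𝓞 K) (𝓞 L) f.discr)) ≤
              4 * hhat X) ∧
          ∀ l B, l ≠ [] → Apart l B → dl (X 1) l B ≠ 0 →
            ∀ S : Finset (HeightOneSpectrum (𝓞 E)), (∀ v ∈ S, Zero (X 1) v) →
            Module.finrank L E * (3 / 4 * (Module.finrank K L * once f.discr -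
              2 * (2 * g + 1) * ∑ k, Poly.hm r m k + 4 / 3 * Poly.hml r m l) -
              4 * g * Module.finrank ℚ L) + ∑ v ∈ S, Real.log (nv v) -
              ldd L E (algebraMap (𝓞 L) (𝓞 E) (algebraMap (𝓞 K) (𝓞 L) f.discr)) ≤
              4 * hhat X := by
  have hf0 : f ≠ 0 := by
    rintro rfl
    simp at hn
  have hno : Normal K L := Normal.of_isSplittingField (f.map (algebraMap (𝓞 K) K))
  have hga : IsGalois K L := {}
  obtain ⟨α, β, hβ, hr'⟩ := exists_int r
  have h := dn_poly hn hD hf hβ hr'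
  have hc := content_ne hn
  have hβw (i : Fin (2 * g + 1 + 1)) (w : InfinitePlace L) : 0 < w (β i : L) :=
    InfinitePlace.pos_iff.2 (by exact_mod_cast hβ i)
  obtain ⟨-, h1⟩ := main_b g hg K L α β (fun i j hij => h (i, j) (mem_prs.2 hij))
    (perm_poly hf0 hf hβ hr') f.discr f.contentIdeal hc (disc_poly hn hf hβ hr')
    (fun i w => m i w * w (β i : L)) (fun i w => mul_pos (hm0 i w) (hβw i w))
    (fun w i j _ => bd_poly hβ hr' hm w i j)
  obtain ⟨hinj, h2, h3⟩ := h1 (bc r) (coord_poly hn hD hf hβ hr')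
  simp only [hp_hm hm0 hβ hr'] at h2
  refine ⟨roots_inj hn hD hf, hinj, h2, fun E _ _ _ X hX => ?_⟩
  have h6 := h3 E X hX
  simp only [hpl, hp_hm hm0 hβ hr'] at h6
  exact h6

end Pool.Agent.H433.EW
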