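import Pool.Agent.H433.EW.Loc

/-!
The local estimates and the ideals generated by the coordinates.
-/

set_option autoImplicit false
set_option linter.unusedSectionVars false
set_option linter.unusedVariables false

open NumberField IsDedekindDomain Finset

namespace Pool.Agent.H433.EW

open Pool.Agent.H433.AC (prs mp le_mp mem_iff_mp nv log_nv_pos finite_mem Nm)
open Pool.Agent.H433.HG (mem_prs Sp mem_Sp Linear Apart dl rs apart_sub dl_gen dl_le_mem Zero al ht
  ht_sign Sp_nonempty)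
open Pool.Agent.H433.EV (mn mn_co mn_swap Dn Pn Pn_ne Coord Sep Unit1 Gp Np em Gp_sub weight_Np
  weight_all card_em card_emc prod_GN e2 e2_inj e2_mem Vf mem_Vf mem_Vf' W W_co Wne coord_inj
  loc_sep loc_dif W_rs pl pl_sub pl_ne mp_pl)
open Pool.Agent.H433.GT (mi le_mi mp_mul mp_prod log_absNorm log_Nm lt_pow span_ne le_mi_span
  le_of_simple)

variable {g : ℕ} {K : Type} [Field K] [NumberField K] {α β : Fin (2 * g + 1 + 1) → 𝓞 K}

/-- Exactly two points are congruent. -/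
def Single (α β : Fin (2 * g + 1 + 1) → 𝓞 K) (p : Fin (2 * g + 1 + 1) × Fin (2 * g + 1 + 1))
    (v : HeightOneSpectrum (𝓞 K)) : Prop :=
  1 ≤ rr α β v p ∧ ∀ q ∈ prs (2 * g + 1 + 1), 1 ≤ rr α β v q → q = p

/-- exactly two points are congruent modulo `v` -/
def Sng (α β : Fin (2 * g + 1 + 1) → 𝓞 K) (v : HeightOneSpectrum (𝓞 K)) : Prop :=
  ∃ p ∈ prs (2 * g + 1 + 1), Single α β p v

/-- the place is simple -/
def Smp (α β : Fin (2 * g + 1 + 1) → 𝓞 K) (v : HeightOneSpectrum (𝓞 K)) : Prop :=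
  ∃ p ∈ prs (2 * g + 1 + 1), Single α β p v ∧ rr α β v p = 1

/-- the same for the coordinates without a common divisor -/
theorem old_single {v : HeightOneSpectrum (𝓞 K)} {p : Fin (2 * g + 1 + 1) × Fin (2 * g + 1 + 1)}
    (hp : p ∈ prs (2 * g + 1 + 1)) (hs : Single α β p v)
    {α' β' : Fin (2 * g + 1 + 1) → 𝓞 K} (hD : Dn α' β')
    (h : ∀ q ∈ prs (2 * g + 1 + 1), mp v (mn α' β' q) = rr α β v q) : EV.Single α' β' p v := by
  refine ⟨?_, fun q hq hqv => hs.2 q hq ?_⟩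
  · rw [mem_iff_mp (hD p hp), h p hp]
    exact hs.1
  · rw [mem_iff_mp (hD q hq), h q hq] at hqv
    exact hqv

/-- a product of minors which are units after the division by the common divisors -/
theorem not_Wz (h : Dn α β) {v : HeightOneSpectrum (𝓞 K)}
    {p : Fin (2 * g + 1 + 1) × Fin (2 * g + 1 + 1)} (hs : Single α β p v)
    {S : Finset (Fin (2 * g + 1))} (hS : S ∈ Sp g) (hsep : Sep S p) {z : 𝓞 K} {m : ℕ}
    (hz : z ∉ v.asIdeal ^ (m + 1)) :
    W α β S * z ^ 2 ∉ v.asIdeal ^ (2 * m + g * As α β v + 1) := by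
  have hz0 : z ≠ 0 := by
    intro h0
    rw [h0] at hz
    exact hz (Ideal.zero_mem _)
  have h1 : ∑ q ∈ Gp (em S), rr α β v q = 0 := by
    refine sum_eq_zero fun q hq => ?_
    by_contra hne
    have h2 := hs.2 q (Gp_sub _ hq) (by omega)
    rw [h2] at hq
    exact hsep (mem_filter.1 hq).2
  have h2 := mp_W h v hS
  rw [h1, zero_add] at h2
  rw [le_mp hz0] at hz
  rw [le_mp (mul_ne_zero (Wne h S) (pow_ne_zero 2 hz0)), mp_mul (Wne h S) (pow_ne_zero 2 hz0),
    pow_two, mp_mul hz0 hz0, h2]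
  omega

/-- the general local estimate -/
theorem loc_gen (h : Dn α β) {z : Finset (Fin (2 * g + 1)) → 𝓞 K}
    {v : HeightOneSpectrum (𝓞 K)} {m : ℕ} {S : Finset (Fin (2 * g + 1))} (hS : S ∈ Sp g)
    (hz : z S ∉ v.asIdeal ^ (m + 1)) :
    W α β S * z S ^ 2 ∉ v.asIdeal ^ (2 * m + (g * As α β v + ms α β v) + 1) := by
  have hz0 : z S ≠ 0 := by
    intro h0
    rw [h0] at hz
    exact hz (Ideal.zero_mem _)
  have h2 := mp_W h v hS
  have h3 : ∑ q ∈ Gp (em S), rr α β v q ≤ ms α β v := sum_le_sum_of_subset (Gp_sub _)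
  rw [le_mp hz0] at hz
  rw [le_mp (mul_ne_zero (Wne h S) (pow_ne_zero 2 hz0)), mp_mul (Wne h S) (pow_ne_zero 2 hz0),
    pow_two, mp_mul hz0 hz0, h2]
  omega

/-- the local estimate at a simple place -/
theorem loc_simple (h : Dn α β) {b : Fin (2 * g + 1) → K}
    (hb : Coord (fun i => (α i : K)) (fun i => (β i : K)) b)
    {z : Finset (Fin (2 * g + 1)) → 𝓞 K} {t : K} (hL : Linear b fun S => (z S : K))
    (hS : ∀ S ∈ Sp g, ∃ q, (z S : K) = t * q ^ 2) {v : HeightOneSpectrum (𝓞 K)}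
    {p : Fin (2 * g + 1 + 1) × Fin (2 * g + 1 + 1)} (hp : p ∈ prs (2 * g + 1 + 1))
    (hs : Single α β p v) (hp2 : rr α β v p = 1)
    {m : ℕ} (hz : ∀ S ∈ Sp g, z S ∈ v.asIdeal ^ m) {S₀ : Finset (Fin (2 * g + 1))}
    (hS₀ : S₀ ∈ Sp g) (hz' : z S₀ ∉ v.asIdeal ^ (m + 1)) :
    ∃ S ∈ Sp g, W α β S * z S ^ 2 ∉ v.asIdeal ^ (2 * m + g * As α β v + 1) := by
  obtain ⟨α', β', r, hr, h1, h2, hD, hmp⟩ := loc_rep h v
  have hs' := old_single hp hs hD hmp
  have hb' := coord_scale hr h1 h2 hb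
  have hpd := mem_prs.1 hp
  have hd0 : v.valuation K (mn (fun i => (α' i : K)) (fun i => (β' i : K)) p) ≠ 0 := by
    rw [Ne, map_eq_zero]
    exact hD.co p hp
  have hd1 : v.valuation K (mn (fun i => (α' i : K)) (fun i => (β' i : K)) p) < 1 := by
    rw [← mn_co]
    exact (v.valuation_lt_one_iff_mem (K := K) _).2 hs'.1
  have hp2' : mn α' β' p ∉ v.asIdeal ^ 2 := by
    rw [le_mp (hD p hp), hmp p hp, hp2]
    norm_num
  have hd (x : K) (hx : v.valuation K x < 1) :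
      v.valuation K x ≤ v.valuation K (mn (fun i => (α' i : K)) (fun i => (β' i : K)) p) := by
    rw [← mn_co]
    exact le_of_simple hp2' hx
  have hr : v.valuation K (z S₀ : K) = WithZero.exp (-(m : ℤ)) := by
    refine le_antisymm ((Pool.Agent.H433.GT.mem_pow _ _).1 (hz S₀ hS₀)) ?_
    by_contra hlt
    rw [not_le] at hlt
    exact hz' ((lt_pow _ _).2 hlt)
  obtain ⟨S, hSp, hsep, hle⟩ := loc_sep (w := v.valuation K) hb' hpd (EV.single_units hs') hd0 hd1
    hd hL hS (WithZero.coe_ne_zero) hS₀ hr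
  refine ⟨S, hSp, not_Wz h hs hSp hsep ?_⟩
  rw [lt_pow, not_lt]
  exact hle

/-- the iterated differences, at a place where exactly two points are congruent -/
theorem dl_single (h : Dn α β) {b : Fin (2 * g + 1) → K}
    (hb : Coord (fun i => (α i : K)) (fun i => (β i : K)) b)
    {z : Finset (Fin (2 * g + 1)) → 𝓞 K} {y : K} (hL : Linear b fun S => (z S : K))
    {v : HeightOneSpectrum (𝓞 K)} {l : List (Fin (2 * g + 1) × Fin (2 * g + 1))}
    {B : Finset (Fin (2 * g + 1))} (hB : Apart l B)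
    (hy : y = dl (fun S => (z S : K)) l B) {m : ℕ}
    (hz : ∀ S ∈ Sp g, ∀ S' ∈ Sp g, z S - z S' ∈ v.asIdeal ^ m)
    {p : Fin (2 * g + 1) × Fin (2 * g + 1)} (hs : Single α β (e2 p) v) (hp : p ∈ l) :
    v.valuation K y ≤ WithZero.exp (-((m + rr α β v (e2 p) : ℕ) : ℤ)) := by
  obtain ⟨α', β', r, hr, h1, h2, hD, hmp⟩ := loc_rep h v
  have hpq := e2_mem (mem_prs.2 (hB.2.1 p hp).1)
  have hs' := old_single hpq hs hD hmp
  have hb' := coord_scale hr h1 h2 hb
  have h3 := EV.dl_single hD hb' hL hB hy hz hs' hp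
  rwa [hmp _ hpq] at h3

theorem ms_eq_zero (h : Dn α β) {v : HeightOneSpectrum (𝓞 K)} (hv : v ∉ Vf h) :
    ms α β v = 0 ∧ As α β v = 0 := by
  have h1 := mp_Pn h v
  have h2 : mp v (Pn α β) = 0 := by
    rw [mem_Vf'] at hv
    exact mp_zero hv
  rw [h2] at h1
  constructor
  · omega
  · by_contra hne
    have : 0 < (2 * g + 1) * As α β v := Nat.mul_pos (by omega) (by omega)
    omega

open Classical in
/-- the contribution of the places without the property `P` -/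
noncomputable def exs (h : Dn α β) (P : HeightOneSpectrum (𝓞 K) → Prop) : ℝ :=
  ∑ v ∈ Vf h, (if P v then 0 else (ms α β v : ℝ)) * Real.log (nv v)

theorem sum_exs (h : Dn α β) {V : Finset (HeightOneSpectrum (𝓞 K))}
    (hVf : Vf h ⊆ V) {P : HeightOneSpectrum (𝓞 K) → Prop} (f : HeightOneSpectrum (𝓞 K) → ℝ)
    (h1 : ∀ v, f v ≤ ms α β v) (h2 : ∀ v, P v → f v ≤ 0) :
    ∑ v ∈ V, f v * Real.log (nv v) ≤ exs h P := by
  classical
  have e1 : exs h P = ∑ v ∈ V, (if P v then 0 else (ms α β v : ℝ)) * Real.log (nv v) := by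
    unfold exs
    refine sum_subset hVf fun v _ hv => ?_
    rw [(ms_eq_zero h hv).1]
    simp
  rw [e1]
  refine sum_le_sum fun v _ => mul_le_mul_of_nonneg_right ?_ (log_nv_pos v).le
  split_ifs with hP
  · exact h2 v hP
  · exact h1 v

theorem exs_anti (h : Dn α β) {P Q : HeightOneSpectrum (𝓞 K) → Prop} (hPQ : ∀ v, P v → Q v) :
    exs h Q ≤ exs h P := by
  classical
  unfold exs
  refine sum_le_sum fun v _ => mul_le_mul_of_nonneg_right ?_ (log_nv_pos v).le
  by_cases hP : P v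
  · rw [if_pos hP, if_pos (hPQ v hP)]
  · rw [if_neg hP]
    split_ifs
    · exact Nat.cast_nonneg _
    · exact le_rfl

/-- the logarithms of the norms of the ideals of the coordinates -/
noncomputable def CA (α β : Fin (2 * g + 1 + 1) → 𝓞 K) : ℝ :=
  ∑ i, Real.log (Ideal.absNorm (ai α β i))

theorem mem_of_ai (h : Dn α β) {v : HeightOneSpectrum (𝓞 K)} {i : Fin (2 * g + 1 + 1)}
    (hv : v.asIdeal ∣ ai α β i) : v ∈ Vf h := by
  by_contra hcon
  have h1 := (ms_eq_zero h hcon).2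
  unfold As at h1
  have h2 := (sum_eq_zero_iff.1 h1) i (mem_univ i)
  have h3 := le_mi (v := v) (ai_ne h i) 1
  rw [pow_one] at h3
  have h4 := h3.1 hv
  unfold ca at h2
  omega

theorem log_ai (h : Dn α β) {V : Finset (HeightOneSpectrum (𝓞 K))} (hVf : Vf h ⊆ V)
    (i : Fin (2 * g + 1 + 1)) :
    Real.log (Ideal.absNorm (ai α β i)) = ∑ v ∈ V, (ca α β v i : ℝ) * Real.log (nv v) :=
  log_absNorm (ai_ne h i) V fun v hv => hVf (mem_of_ai h hv)

theorem CA_eq (h : Dn α β) {V : Finset (HeightOneSpectrum (𝓞 K))} (hVf : Vf h ⊆ V) :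
    CA α β = ∑ v ∈ V, (As α β v : ℝ) * Real.log (nv v) := by
  unfold CA As
  rw [sum_congr rfl fun i _ => log_ai h hVf i, sum_comm]
  refine sum_congr rfl fun v _ => ?_
  push_cast
  rw [sum_mul]

/-- a general estimate for ideals -/
theorem norm_le (h : Dn α β) {P : HeightOneSpectrum (𝓞 K) → Prop}
    {I J : Ideal (𝓞 K)} (hI : I ≠ ⊥) (hJ : J ≠ ⊥)
    (h1 : ∀ v : HeightOneSpectrum (𝓞 K), mi v J ≤ 2 * mi v I + (g * As α β v + ms α β v))
    (h2 : ∀ v : HeightOneSpectrum (𝓞 K), P v → mi v J ≤ 2 * mi v I + g * As α β v) :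
    Real.log (Ideal.absNorm J) ≤ 2 * Real.log (Ideal.absNorm I) + g * CA α β + exs h P := by
  classical
  set V : Finset (HeightOneSpectrum (𝓞 K)) := (Ideal.finite_factors hI).toFinset ∪
    ((Ideal.finite_factors hJ).toFinset ∪ Vf h) with hV
  have hVI (v : HeightOneSpectrum (𝓞 K)) (hv : v.asIdeal ∣ I) : v ∈ V := by
    rw [hV, mem_union, Set.Finite.mem_toFinset]
    exact Or.inl hv
  have hVJ (v : HeightOneSpectrum (𝓞 K)) (hv : v.asIdeal ∣ J) : v ∈ V := by
    rw [hV, mem_union, mem_union, Set.Finite.mem_toFinset, Set.Finite.mem_toFinset]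
    exact Or.inr (Or.inl hv)
  have hVf : Vf h ⊆ V := fun v hv => by
    rw [hV, mem_union, mem_union]
    exact Or.inr (Or.inr hv)
  rw [log_absNorm hI V hVI, log_absNorm hJ V hVJ, CA_eq h hVf]
  have h3 := sum_exs h hVf (P := P) (fun v => (mi v J : ℝ) - 2 * mi v I - g * As α β v)
    (fun v => ?_) fun v hs => ?_
  · have h4 : ∑ v ∈ V, ((mi v J : ℝ) - 2 * mi v I - g * As α β v) * Real.log (nv v) =
        ∑ v ∈ V, (mi v J : ℝ) * Real.log (nv v) -
          2 * ∑ v ∈ V, (mi v I : ℝ) * Real.log (nv v) -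
          g * ∑ v ∈ V, (As α β v : ℝ) * Real.log (nv v) := by
      rw [mul_sum, mul_sum, ← sum_sub_distrib, ← sum_sub_distrib]
      exact sum_congr rfl fun v _ => by ring
    rw [h4] at h3
    linarith
  · have h5 : (mi v J : ℝ) ≤ 2 * mi v I + (g * As α β v + ms α β v) := by exact_mod_cast h1 v
    linarith
  · have h5 : (mi v J : ℝ) ≤ 2 * mi v I + g * As α β v := by exact_mod_cast h2 v hs
    linarith

/-- the condition at a place -/
def Good (α β : Fin (2 * g + 1 + 1) → 𝓞 K) (y : Finset (Fin (2 * g + 1)) → K)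
    (v : HeightOneSpectrum (𝓞 K)) : Prop :=
  Smp α β v ∧ HD.Sqs y ∨ Sng α β v ∧ Ident α β y v

/-- the ideal of the fourth powers of the theta functions -/
theorem norm_al (h : Dn α β) {b : Fin (2 * g + 1) → K}
    (hb : Coord (fun i => (α i : K)) (fun i => (β i : K)) b)
    {z : Finset (Fin (2 * g + 1)) → 𝓞 K}
    {S₀ : Sp g} (h0 : z S₀ ≠ 0) (hL : Linear b fun S => (z S : K))
    {P : HeightOneSpectrum (𝓞 K) → Prop}
    (hI : ∀ v, P v → Good α β (fun S => (z S : K)) v) :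
    Real.log (Ideal.absNorm (Ideal.span (Set.range fun S : Sp g => W α β S * z S ^ 2))) ≤
      2 * Real.log (Ideal.absNorm (Ideal.span (Set.range fun S : Sp g => z S))) +
        g * CA α β + exs h P := by
  obtain ⟨zz, hzz⟩ : ∃ zz : Sp g → 𝓞 K, zz = fun S : Sp g => z S := ⟨_, rfl⟩
  obtain ⟨ww, hww⟩ : ∃ ww : Sp g → 𝓞 K, ww = fun S : Sp g => W α β S * z S ^ 2 := ⟨_, rfl⟩
  have ez (S : Sp g) : zz S = z S := by rw [hzz]
  have ew (S : Sp g) : ww S = W α β S * z S ^ 2 := by rw [hww]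
  have hb0 : zz S₀ ≠ 0 := by rwa [ez]
  have hb' : ww S₀ ≠ 0 := by
    rw [ew]
    exact mul_ne_zero (Wne h _) (pow_ne_zero 2 h0)
  rw [← hzz, ← hww]
  have key (v : HeightOneSpectrum (𝓞 K)) : ∃ S : Sp g, z S ∉ v.asIdeal ^
      (mi v (Ideal.span (Set.range zz)) + 1) := by
    have h1 := (le_mi_span (v := v) hb0 (mi v (Ideal.span (Set.range zz)) + 1)).not.1 (by omega)
    push Not at h1
    obtain ⟨S, hS⟩ := h1
    exact ⟨S, by rwa [ez] at hS⟩
  refine norm_le h (span_ne hb0) (span_ne hb') (fun v => ?_) fun v hPv => ?_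
  · obtain ⟨S, hS⟩ := key v
    have h1 := loc_gen h S.2 hS
    by_contra hcon
    rw [not_le] at hcon
    have h2 := (le_mi_span hb' _).1 hcon S
    rw [ew] at h2
    exact h1 h2
  · obtain ⟨S, hS'⟩ := key v
    rcases hI v hPv with ⟨⟨p, hp, hs, hs2⟩, t, hSq⟩ | ⟨⟨p, hp, hs⟩, hId⟩
    · have h3 := (le_mi_span (v := v) hb0 _).1 le_rfl
      obtain ⟨S', hSp', h1⟩ := loc_simple h hb hL hSq hp hs hs2 (fun T hT => by
        have h4 := h3 ⟨T, hT⟩
        rwa [ez] at h4) S.2 hS'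
      by_contra hcon
      rw [not_le] at hcon
      have h2 := (le_mi_span hb' _).1 hcon ⟨S', hSp'⟩
      rw [ew] at h2
      exact h1 h2
    obtain ⟨S₁, hS₁, hsep, hmax⟩ := hId p (mem_prs.1 hp) ((cong_iff h hp 1).2 hs.1)
    have h2 : z S₁ ∉ v.asIdeal ^ (mi v (Ideal.span (Set.range zz)) + 1) := by
      intro hm
      apply hS'
      rw [Pool.Agent.H433.GT.mem_pow] at hm ⊢
      exact (hmax S S.2).trans hm
    by_contra hcon
    rw [not_le] at hcon
    have h4 := (le_mi_span hb' _).1 hcon ⟨S₁, hS₁⟩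
    rw [ew] at h4
    exact not_Wz h hs hS₁ hsep h2 h4

/-- the sum of the logarithms of the norms for the pairs of a list -/
noncomputable def cl (α β : Fin (2 * g + 1 + 1) → 𝓞 K)
    (l : List (Fin (2 * g + 1) × Fin (2 * g + 1))) : ℝ :=
  ∑ q ∈ l.toFinset.map ⟨e2, e2_inj⟩, (Real.log (Ideal.absNorm (ai α β q.1)) +
    Real.log (Ideal.absNorm (ai α β q.2)))

/-- the norm of an iterated difference -/
theorem norm_dl (h : Dn α β) {b : Fin (2 * g + 1) → K}
    (hb : Coord (fun i => (α i : K)) (fun i => (β i : K)) b)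
    {y : Finset (Fin (2 * g + 1)) → K}
    {z : Finset (Fin (2 * g + 1)) → 𝓞 K} {c : K} (hc : c ≠ 0) (hz : ∀ b, (z b : K) = c * y b)
    {S₀ : Sp g} (h0 : z S₀ ≠ 0) (hL : Linear b fun S => (z S : K))
    {l : List (Fin (2 * g + 1) × Fin (2 * g + 1))} {B : Finset (Fin (2 * g + 1))} (hl : l ≠ [])
    (hB : Apart l B) {δ : 𝓞 K} (hδ : (δ : K) = dl (fun S => (z S : K)) l B) (hδ0 : δ ≠ 0)
    {S₁ : Finset (HeightOneSpectrum (𝓞 K))} (hS₁ : ∀ v ∈ S₁, Zero y v) :
    Real.log (Ideal.absNorm (Ideal.span (Set.range fun S : Sp g => z S))) +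
      ∑ v ∈ S₁, Real.log (nv v) + (Real.log (Nm (pl α β l)) - cl α β l) ≤
      Real.log (Nm δ) + exs h (Sng α β) := by
  classical
  obtain ⟨zz, hzz⟩ : ∃ zz : Sp g → 𝓞 K, zz = fun S : Sp g => z S := ⟨_, rfl⟩
  have ez (S : Sp g) : zz S = z S := by rw [hzz]
  have hb0 : zz S₀ ≠ 0 := by rwa [ez]
  rw [← hzz]
  have hI := span_ne hb0
  have hpl := pl_ne h hB
  set V : Finset (HeightOneSpectrum (𝓞 K)) := (Ideal.finite_factors hI).toFinset ∪
    (S₁ ∪ ((finite_mem hδ0).toFinset ∪ Vf h)) with hV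
  have hVf : Vf h ⊆ V := fun v hv => by
    rw [hV, mem_union, mem_union, mem_union]
    exact Or.inr (Or.inr (Or.inr hv))
  have e1 := log_absNorm hI V fun v hv => by
    rw [hV, mem_union, Set.Finite.mem_toFinset]
    exact Or.inl hv
  have e2' := log_Nm hδ0 V fun v hv => by
    rw [hV, mem_union, mem_union, mem_union]
    refine Or.inr (Or.inr (Or.inl ?_))
    rw [Set.Finite.mem_toFinset]
    exact hv
  have e3 := log_Nm hpl V fun v hv => by
    obtain ⟨q, hq, hqv⟩ := (Ideal.IsPrime.prod_mem_iff (hp := v.isPrime)).1 hv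
    exact hVf (mem_Vf h (pl_sub hB hq) hqv)
  -- the reduced multiplicity of the product
  obtain ⟨rl, hrl⟩ : ∃ rl : HeightOneSpectrum (𝓞 K) → ℕ,
      rl = fun v => ∑ q ∈ l.toFinset.map ⟨e2, e2_inj⟩, rr α β v q := ⟨_, rfl⟩
  have hrl' (v : HeightOneSpectrum (𝓞 K)) :
      rl v = ∑ q ∈ l.toFinset.map ⟨e2, e2_inj⟩, rr α β v q := by rw [hrl]
  have e3' : Real.log (Nm (pl α β l)) - cl α β l = ∑ v ∈ V, (rl v : ℝ) * Real.log (nv v) := by
    have e5 : cl α β l = ∑ v ∈ V, (∑ q ∈ l.toFinset.map ⟨e2, e2_inj⟩,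
        ((ca α β v q.1 : ℝ) + ca α β v q.2)) * Real.log (nv v) := by
      unfold cl
      rw [sum_congr rfl fun q _ => by rw [log_ai h hVf q.1, log_ai h hVf q.2,
        ← sum_add_distrib], sum_comm]
      refine sum_congr rfl fun v _ => ?_
      rw [sum_mul]
      exact sum_congr rfl fun q _ => by ring
    rw [e3, e5, ← sum_sub_distrib]
    refine sum_congr rfl fun v _ => ?_
    rw [← sub_mul, hrl']
    congr 1
    rw [mp_pl h v hB, sum_congr rfl fun q hq => rr_add h v (pl_sub hB hq)]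
    push_cast
    rw [sum_add_distrib]
    ring
  have hSV : S₁ ⊆ V := fun v hv => by
    rw [hV, mem_union, mem_union]
    exact Or.inr (Or.inl hv)
  have e4 : ∑ v ∈ S₁, Real.log (nv v) =
      ∑ v ∈ V, (if v ∈ S₁ then (1 : ℝ) else 0) * Real.log (nv v) := by
    have : ∀ v ∈ V, (if v ∈ S₁ then (1 : ℝ) else 0) * Real.log (nv v) =
        if v ∈ S₁ then Real.log (nv v) else 0 := fun v _ => by split_ifs <;> simp
    rw [sum_congr rfl this, ← sum_filter, filter_mem_eq_inter, inter_eq_right.2 hSV]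
  -- the local estimates
  have hdif (v : HeightOneSpectrum (𝓞 K)) : ∀ S ∈ Sp g, ∀ S' ∈ Sp g, z S - z S' ∈
      v.asIdeal ^ (mi v (Ideal.span (Set.range zz)) + if v ∈ S₁ then 1 else 0) := by
    intro S hS S' hS'
    have h1 := (le_mi_span (v := v) hb0 _).1 le_rfl
    have h2 := h1 ⟨S, hS⟩
    have h3 := h1 ⟨S', hS'⟩
    rw [ez] at h2 h3
    split_ifs with hv
    · rw [lt_pow]
      have h4 := hS₁ v hv S hS S' hS'
      have h5 := (Pool.Agent.H433.GT.mem_pow _ _).1 h2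
      refine lt_of_lt_of_le ?_ h5
      push_cast
      show v.valuation K ((z S : K) - (z S' : K)) < v.valuation K (z S : K)
      rw [hz S, hz S', ← mul_sub, map_mul, map_mul]
      exact (mul_lt_mul_iff_of_pos_left (zero_lt_iff.2 (by rwa [Ne, map_eq_zero]))).2 h4
    · rw [add_zero]
      exact Ideal.sub_mem _ h2 h3
  have hδv (v : HeightOneSpectrum (𝓞 K)) :
      mi v (Ideal.span (Set.range zz)) + (if v ∈ S₁ then 1 else 0) ≤ mp v δ := by
    rw [← le_mp hδ0, Pool.Agent.H433.GT.mem_pow]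
    exact dl_gen hl hB hδ (hdif v) S₀.2
  have key := sum_exs h hVf (P := Sng α β) (fun v => (mi v (Ideal.span (Set.range zz)) : ℝ) +
    (if v ∈ S₁ then (1 : ℝ) else 0) + rl v - mp v δ) (fun v => ?_)
    fun v ⟨p, hp, hs⟩ => ?_
  · have e5 : ∑ v ∈ V, ((mi v (Ideal.span (Set.range zz)) : ℝ) +
        (if v ∈ S₁ then (1 : ℝ) else 0) + rl v - mp v δ) * Real.log (nv v) =
        ∑ v ∈ V, (mi v (Ideal.span (Set.range zz)) : ℝ) * Real.log (nv v) +
        ∑ v ∈ V, (if v ∈ S₁ then (1 : ℝ) else 0) * Real.log (nv v) +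
        ∑ v ∈ V, (rl v : ℝ) * Real.log (nv v) -
        ∑ v ∈ V, (mp v δ : ℝ) * Real.log (nv v) := by
      rw [← sum_add_distrib, ← sum_add_distrib, ← sum_sub_distrib]
      exact sum_congr rfl fun v _ => by ring
    rw [e5, ← e1, ← e2', ← e3', ← e4] at key
    linarith
  · have h1 := hδv v
    have h2 : rl v ≤ ms α β v := by
      rw [hrl']
      exact sum_le_sum_of_subset (pl_sub hB)
    have h3 : (mi v (Ideal.span (Set.range zz)) : ℝ) + (if v ∈ S₁ then (1 : ℝ) else 0) ≤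
        mp v δ := by
      have : ((mi v (Ideal.span (Set.range zz)) + (if v ∈ S₁ then 1 else 0) : ℕ) : ℝ) ≤
          mp v δ := by exact_mod_cast h1
      push_cast at this
      exact this
    have h4 : (rl v : ℝ) ≤ ms α β v := by exact_mod_cast h2
    linarith
  · have h2 : rl v = if p ∈ l.toFinset.map ⟨e2, e2_inj⟩ then rr α β v p else 0 := by
      have h6 (q : Fin (2 * g + 1 + 1) × Fin (2 * g + 1 + 1))
          (hq : q ∈ l.toFinset.map ⟨e2, e2_inj⟩) :
          rr α β v q = if q = p then rr α β v p else 0 := by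
        split_ifs with hqp
        · rw [hqp]
        · by_contra hne
          exact hqp (hs.2 q (pl_sub hB hq) (by omega))
      rw [hrl', sum_congr rfl h6, sum_ite_eq']
    have h3 : mi v (Ideal.span (Set.range zz)) + (if v ∈ S₁ then 1 else 0) +
        (if p ∈ l.toFinset.map ⟨e2, e2_inj⟩ then rr α β v p else 0) ≤ mp v δ := by
      by_cases hpl : p ∈ l.toFinset.map ⟨e2, e2_inj⟩
      · rw [if_pos hpl, ← le_mp hδ0, Pool.Agent.H433.GT.mem_pow]
        obtain ⟨p', hp', rfl⟩ := mem_map.1 hpl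
        exact dl_single h hb hL hB hδ (hdif v) hs (List.mem_toFinset.1 hp')
      · rw [if_neg hpl, add_zero]
        exact hδv v
    rw [h2]
    have : ((mi v (Ideal.span (Set.range zz)) + (if v ∈ S₁ then 1 else 0) +
        (if p ∈ l.toFinset.map ⟨e2, e2_inj⟩ then rr α β v p else 0) : ℕ) : ℝ) ≤ mp v δ := by
      exact_mod_cast h3
    push_cast at this ⊢
    linarith

end Pool.Agent.H433.EW
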