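import Pool.Agent.H433.EW.Poly
import Pool.Agent.H433.EW.Def2

/-!
The heights of the zeros, and the Galois group.
-/

set_option autoImplicit false
set_option linter.unusedSectionVars false
set_option linter.unusedVariables false

open NumberField IsDedekindDomain Finset Filter Topology Polynomial

namespace Pool.Agent.H433.EW

open Pool.Agent.H433.AC (prs mp le_mp mem_iff_mp nv log_nv_pos finite_mem Nm)
open Pool.Agent.H433.HG (mem_prs Sp alg_inj alg_co)
open Pool.Agent.H433.EV (mn mn_co Dn Pn Pn_ne Bd Coord upn)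
open Pool.Agent.H433.GT (ht_int mi le_mi lt_pow)
open Pool.Agent.H433.HD (sz prod_prs sz_const)

variable {g : ℕ} {K L : Type} [Field K] [NumberField K] [Field L] [NumberField L] [Algebra K L]
  {α β : Fin (2 * g + 1 + 1) → 𝓞 L} {r : Fin (2 * g + 1 + 1) → L}

/-- the Galois group permutes the zeros -/
theorem perm_poly {f : (𝓞 K)[X]}
    [hs : IsSplittingField K L (f.map (algebraMap (𝓞 K) K))] (hf0 : f ≠ 0)
    (hf : f.map (algebraMap (𝓞 K) L) =
      C (algebraMap (𝓞 K) L f.leadingCoeff) * ∏ i, (X - C (r i)))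
    (hβ : ∀ i, β i ≠ 0) (hr : ∀ i, (α i : L) = r i * β i) : Perm K α β := by
  classical
  have hmap : (f.map (algebraMap (𝓞 K) K)).map (algebraMap K L) =
      C (algebraMap (𝓞 K) L f.leadingCoeff) * ∏ i, (X - C (r i)) := by
    rw [Polynomial.map_map, ← IsScalarTower.algebraMap_eq (𝓞 K) K L, hf]
  have hl : algebraMap (𝓞 K) L f.leadingCoeff ≠ 0 := by
    rw [Ne, map_eq_zero_iff _ (FaithfulSMul.algebraMap_injective (𝓞 K) L), leadingCoeff_eq_zero]
    exact hf0
  have hroot (x : L) : aeval x (f.map (algebraMap (𝓞 K) K)) = 0 ↔ ∃ i, x = r i := by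
    rw [aeval_def, ← eval_map, hmap, eval_mul, eval_C, mul_eq_zero, eval_prod, prod_eq_zero_iff]
    simp only [mem_univ, true_and, eval_sub, eval_X, eval_C, sub_eq_zero]
    exact ⟨fun h => h.resolve_left hl, Or.inr⟩
  have hσ (σ : Gal(L/K)) (j : Fin (2 * g + 1 + 1)) : σ (α j : L) = σ (r j) * σ (β j : L) := by
    rw [hr, map_mul]
  refine ⟨fun σ j => ?_, fun σ h => ?_⟩
  · have h2 := (hroot (r j)).2 ⟨j, rfl⟩
    have h3 := aeval_algHom_apply (σ : L →ₐ[K] L) (r j) (f.map (algebraMap (𝓞 K) K))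
    rw [h2, map_zero] at h3
    obtain ⟨i, hi⟩ := (hroot _).1 h3
    have hi' : σ (r j) = r i := hi
    refine ⟨i, ?_⟩
    rw [hσ, hi', hr]
    ring
  · have h1 (j : Fin (2 * g + 1 + 1)) : σ (r j) = r j := by
      have h2 := h j
      have h3 : (β j : L) ≠ 0 := by exact_mod_cast hβ j
      have h4 : σ (β j : L) ≠ 0 := (_root_.map_ne_zero _).2 h3
      rw [hσ, hr] at h2
      have h5 : ((β j : L) * σ (β j : L)) * (r j - σ (r j)) = 0 := by linear_combination h2
      exact (sub_eq_zero.1 ((mul_eq_zero.1 h5).resolve_left (mul_ne_zero h3 h4))).symm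
    have h4 := hs.adjoin_rootSet
    have h5 : (σ : L →ₐ[K] L) = AlgHom.id K L := by
      refine AlgHom.ext_of_adjoin_eq_top h4 fun x hx => ?_
      have h6 : aeval x (f.map (algebraMap (𝓞 K) K)) = 0 := by
        rw [mem_rootSet] at hx
        exact hx.2
      obtain ⟨j, rfl⟩ := (hroot x).1 h6
      exact h1 j
    ext x
    have h6 := DFunLike.congr_fun h5 x
    exact h6

/-- the norms of the coordinates at the archimedean places -/
noncomputable def mx (α β : Fin (2 * g + 1 + 1) → 𝓞 L) (i : Fin (2 * g + 1 + 1))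
    (w : InfinitePlace L) : ℝ := Real.sqrt 2 * max (w (α i : L)) (w (β i : L))

theorem mx_pos (hβ : ∀ i, β i ≠ 0) (i : Fin (2 * g + 1 + 1)) (w : InfinitePlace L) :
    0 < mx α β i w := by
  have h1 : 0 < w (β i : L) := InfinitePlace.pos_iff.2 (by exact_mod_cast hβ i)
  unfold mx
  have h2 : 0 < max (w (α i : L)) (w (β i : L)) := lt_of_lt_of_le h1 (le_max_right _ _)
  positivity

theorem mx_bd (w : InfinitePlace L) (i j : Fin (2 * g + 1 + 1)) :
    w ((mn α β (i, j) : 𝓞 L) : L) ≤ mx α β i w * mx α β j w := by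
  have e1 : ((mn α β (i, j) : 𝓞 L) : L) = (α i : L) * β j - (α j : L) * β i := by
    rw [mn_co]
    rfl
  have hsub (y z : L) : w (y - z) ≤ w y + w z := by
    rw [← InfinitePlace.norm_embedding_eq, ← InfinitePlace.norm_embedding_eq w y,
      ← InfinitePlace.norm_embedding_eq w z, map_sub]
    exact norm_sub_le _ _
  have h0 (x : L) : 0 ≤ w x := apply_nonneg _ _
  have h1 : w ((α i : L) * β j) ≤ max (w (α i : L)) (w (β i : L)) *
      max (w (α j : L)) (w (β j : L)) := by
    rw [map_mul]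
    exact mul_le_mul (le_max_left _ _) (le_max_right _ _) (h0 _)
      ((h0 _).trans (le_max_left _ _))
  have h2 : w ((α j : L) * β i) ≤ max (w (α i : L)) (w (β i : L)) *
      max (w (α j : L)) (w (β j : L)) := by
    rw [map_mul, mul_comm]
    exact mul_le_mul (le_max_right _ _) (le_max_left _ _) (h0 _)
      ((h0 _).trans (le_max_left _ _))
  have h3 : mx α β i w * mx α β j w = 2 * (max (w (α i : L)) (w (β i : L)) *
      max (w (α j : L)) (w (β j : L))) := by
    unfold mx
    have : Real.sqrt 2 * Real.sqrt 2 = 2 := Real.mul_self_sqrt (by norm_num)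
    linear_combination (max (w (α i : L)) (w (β i : L)) * max (w (α j : L)) (w (β j : L))) * this
  rw [e1, h3]
  linarith [hsub ((α i : L) * β j) ((α j : L) * β i)]

/-- the height of a zero -/
theorem hp_mx (hβ : ∀ i, β i ≠ 0) (hr : ∀ i, (α i : L) = r i * β i) (i : Fin (2 * g + 1 + 1)) :
    hp α β (mx α β) i = Height.logHeight₁ (r i) + Module.finrank ℚ L * (Real.log 2 / 2) := by
  have hβL : (β i : L) ≠ 0 := by exact_mod_cast hβ i
  have h1 : r i = (α i : L) / β i := by
    rw [hr, mul_div_cancel_right₀ _ hβL]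
  obtain ⟨z, hz⟩ : ∃ z : Fin 2 → 𝓞 L, z = ![α i, β i] := ⟨_, rfl⟩
  have hz1 : z 1 ≠ 0 := by
    rw [hz]
    exact hβ i
  have h2 : (![(α i : L), (β i : L)] : Fin 2 → L) = fun j => ((z j : 𝓞 L) : L) := by
    funext j
    rw [hz]
    fin_cases j <;> rfl
  rw [h1, Height.logHeight₁_div_eq_logHeight, h2, ht_int hz1]
  have h3 : Ideal.span (Set.range z) = ai α β i := by
    unfold ai
    rw [hz]
    congr 1
    simp [Set.pair_comm]
  rw [h3]
  have h4 (w : InfinitePlace L) : (⨆ j, w ((z j : 𝓞 L) : L)) =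
      max (w (α i : L)) (w (β i : L)) := by
    rw [hz]
    refine le_antisymm (ciSup_le fun j => ?_) (max_le ?_ ?_)
    · fin_cases j
      · exact le_max_left _ _
      · exact le_max_right _ _
    · exact le_ciSup (f := fun j : Fin 2 => w (((![α i, β i] : Fin 2 → 𝓞 L) j : 𝓞 L) : L))
        (Set.finite_range _).bddAbove 0
    · exact le_ciSup (f := fun j : Fin 2 => w (((![α i, β i] : Fin 2 → 𝓞 L) j : 𝓞 L) : L))
        (Set.finite_range _).bddAbove 1
  have hpos (w : InfinitePlace L) : 0 < max (w (α i : L)) (w (β i : L)) :=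
    lt_of_lt_of_le (InfinitePlace.pos_iff.2 hβL) (le_max_right _ _)
  have h5 : sz (mx α β i) = Real.log (∏ w : InfinitePlace L,
      (⨆ j, w ((z j : 𝓞 L) : L)) ^ w.mult) + Module.finrank ℚ L * (Real.log 2 / 2) := by
    have h6 : (Real.log 2 / 2) = Real.log (Real.sqrt 2) := by
      rw [Real.log_sqrt (by norm_num)]
    rw [h6, ← sz_const, Real.log_prod fun w _ => by
      rw [h4]
      exact pow_ne_zero _ (hpos w).ne']
    unfold HD.sz
    rw [← sum_add_distrib]
    refine sum_congr rfl fun w _ => ?_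
    rw [h4, Real.log_pow, ← mul_add]
    unfold mx
    rw [Real.log_mul (by positivity) (hpos w).ne', add_comm]
  unfold hp
  rw [h5]
  ring

/-- the valuations of the coordinates -/
theorem val_ai (h : Dn α β) (v : HeightOneSpectrum (𝓞 L)) (i : Fin (2 * g + 1 + 1)) :
    max (v.valuation L (α i : L)) (v.valuation L (β i : L)) =
      WithZero.exp (-(ca α β v i : ℤ)) := by
  have hle : ai α β i ≤ v.asIdeal ^ ca α β v i :=
    Ideal.dvd_iff_le.1 ((le_mi (ai_ne h i) _).2 le_rfl)
  refine le_antisymm (max_le ?_ ?_) ?_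
  · exact (Pool.Agent.H433.GT.mem_pow _ _).1 (hle (Ideal.subset_span (by simp)))
  · exact (Pool.Agent.H433.GT.mem_pow _ _).1 (hle (Ideal.subset_span (by simp)))
  · by_contra hcon
    rw [not_le, max_lt_iff, ← lt_pow, ← lt_pow] at hcon
    have h1 : ai α β i ≤ v.asIdeal ^ (ca α β v i + 1) := by
      unfold ai
      rw [Ideal.span_le]
      rintro x hx
      rcases hx with rfl | hx
      · exact hcon.1
      · rw [Set.mem_singleton_iff] at hx
        subst hx
        exact hcon.2
    have h2 := (le_mi (v := v) (ai_ne h i) _).1 (Ideal.dvd_iff_le.2 h1)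
    unfold ca at h2
    omega

theorem val_r (h : Dn α β) (hβ : ∀ i, β i ≠ 0) (hr : ∀ i, (α i : L) = r i * β i)
    (v : HeightOneSpectrum (𝓞 L)) (i : Fin (2 * g + 1 + 1)) :
    max 1 (v.valuation L (r i)) * v.valuation L (β i : L) = WithZero.exp (-(ca α β v i : ℤ)) := by
  rw [← val_ai h v i, hr, map_mul, max_mul, one_mul, max_comm]

/-- the chordal distance -/
theorem chord (h : Dn α β) (hβ : ∀ i, β i ≠ 0) (hr : ∀ i, (α i : L) = r i * β i)
    (v : HeightOneSpectrum (𝓞 L)) {q : Fin (2 * g + 1 + 1) × Fin (2 * g + 1 + 1)}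
    (hq : q ∈ prs (2 * g + 1 + 1)) : v.valuation L (r q.1 - r q.2) =
      WithZero.exp (-(rr α β v q : ℤ)) *
        (max 1 (v.valuation L (r q.1)) * max 1 (v.valuation L (r q.2))) := by
  have h1 (i : Fin (2 * g + 1 + 1)) : v.valuation L (β i : L) ≠ 0 := by
    rw [Ne, map_eq_zero]
    exact_mod_cast hβ i
  have h2 : v.valuation L ((mn α β q : 𝓞 L) : L) = WithZero.exp (-(mp v (mn α β q) : ℤ)) := by
    refine le_antisymm ?_ ?_
    · rw [← Pool.Agent.H433.GT.mem_pow, le_mp (h q hq)]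
    · by_contra hcon
      rw [not_le, ← lt_pow, le_mp (h q hq)] at hcon
      omega
  rw [mn_eq hr, map_mul, map_mul, rr_add h v hq] at h2
  have h3 : WithZero.exp (-((rr α β v q + (ca α β v q.1 + ca α β v q.2) : ℕ) : ℤ)) =
      WithZero.exp (-(rr α β v q : ℤ)) * (WithZero.exp (-(ca α β v q.1 : ℤ)) *
        WithZero.exp (-(ca α β v q.2 : ℤ))) := by
    rw [← WithZero.exp_add, ← WithZero.exp_add]
    congr 1
    push_cast
    ring
  rw [h3, ← val_r h hβ hr v q.1, ← val_r h hβ hr v q.2] at h2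
  have h4 : v.valuation L (β q.1 : L) * v.valuation L (β q.2 : L) ≠ 0 :=
    mul_ne_zero (h1 _) (h1 _)
  refine mul_left_cancel₀ h4 ?_
  rw [h2]
  simp only [mul_comm, mul_left_comm, mul_assoc]

/-- the relation between the two definitions -/
theorem near_iff (h : Dn α β) (hβ : ∀ i, β i ≠ 0) (hr : ∀ i, (α i : L) = r i * β i)
    (v : HeightOneSpectrum (𝓞 L)) {q : Fin (2 * g + 1 + 1) × Fin (2 * g + 1 + 1)}
    (hq : q ∈ prs (2 * g + 1 + 1)) : Poly.Near r q v ↔ Cong α β q v 1 := by
  have h1 := chord h hβ hr v hq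
  have hpos : 0 < max 1 (v.valuation L (r q.1)) * max 1 (v.valuation L (r q.2)) := by
    refine mul_pos ?_ ?_
    · exact lt_of_lt_of_le one_pos (le_max_left _ _)
    · exact lt_of_lt_of_le one_pos (le_max_left _ _)
  rw [cong_iff h hq]
  unfold Poly.Near
  rw [h1, mul_lt_iff_lt_one_left hpos, ← WithZero.exp_zero, WithZero.exp_lt_exp]
  omega

theorem node_iff (h : Dn α β) (hβ : ∀ i, β i ≠ 0) (hr : ∀ i, (α i : L) = r i * β i)
    (v : HeightOneSpectrum (𝓞 K)) : Poly.Node r v ↔ Node α β v := by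
  unfold Poly.Node Node
  refine forall_congr' fun u => forall_congr' fun _ => ?_
  refine existsUnique_congr fun q => and_congr_right fun hq => near_iff h hβ hr u (mem_prs.2 hq)

theorem thin_of (h : Dn α β) (hβ : ∀ i, β i ≠ 0) (hr : ∀ i, (α i : L) = r i * β i)
    {v : HeightOneSpectrum (𝓞 L)} (ht : Poly.Thin r v) : Thin α β v := by
  obtain ⟨q, hq, hq1, hq2⟩ := ht
  have hq' := mem_prs.2 hq
  refine ⟨q, hq, (near_iff h hβ hr v hq').1 hq1, ?_⟩
  rw [cong_iff h hq']
  intro h2
  obtain ⟨x, hx⟩ := v.valuation_exists_uniformizer L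
  have h3 := hq2 x (by
    rw [hx, ← WithZero.exp_zero, WithZero.exp_lt_exp]
    norm_num)
  have hpos : 0 < max 1 (v.valuation L (r q.1)) * max 1 (v.valuation L (r q.2)) := by
    refine mul_pos ?_ ?_
    · exact lt_of_lt_of_le one_pos (le_max_left _ _)
    · exact lt_of_lt_of_le one_pos (le_max_left _ _)
  rw [chord h hβ hr v hq', hx, mul_le_mul_iff_left₀ hpos, WithZero.exp_le_exp] at h3
  omega

theorem ident_of (h : Dn α β) (hβ : ∀ i, β i ≠ 0) (hr : ∀ i, (α i : L) = r i * β i)
    {x : Finset (Fin (2 * g + 1)) → L}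
    {v : HeightOneSpectrum (𝓞 L)} (ht : Poly.Ident r x v) : Ident α β x v := fun q hq hc =>
  ht q hq ((near_iff h hβ hr v (mem_prs.2 hq)).2 hc)

end Pool.Agent.H433.EW
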